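import Pool.Agent.Work.MP_8a95ee_gt.Setup

/-!
The orientation cycle of the boundary complex of the cross-polytope.
-/

namespace MP8a95ee

namespace A2

/-- the row of the vertex `x`: plus or minus a unit vector -/
def row (n : ℕ) (x : ℕ) (i : Fin n) : ℤ := if x / 2 = (i : ℕ) then (-1) ^ x else 0

/-- the matrix of an ordered tuple -/
def mat {n : ℕ} (s : Fin n → ℕ) : Matrix (Fin n) (Fin n) ℤ := Matrix.of fun k => row n (s k)

/-- the orientation function -/
def ori {n : ℕ} (s : Fin n → ℕ) : ℤ := (mat s).det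

theorem row_odd (n i : ℕ) : row n (2 * i + 1) = (-1 : ℤ) • row n (2 * i) := by
  funext j
  have h1 : (2 * i + 1) / 2 = i := by omega
  have h2 : (2 * i) / 2 = i := by omega
  simp only [row, h1, h2, Pi.smul_apply]
  split_ifs
  · rw [pow_succ]; simp
  · simp

theorem row_large {n x : ℕ} (hx : 2 * n ≤ x) : row n x = 0 := by
  funext j
  have : x / 2 ≠ (j : ℕ) := by have := j.2; omega
  simp [row, this]

theorem ori_swap {n : ℕ} (s : Fin n → ℕ) (i j : Fin n) (hij : i ≠ j) :
    ori (s ∘ Equiv.swap i j) = - ori s := by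
  have h : mat (s ∘ Equiv.swap i j) = (mat s).submatrix (Equiv.swap i j) id := by
    ext k l
    rfl
  rw [ori, ori, h, Matrix.det_permute, Equiv.Perm.sign_swap hij]
  simp

theorem mat_update {n : ℕ} (s : Fin n → ℕ) (i : Fin n) (x : ℕ) :
    mat (Function.update s i x) = (mat s).updateRow i (row n x) := by
  ext k l
  by_cases h : k = i
  · subst h
    simp [mat, Matrix.of_apply]
  · simp [mat, Matrix.of_apply, h, Matrix.updateRow_ne]

theorem ori_update_odd {n : ℕ} (s : Fin n → ℕ) (i : Fin n) (m : ℕ) :
    ori (Function.update s i (2 * m)) + ori (Function.update s i (2 * m + 1)) = 0 := by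
  rw [ori, ori, mat_update, mat_update, row_odd, Matrix.det_updateRow_smul]
  simp

theorem sum_range_pairs (F : ℕ → ℤ) (h : ∀ m, F (2 * m) + F (2 * m + 1) = 0) (n : ℕ) :
    ∑ x ∈ Finset.range (2 * n), F x = 0 := by
  induction n with
  | zero => simp
  | succ n ih =>
    rw [Nat.mul_succ, Finset.sum_range_succ, Finset.sum_range_succ, ih, zero_add]
    exact h n

theorem mem_cross {n : ℕ} {σ : Finset ℕ} : σ ∈ cross n ↔
    (∀ x ∈ σ, x < 2 * n) ∧ ∀ i < n, ¬ (2 * i ∈ σ ∧ 2 * i + 1 ∈ σ) := by
  simp only [cross, Finset.mem_filter, Finset.mem_powerset, Finset.subset_iff, Finset.mem_range]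

theorem verts_cross (n : ℕ) : verts (cross n) = Finset.range (2 * n) := by
  ext x
  simp only [verts, Finset.mem_biUnion, id, Finset.mem_range]
  constructor
  · rintro ⟨σ, hσ, hx⟩
    exact (mem_cross.mp hσ).1 x hx
  · intro hx
    refine ⟨{x}, mem_cross.mpr ⟨?_, ?_⟩, Finset.mem_singleton_self x⟩
    · intro y hy
      rw [Finset.mem_singleton] at hy
      rw [hy]; exact hx
    · intro i _ h
      rw [Finset.mem_singleton, Finset.mem_singleton] at h
      omega

theorem ori_zero_of_pair {n : ℕ} (s : Fin n → ℕ) (k l : Fin n) (m : ℕ) (hk : s k = 2 * m)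
    (hl : s l = 2 * m + 1) : ori s = 0 := by
  have hkl : k ≠ l := by
    rintro rfl
    omega
  have h1 : s = Function.update s l (2 * m + 1) := by
    rw [← hl, Function.update_eq_self]
  have h2 : ori (Function.update s l (2 * m)) = 0 := by
    rw [ori]
    apply Matrix.det_zero_of_row_eq hkl
    funext j
    simp [mat, Matrix.of_apply, hk, hkl]
  have h3 := ori_update_odd s l m
  rw [h2, zero_add] at h3
  rw [h1]
  exact h3

theorem ori_image {n : ℕ} (s : Fin n → ℕ) (h : ori s ≠ 0) : Finset.univ.image s ∈ cross n := by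
  rw [mem_cross]
  constructor
  · intro x hx
    obtain ⟨k, -, rfl⟩ := Finset.mem_image.mp hx
    by_contra hlt
    apply h
    rw [ori]
    apply Matrix.det_eq_zero_of_row_eq_zero k
    intro j
    have := congrFun (row_large (n := n) (x := s k) (by omega)) j
    simpa [mat, Matrix.of_apply] using this
  · rintro i _ ⟨h1, h2⟩
    obtain ⟨k, -, hk⟩ := Finset.mem_image.mp h1
    obtain ⟨l, -, hl⟩ := Finset.mem_image.mp h2
    exact h (ori_zero_of_pair s k l i hk hl)

theorem ori_ne_zero {n : ℕ} (s : Fin n → ℕ) (hs : Function.Injective s)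
    (hc : Finset.univ.image s ∈ cross n) : ori s ≠ 0 := by
  rw [mem_cross] at hc
  have hlt : ∀ k, s k < 2 * n := fun k => hc.1 _ (Finset.mem_image_of_mem s (Finset.mem_univ k))
  have hdiv : ∀ k l, s k / 2 = s l / 2 → k = l := by
    intro k l hkl
    apply hs
    by_contra hne
    have hmk : s k ∈ Finset.univ.image s := Finset.mem_image_of_mem s (Finset.mem_univ k)
    have hml : s l ∈ Finset.univ.image s := Finset.mem_image_of_mem s (Finset.mem_univ l)
    have hi : s k / 2 < n := by have := hlt k; omega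
    rcases Nat.lt_or_gt_of_ne hne with h | h
    · have h1 : s k = 2 * (s k / 2) := by omega
      have h2 : s l = 2 * (s k / 2) + 1 := by omega
      exact hc.2 _ hi ⟨h1 ▸ hmk, h2 ▸ hml⟩
    · have h1 : s l = 2 * (s k / 2) := by omega
      have h2 : s k = 2 * (s k / 2) + 1 := by omega
      exact hc.2 _ hi ⟨h1 ▸ hml, h2 ▸ hmk⟩
  have hmul : mat s * (mat s).transpose = 1 := by
    ext k l
    rw [Matrix.mul_apply, Matrix.one_apply]
    have hterm : ∀ j : Fin n, mat s k j * (mat s).transpose j l =
        if (⟨s k / 2, by have := hlt k; omega⟩ : Fin n) = j then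
          (if s l / 2 = s k / 2 then (-1 : ℤ) ^ (s k) * (-1) ^ (s l) else 0) else 0 := by
      intro j
      simp only [mat, Matrix.of_apply, Matrix.transpose_apply, row, Fin.ext_iff]
      by_cases h1 : s k / 2 = (j : ℕ)
      · simp only [h1, if_true]
        by_cases h2 : s l / 2 = (j : ℕ)
        · simp [h2]
        · simp [h2]
      · simp [h1]
    rw [Finset.sum_congr rfl fun j _ => hterm j, Finset.sum_ite_eq]
    simp only [Finset.mem_univ, if_true]
    by_cases hkl : k = l
    · subst hkl
      rw [if_pos rfl, if_pos rfl, ← mul_pow]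
      simp
    · rw [if_neg hkl, if_neg]
      intro h
      exact hkl (hdiv k l h.symm)
  intro h0
  have hdet := congrArg Matrix.det hmul
  rw [Matrix.det_mul, Matrix.det_one] at hdet
  have h0' : (mat s).det = 0 := h0
  rw [h0', zero_mul] at hdet
  exact zero_ne_one hdet

end A2

theorem orient_cross (n : ℕ) : ∃ o, IsOrient (cross n) n o := by
  refine ⟨A2.ori, A2.ori_swap, A2.ori_image, A2.ori_ne_zero, ?_⟩
  intro s i
  rw [A2.verts_cross]
  exact A2.sum_range_pairs (fun x => A2.ori (Function.update s i x)) (A2.ori_update_odd s i) n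

end MP8a95ee
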