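import Pool.Agent.Work.MP_8a95ee_gt.Setup

/-!
# A3: the orientation cycle of an edge subdivision
-/

namespace MP8a95ee

namespace A3

open Finset

variable {n : ℕ}

/-- `x` occurs in the tuple. -/
def P (x : ℕ) (s : Fin n → ℕ) : Prop := ∃ i, s i = x

/-- Replace `a` by `b`. -/
def rep (a b : ℕ) (s : Fin n → ℕ) : Fin n → ℕ := fun i => if s i = a then b else s i

open Classical in
/-- The new cycle. -/
noncomputable def op (u v w : ℕ) (o : (Fin n → ℕ) → ℤ) (s : Fin n → ℕ) : ℤ :=
  if P w s then
    (if P u s then (if P v s then 0 else o (rep w v s))
     else (if P v s then o (rep w u s) else 0))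
  else (if P u s ∧ P v s then 0 else o s)

theorem down {L : Finset (Finset ℕ)} (hf : FlagC L) {σ τ : Finset ℕ} (hσ : σ ∈ L) (h : τ ⊆ σ) :
    τ ∈ L := by
  rw [hf τ]
  intro x hx y hy
  exact (hf σ).1 hσ x (h hx) y (h hy)

theorem mem_verts {L : Finset (Finset ℕ)} {x : ℕ} : x ∈ verts L ↔ ∃ σ ∈ L, x ∈ σ := by
  simp [verts]

theorem mem_image' {s : Fin n → ℕ} {x : ℕ} : x ∈ univ.image s ↔ P x s := by
  simp [P]

theorem P_comp (x : ℕ) (s : Fin n → ℕ) (e : Equiv.Perm (Fin n)) : P x (s ∘ e) ↔ P x s := by
  constructor
  · rintro ⟨i, hi⟩
    exact ⟨e i, hi⟩
  · rintro ⟨i, hi⟩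
    exact ⟨e.symm i, by simpa using hi⟩

theorem rep_comp (a b : ℕ) (s : Fin n → ℕ) (e : Equiv.Perm (Fin n)) :
    rep a b (s ∘ e) = rep a b s ∘ e := rfl

theorem alt0 {o : (Fin n → ℕ) → ℤ}
    (h1 : ∀ (s : Fin n → ℕ) (i j : Fin n), i ≠ j → o (s ∘ Equiv.swap i j) = - o s)
    (s : Fin n → ℕ) (i j : Fin n) (hij : i ≠ j) (h : s i = s j) : o s = 0 := by
  have e : s ∘ Equiv.swap i j = s := by
    funext k
    simp only [Function.comp_apply]
    rcases eq_or_ne k i with rfl | hki
    · rw [Equiv.swap_apply_left]; exact h.symm
    · rcases eq_or_ne k j with rfl | hkj
      · rw [Equiv.swap_apply_right]; exact h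
      · rw [Equiv.swap_apply_of_ne_of_ne hki hkj]
  have := h1 s i j hij
  rw [e] at this
  omega

theorem verts_subdiv {L : Finset (Finset ℕ)} {u v w : ℕ} (hf : FlagC L) (huv : u ≠ v)
    (he : ({u, v} : Finset ℕ) ∈ L) : verts (subdiv L u v w) = insert w (verts L) := by
  ext x
  rw [mem_insert, mem_verts, mem_verts]
  constructor
  · rintro ⟨σ, hσ, hx⟩
    unfold subdiv at hσ
    rw [mem_union, mem_filter, mem_image] at hσ
    rcases hσ with ⟨hσ, -⟩ | ⟨τ, hτ, rfl⟩
    · exact Or.inr ⟨σ, hσ, hx⟩
    · rw [mem_filter] at hτ
      rcases mem_insert.1 hx with h | h
      · exact Or.inl h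
      · exact Or.inr ⟨τ, hτ.1, h⟩
  · rintro (rfl | ⟨σ, hσ, hx⟩)
    · refine ⟨insert x ∅, ?_, by simp⟩
      unfold subdiv
      rw [mem_union, mem_image]
      right
      refine ⟨∅, ?_, rfl⟩
      rw [mem_filter]
      refine ⟨down hf he (empty_subset _), by simp, ?_⟩
      simpa using he
    · refine ⟨{x}, ?_, by simp⟩
      unfold subdiv
      rw [mem_union, mem_filter]
      left
      refine ⟨down hf hσ (by simpa using hx), ?_⟩
      rintro ⟨h1, h2⟩
      rw [mem_singleton] at h1 h2
      exact huv (h1.trans h2.symm)

/-- `x` occurs outside the position `i`. -/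
def Q (i : Fin n) (x : ℕ) (s : Fin n → ℕ) : Prop := ∃ j, j ≠ i ∧ s j = x

theorem P_update (i : Fin n) (x y : ℕ) (s : Fin n → ℕ) :
    P x (Function.update s i y) ↔ Q i x s ∨ y = x := by
  constructor
  · rintro ⟨j, hj⟩
    rcases eq_or_ne j i with rfl | hji
    · rw [Function.update_self] at hj
      exact Or.inr hj
    · rw [Function.update_of_ne hji] at hj
      exact Or.inl ⟨j, hji, hj⟩
  · rintro (⟨j, hji, hj⟩ | rfl)
    · exact ⟨j, by rw [Function.update_of_ne hji]; exact hj⟩
    · exact ⟨i, Function.update_self _ _ _⟩

theorem rep_update_self (i : Fin n) (w v : ℕ) (s : Fin n → ℕ) (h : ¬ Q i w s) :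
    rep w v (Function.update s i w) = Function.update s i v := by
  funext k
  rcases eq_or_ne k i with rfl | hk
  · simp [rep]
  · have : s k ≠ w := fun h' => h ⟨k, hk, h'⟩
    simp [rep, Function.update_of_ne hk, this]

theorem rep_update_ne (i : Fin n) (w v x : ℕ) (s : Fin n → ℕ) (h : x ≠ w) :
    rep w v (Function.update s i x) = Function.update (rep w v s) i x := by
  funext k
  rcases eq_or_ne k i with rfl | hk
  · simp [rep, h]
  · simp [rep, Function.update_of_ne hk]

end A3

open A3 Finset in
/-- **A3**. The orientation cycle of an edge subdivision. -/
theorem orient_subdiv {n : ℕ} {L : Finset (Finset ℕ)} {u v w : ℕ} {o : (Fin n → ℕ) → ℤ}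
    (hf : FlagC L) (hd : ∀ σ ∈ L, σ.card ≤ n) (huv : u ≠ v) (he : ({u, v} : Finset ℕ) ∈ L)
    (hw : w ∉ verts L) (ho : IsOrient L n o) : ∃ o', IsOrient (subdiv L u v w) n o' := by
  classical
  obtain ⟨h1, h2, h3, h4⟩ := ho
  have hu : u ∈ verts L := mem_verts.2 ⟨_, he, by simp⟩
  have hv : v ∈ verts L := mem_verts.2 ⟨_, he, by simp⟩
  have huw : u ≠ w := fun h => hw (h ▸ hu)
  have hvw : v ≠ w := fun h => hw (h ▸ hv)
  have supp0 : ∀ s : Fin n → ℕ, P w s → o s = 0 := by
    intro s hs
    by_contra h
    exact hw (mem_verts.2 ⟨_, h2 s h, mem_image'.2 hs⟩)
  -- elements of the two kinds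
  have hsupp : ∀ (a b : ℕ) (s : Fin n → ℕ), a ≠ w → P w s → P a s → ¬ P b s →
      o (rep w b s) ≠ 0 → (univ.image s).erase w ∈ L ∧
        insert a (insert b ((univ.image s).erase w)) ∈ L := by
    intro a b s haw hws has hbs h
    have hρ := h2 _ h
    have hsub : (univ.image s).erase w ⊆ univ.image (rep w b s) := by
      intro x hx
      rw [mem_erase, mem_image'] at hx
      obtain ⟨hxw, i, hi⟩ := hx
      rw [mem_image']
      exact ⟨i, by simp only [rep, hi, if_neg hxw]⟩
    refine ⟨down hf hρ hsub, down hf hρ ?_⟩
    intro x hx
    rcases mem_insert.1 hx with rfl | hx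
    · obtain ⟨i, hi⟩ := has
      rw [mem_image']
      exact ⟨i, by simp only [rep, hi, if_neg haw]⟩
    · rcases mem_insert.1 hx with rfl | hx
      · obtain ⟨i, hi⟩ := hws
        rw [mem_image']
        exact ⟨i, by simp only [rep, hi, if_true]⟩
      · exact hsub hx
  have hnz : ∀ (a b : ℕ) (s : Fin n → ℕ) (τ : Finset ℕ), a ≠ w → Function.Injective s →
      univ.image s = insert w τ → a ∈ τ → b ∉ τ → b ≠ w →
      insert a (insert b τ) ∈ L → o (rep w b s) ≠ 0 := by
    intro a b s τ haw hs hi haτ hbτ hbw hL
    have hbs : ¬ P b s := by
      rw [← mem_image', hi, mem_insert]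
      tauto
    apply h3
    · intro i j hij
      simp only [rep] at hij
      by_cases hi1 : s i = w <;> by_cases hj1 : s j = w
      · exact hs (hi1.trans hj1.symm)
      · rw [if_pos hi1, if_neg hj1] at hij
        exact absurd ⟨j, hij.symm⟩ hbs
      · rw [if_neg hi1, if_pos hj1] at hij
        exact absurd ⟨i, hij⟩ hbs
      · rw [if_neg hi1, if_neg hj1] at hij
        exact hs hij
    · refine down hf hL ?_
      intro x hx
      rw [mem_image'] at hx
      obtain ⟨i, hi2⟩ := hx
      simp only [rep] at hi2
      by_cases hi1 : s i = w
      · rw [if_pos hi1] at hi2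
        rw [← hi2]
        simp
      · rw [if_neg hi1] at hi2
        have : s i ∈ univ.image s := mem_image'.2 ⟨i, rfl⟩
        rw [hi, mem_insert] at this
        rw [← hi2]
        rcases this with h | h
        · exact absurd h hi1
        · simp [h]
  refine ⟨op u v w o, ?_, ?_, ?_, ?_⟩
  · intro s i j hij
    unfold op
    simp only [P_comp, rep_comp, h1 _ i j hij]
    split_ifs <;> simp
  · intro s hs
    unfold op at hs
    unfold subdiv
    rw [mem_union]
    by_cases hws : P w s
    · right
      rw [if_pos hws] at hs
      have hins : insert w ((univ.image s).erase w) = univ.image s :=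
        insert_erase (mem_image'.2 hws)
      rw [mem_image]
      refine ⟨(univ.image s).erase w, ?_, hins⟩
      rw [mem_filter]
      by_cases hus : P u s <;> by_cases hvs : P v s
      · simp [hus, hvs] at hs
      · simp only [hus, hvs, if_true, if_false] at hs
        obtain ⟨q1, q2⟩ := hsupp u v s huw hws hus hvs hs
        refine ⟨q1, ?_, q2⟩
        rintro ⟨-, q3⟩
        exact hvs (mem_image'.1 (mem_of_mem_erase q3))
      · simp only [hus, hvs, if_true, if_false] at hs
        obtain ⟨q1, q2⟩ := hsupp v u s hvw hws hvs hus hs
        refine ⟨q1, ?_, ?_⟩
        · rintro ⟨q3, -⟩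
          exact hus (mem_image'.1 (mem_of_mem_erase q3))
        · rw [Finset.insert_comm]
          exact q2
      · simp [hus, hvs] at hs
    · left
      rw [if_neg hws] at hs
      by_cases hq : P u s ∧ P v s
      · rw [if_pos hq] at hs
        exact absurd rfl hs
      · rw [if_neg hq] at hs
        rw [mem_filter]
        refine ⟨h2 s hs, ?_⟩
        rw [mem_image', mem_image']
        exact hq
  · intro s hs hm
    unfold subdiv at hm
    rw [mem_union] at hm
    rcases hm with hm | hm
    · rw [mem_filter, mem_image', mem_image'] at hm
      have hws : ¬ P w s := fun h => hw (mem_verts.2 ⟨_, hm.1, mem_image'.2 h⟩)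
      unfold op
      rw [if_neg hws, if_neg hm.2]
      exact h3 s hs hm.1
    · rw [mem_image] at hm
      obtain ⟨τ, hτ, hi⟩ := hm
      rw [mem_filter] at hτ
      obtain ⟨q1, q2, q3⟩ := hτ
      have hwτ : w ∉ τ := fun h => hw (mem_verts.2 ⟨_, q1, h⟩)
      have hcard : τ.card + 1 = n := by
        have e1 : (univ.image s).card = n := by
          rw [card_image_of_injective _ hs, card_univ, Fintype.card_fin]
        rw [← hi, card_insert_of_notMem hwτ] at e1
        exact e1
      have hws : P w s := by rw [← mem_image', ← hi]; simp
      have hPiff : ∀ x, x ≠ w → (P x s ↔ x ∈ τ) := by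
        intro x hx
        rw [← mem_image', ← hi, mem_insert]
        tauto
      unfold op
      rw [if_pos hws]
      by_cases hus : u ∈ τ <;> by_cases hvs : v ∈ τ
      · exact absurd ⟨hus, hvs⟩ q2
      · rw [if_pos ((hPiff u huw).2 hus), if_neg (fun h => hvs ((hPiff v hvw).1 h))]
        exact hnz u v s τ huw hs hi.symm hus hvs hvw q3
      · rw [if_neg (fun h => hus ((hPiff u huw).1 h)), if_pos ((hPiff v hvw).2 hvs)]
        refine hnz v u s τ hvw hs hi.symm hvs hus huw ?_
        rw [Finset.insert_comm]
        exact q3
      · exfalso
        have e1 := hd _ q3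
        rw [card_insert_of_notMem (by rw [mem_insert]; tauto), card_insert_of_notMem hvs] at e1
        omega
  · intro s i
    rw [verts_subdiv hf huv he, sum_insert hw]
    have hxw : ∀ x ∈ verts L, x ≠ w := fun x hx h => hw (h ▸ hx)
    -- symmetric sub-cases
    by_cases hQw : Q i w s
    · -- w occurs elsewhere
      have hPw : ∀ x, P w (Function.update s i x) := fun x => (P_update i w x s).2 (Or.inl hQw)
      obtain ⟨j, hji, hj⟩ := hQw
      have hrep0 : ∀ b : ℕ, b ≠ w → o (Function.update (rep w b s) i b) = 0 := by
        intro b _
        refine alt0 h1 _ i j hji.symm ?_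
        rw [Function.update_self, Function.update_of_ne hji]
        simp [rep, hj]
      by_cases hQu : Q i u s <;> by_cases hQv : Q i v s
      · have e : ∀ x, op u v w o (Function.update s i x) = 0 := by
          intro x
          unfold op
          rw [if_pos (hPw x), if_pos ((P_update i u x s).2 (Or.inl hQu)),
            if_pos ((P_update i v x s).2 (Or.inl hQv))]
        rw [e w, sum_congr rfl (fun x _ => e x), sum_const_zero, add_zero]
      · have e0 : op u v w o (Function.update s i w) = 0 := by
          unfold op
          rw [if_pos (hPw w), if_pos ((P_update i u w s).2 (Or.inl hQu)),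
            if_neg (fun h => by
              rcases (P_update i v w s).1 h with h | h
              · exact hQv h
              · exact hvw h.symm)]
          refine alt0 h1 _ i j hji.symm ?_
          simp [rep, Function.update_of_ne hji, hj]
        have e : ∀ x ∈ verts L, op u v w o (Function.update s i x) =
            o (Function.update (rep w v s) i x) := by
          intro x hx
          unfold op
          rw [if_pos (hPw x), if_pos ((P_update i u x s).2 (Or.inl hQu))]
          by_cases hxv : x = v
          · rw [if_pos ((P_update i v x s).2 (Or.inr hxv)), hxv, hrep0 v hvw]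
          · rw [if_neg (fun h => by
              rcases (P_update i v x s).1 h with h | h
              · exact hQv h
              · exact hxv h), rep_update_ne i w v x s (hxw x hx)]
        rw [e0, sum_congr rfl e, h4, add_zero]
      · have e0 : op u v w o (Function.update s i w) = 0 := by
          unfold op
          rw [if_pos (hPw w), if_neg (fun h => by
              rcases (P_update i u w s).1 h with h | h
              · exact hQu h
              · exact huw h.symm), if_pos ((P_update i v w s).2 (Or.inl hQv))]
          refine alt0 h1 _ i j hji.symm ?_
          simp [rep, Function.update_of_ne hji, hj]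
        have e : ∀ x ∈ verts L, op u v w o (Function.update s i x) =
            o (Function.update (rep w u s) i x) := by
          intro x hx
          unfold op
          rw [if_pos (hPw x)]
          by_cases hxu : x = u
          · rw [if_pos ((P_update i u x s).2 (Or.inr hxu)),
              if_pos ((P_update i v x s).2 (Or.inl hQv)), hxu, hrep0 u huw]
          · rw [if_neg (fun h => by
              rcases (P_update i u x s).1 h with h | h
              · exact hQu h
              · exact hxu h), if_pos ((P_update i v x s).2 (Or.inl hQv)),
              rep_update_ne i w u x s (hxw x hx)]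
        rw [e0, sum_congr rfl e, h4, add_zero]
      · have e0 : op u v w o (Function.update s i w) = 0 := by
          unfold op
          rw [if_pos (hPw w), if_neg (fun h => by
              rcases (P_update i u w s).1 h with h | h
              · exact hQu h
              · exact huw h.symm), if_neg (fun h => by
              rcases (P_update i v w s).1 h with h | h
              · exact hQv h
              · exact hvw h.symm)]
        have e : ∀ x ∈ verts L, op u v w o (Function.update s i x) =
            (if x = u then o (rep w v (Function.update s i u)) else 0) +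
            (if x = v then o (rep w u (Function.update s i v)) else 0) := by
          intro x hx
          unfold op
          rw [if_pos (hPw x)]
          by_cases hxu : x = u
          · have hxv : x ≠ v := fun h => huv (hxu.symm.trans h)
            rw [if_pos ((P_update i u x s).2 (Or.inr hxu)), if_neg (fun h => by
              rcases (P_update i v x s).1 h with h | h
              · exact hQv h
              · exact hxv h), if_pos hxu, if_neg hxv, hxu, add_zero]
          · rw [if_neg (fun h => by
              rcases (P_update i u x s).1 h with h | h
              · exact hQu h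
              · exact hxu h), if_neg hxu, zero_add]
            by_cases hxv : x = v
            · rw [if_pos ((P_update i v x s).2 (Or.inr hxv)), if_pos hxv, hxv]
            · rw [if_neg (fun h => by
              rcases (P_update i v x s).1 h with h | h
              · exact hQv h
              · exact hxv h), if_neg hxv]
        rw [e0, sum_congr rfl e, sum_add_distrib, sum_ite_eq', if_pos hu, sum_ite_eq', if_pos hv,
          zero_add]
        by_cases hmore : ∃ k, k ≠ i ∧ k ≠ j ∧ s k = w
        · obtain ⟨k, hki, hkj, hk⟩ := hmore
          have a1 : o (rep w v (Function.update s i u)) = 0 := by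
            refine alt0 h1 _ k j hkj ?_
            simp [rep, Function.update_of_ne hji, Function.update_of_ne hki, hj, hk]
          have a2 : o (rep w u (Function.update s i v)) = 0 := by
            refine alt0 h1 _ k j hkj ?_
            simp [rep, Function.update_of_ne hji, Function.update_of_ne hki, hj, hk]
          rw [a1, a2, add_zero]
        · have e5 : rep w u (Function.update s i v) =
              rep w v (Function.update s i u) ∘ Equiv.swap i j := by
            funext k
            simp only [Function.comp_apply]
            rcases eq_or_ne k i with rfl | hki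
            · rw [Equiv.swap_apply_left]
              simp [rep, Function.update_of_ne hji, hj, hvw]
            · rcases eq_or_ne k j with rfl | hkj
              · rw [Equiv.swap_apply_right]
                simp [rep, Function.update_of_ne hji, hj, huw]
              · rw [Equiv.swap_apply_of_ne_of_ne hki hkj]
                have : s k ≠ w := fun h => hmore ⟨k, hki, hkj, h⟩
                simp [rep, Function.update_of_ne hki, this]
          rw [e5, h1 _ i j hji.symm]
          ring
    · -- w does not occur elsewhere
      have hPw : P w (Function.update s i w) := (P_update i w w s).2 (Or.inr rfl)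
      have hnPw : ∀ x ∈ verts L, ¬ P w (Function.update s i x) := by
        intro x hx h
        rcases (P_update i w x s).1 h with h | h
        · exact hQw h
        · exact hxw x hx h
      by_cases hQu : Q i u s <;> by_cases hQv : Q i v s
      · have e0 : op u v w o (Function.update s i w) = 0 := by
          unfold op
          rw [if_pos hPw, if_pos ((P_update i u w s).2 (Or.inl hQu)),
            if_pos ((P_update i v w s).2 (Or.inl hQv))]
        have e : ∀ x ∈ verts L, op u v w o (Function.update s i x) = 0 := by
          intro x hx
          unfold op
          rw [if_neg (hnPw x hx), if_pos ⟨(P_update i u x s).2 (Or.inl hQu),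
            (P_update i v x s).2 (Or.inl hQv)⟩]
        rw [e0, sum_congr rfl e, sum_const_zero, add_zero]
      · have e0 : op u v w o (Function.update s i w) = o (Function.update s i v) := by
          unfold op
          rw [if_pos hPw, if_pos ((P_update i u w s).2 (Or.inl hQu)), if_neg (fun h => by
              rcases (P_update i v w s).1 h with h | h
              · exact hQv h
              · exact hvw h.symm), rep_update_self i w v s hQw]
        have e : ∀ x ∈ verts L, op u v w o (Function.update s i x) =
            o (Function.update s i x) - (if x = v then o (Function.update s i v) else 0) := by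
          intro x hx
          unfold op
          rw [if_neg (hnPw x hx)]
          by_cases hxv : x = v
          · rw [if_pos ⟨(P_update i u x s).2 (Or.inl hQu), (P_update i v x s).2 (Or.inr hxv)⟩,
              if_pos hxv, hxv, sub_self]
          · rw [if_neg (fun h => by
              rcases (P_update i v x s).1 h.2 with h | h
              · exact hQv h
              · exact hxv h), if_neg hxv, sub_zero]
        rw [e0, sum_congr rfl e, sum_sub_distrib, h4, sum_ite_eq', if_pos hv]
        ring
      · have e0 : op u v w o (Function.update s i w) = o (Function.update s i u) := by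
          unfold op
          rw [if_pos hPw, if_neg (fun h => by
              rcases (P_update i u w s).1 h with h | h
              · exact hQu h
              · exact huw h.symm), if_pos ((P_update i v w s).2 (Or.inl hQv)),
              rep_update_self i w u s hQw]
        have e : ∀ x ∈ verts L, op u v w o (Function.update s i x) =
            o (Function.update s i x) - (if x = u then o (Function.update s i u) else 0) := by
          intro x hx
          unfold op
          rw [if_neg (hnPw x hx)]
          by_cases hxu : x = u
          · rw [if_pos ⟨(P_update i u x s).2 (Or.inr hxu), (P_update i v x s).2 (Or.inl hQv)⟩,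
              if_pos hxu, hxu, sub_self]
          · rw [if_neg (fun h => by
              rcases (P_update i u x s).1 h.1 with h | h
              · exact hQu h
              · exact hxu h), if_neg hxu, sub_zero]
        rw [e0, sum_congr rfl e, sum_sub_distrib, h4, sum_ite_eq', if_pos hu]
        ring
      · have e0 : op u v w o (Function.update s i w) = 0 := by
          unfold op
          rw [if_pos hPw, if_neg (fun h => by
              rcases (P_update i u w s).1 h with h | h
              · exact hQu h
              · exact huw h.symm), if_neg (fun h => by
              rcases (P_update i v w s).1 h with h | h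
              · exact hQv h
              · exact hvw h.symm)]
        have e : ∀ x ∈ verts L, op u v w o (Function.update s i x) =
            o (Function.update s i x) := by
          intro x hx
          unfold op
          rw [if_neg (hnPw x hx), if_neg (fun h => by
            rcases (P_update i u x s).1 h.1 with h5 | h5
            · exact hQu h5
            · rcases (P_update i v x s).1 h.2 with h6 | h6
              · exact hQv h6
              · exact huv (h5.symm.trans h6))]
        rw [e0, sum_congr rfl e, h4, add_zero]

end MP8a95ee
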