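import Pool.Agent.Work.MP_8a95ee_gt.Setup

/-!
Weights `(-1/2)^|s|`: subdivision, links of new vertices, cross-polytopes.
-/

namespace MP8a95ee

namespace A4

lemma down {L : Finset (Finset ℕ)} (hf : FlagC L) {σ τ : Finset ℕ} (h : σ ⊆ τ) (hτ : τ ∈ L) :
    σ ∈ L :=
  (hf σ).mpr fun x hx y hy => (hf τ).mp hτ x (h hx) y (h hy)

lemma not_mem {L : Finset (Finset ℕ)} {w : ℕ} (hw : w ∉ verts L) {σ : Finset ℕ} (hσ : σ ∈ L) :
    w ∉ σ := fun h => hw (by
  unfold verts
  exact Finset.mem_biUnion.mpr ⟨σ, hσ, h⟩)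

/-- faces containing `a` against faces containing neither `a` nor `b` -/
lemma kap_insert {K : Finset (Finset ℕ)} {a b : ℕ} (hab : a ≠ b)
    (h0 : ∀ σ ∈ K, ¬ (a ∈ σ ∧ b ∈ σ))
    (ha : ∀ ρ : Finset ℕ, a ∉ ρ → b ∉ ρ → (ρ ∈ K ↔ insert a ρ ∈ K)) :
    ∑ σ ∈ K.filter (fun σ => a ∈ σ), (-1 / 2 : ℚ) ^ σ.card =
      (-1 / 2) * ∑ σ ∈ K.filter (fun σ => a ∉ σ ∧ b ∉ σ), (-1 / 2 : ℚ) ^ σ.card := by
  rw [Finset.mul_sum]
  symm
  refine Finset.sum_bij' (fun σ _ => insert a σ) (fun σ _ => σ.erase a) ?_ ?_ ?_ ?_ ?_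
  · intro σ hσ
    rw [Finset.mem_filter] at hσ ⊢
    exact ⟨(ha σ hσ.2.1 hσ.2.2).mp hσ.1, Finset.mem_insert_self _ _⟩
  · intro σ hσ
    rw [Finset.mem_filter] at hσ ⊢
    have hb : b ∉ σ := fun hb => h0 σ hσ.1 ⟨hσ.2, hb⟩
    have h1 : a ∉ σ.erase a := Finset.notMem_erase a σ
    have h2 : b ∉ σ.erase a := fun h => hb (Finset.mem_of_mem_erase h)
    refine ⟨(ha _ h1 h2).mpr ?_, h1, h2⟩
    rw [Finset.insert_erase hσ.2]
    exact hσ.1
  · intro σ hσ
    rw [Finset.mem_filter] at hσ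
    exact Finset.erase_insert hσ.2.1
  · intro σ hσ
    rw [Finset.mem_filter] at hσ
    exact Finset.insert_erase hσ.2
  · intro σ hσ
    rw [Finset.mem_filter] at hσ
    rw [Finset.card_insert_of_notMem hσ.2.1, pow_succ]
    ring

lemma kap_zero {K : Finset (Finset ℕ)} {a b : ℕ} (hab : a ≠ b)
    (h0 : ∀ σ ∈ K, ¬ (a ∈ σ ∧ b ∈ σ))
    (ha : ∀ ρ : Finset ℕ, a ∉ ρ → b ∉ ρ → (ρ ∈ K ↔ insert a ρ ∈ K))
    (hb : ∀ ρ : Finset ℕ, a ∉ ρ → b ∉ ρ → (ρ ∈ K ↔ insert b ρ ∈ K)) : kap K = 0 := by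
  unfold kap
  rw [← Finset.sum_filter_add_sum_filter_not K (fun σ => a ∈ σ)]
  have h1 := kap_insert hab h0 ha
  have h2 := kap_insert hab.symm (fun σ hσ h => h0 σ hσ ⟨h.2, h.1⟩)
    (fun ρ h h' => hb ρ h' h)
  rw [← Finset.sum_filter_add_sum_filter_not (K.filter fun σ => ¬ a ∈ σ) (fun σ => b ∈ σ)]
  have h3 : (K.filter fun σ => ¬ a ∈ σ).filter (fun σ => b ∈ σ) = K.filter (fun σ => b ∈ σ) := by
    ext σ
    simp only [Finset.mem_filter]
    constructor
    · rintro ⟨⟨h, _⟩, h'⟩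
      exact ⟨h, h'⟩
    · rintro ⟨h, h'⟩
      exact ⟨⟨h, fun hh => h0 σ h ⟨hh, h'⟩⟩, h'⟩
  have h4 : (K.filter fun σ => ¬ a ∈ σ).filter (fun σ => ¬ b ∈ σ) =
      K.filter (fun σ => a ∉ σ ∧ b ∉ σ) := by
    ext σ
    simp only [Finset.mem_filter]
    tauto
  have h5 : K.filter (fun σ => b ∉ σ ∧ a ∉ σ) = K.filter (fun σ => a ∉ σ ∧ b ∉ σ) := by
    ext σ
    simp only [Finset.mem_filter]
    tauto
  rw [h3, h4, h1, h2, h5]
  ring

/-- the faces `τ` used in the subdivision -/
def T (K : Finset (Finset ℕ)) (u v : ℕ) : Finset (Finset ℕ) :=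
  K.filter fun τ => ¬ (u ∈ τ ∧ v ∈ τ) ∧ insert u (insert v τ) ∈ K

lemma kap_T {K : Finset (Finset ℕ)} {u v : ℕ} (hf : FlagC K) (huv : u ≠ v) :
    kap (T K u v) = 0 := by
  refine kap_zero huv ?_ ?_ ?_
  · intro σ hσ
    rw [T, Finset.mem_filter] at hσ
    exact hσ.2.1
  · intro ρ hu hv
    simp only [T, Finset.mem_filter]
    have e : insert u (insert v (insert u ρ)) = insert u (insert v ρ) := by
      rw [Finset.insert_comm v u, Finset.insert_idem]
    rw [e]
    constructor
    · rintro ⟨_, _, h⟩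
      refine ⟨down hf ?_ h, ?_, h⟩
      · exact Finset.insert_subset_insert _ (Finset.subset_insert _ _)
      · rintro ⟨_, h2⟩
        rcases Finset.mem_insert.mp h2 with h3 | h3
        · exact huv h3.symm
        · exact hv h3
    · rintro ⟨h1, _, h⟩
      exact ⟨down hf (Finset.subset_insert _ _) h1, fun h2 => hu h2.1, h⟩
  · intro ρ hu hv
    simp only [T, Finset.mem_filter]
    have e : insert u (insert v (insert v ρ)) = insert u (insert v ρ) := by
      rw [Finset.insert_idem]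
    rw [e]
    constructor
    · rintro ⟨_, _, h⟩
      refine ⟨down hf ?_ h, ?_, h⟩
      · exact Finset.subset_insert _ _
      · rintro ⟨h2, _⟩
        rcases Finset.mem_insert.mp h2 with h3 | h3
        · exact huv h3
        · exact hu h3
    · rintro ⟨h1, _, h⟩
      exact ⟨down hf (Finset.subset_insert _ _) h1, fun h2 => hu h2.1, h⟩

lemma kap_edge {K : Finset (Finset ℕ)} {u v : ℕ} (hf : FlagC K) (huv : u ≠ v) :
    ∑ σ ∈ K.filter (fun σ => u ∈ σ ∧ v ∈ σ), (-1 / 2 : ℚ) ^ σ.card = kap (lk K {u, v}) / 4 := by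
  unfold kap
  rw [Finset.sum_div]
  symm
  refine Finset.sum_bij' (fun σ _ => σ ∪ {u, v}) (fun σ _ => σ \ {u, v}) ?_ ?_ ?_ ?_ ?_
  · intro σ hσ
    rw [lk, Finset.mem_filter] at hσ
    rw [Finset.mem_filter]
    exact ⟨hσ.2.2, by simp, by simp⟩
  · intro σ hσ
    rw [Finset.mem_filter] at hσ
    rw [lk, Finset.mem_filter]
    refine ⟨down hf Finset.sdiff_subset hσ.1, Finset.sdiff_disjoint, ?_⟩
    rw [Finset.sdiff_union_of_subset]
    · exact hσ.1
    · intro x hx
      simp only [Finset.mem_insert, Finset.mem_singleton] at hx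
      rcases hx with rfl | rfl
      · exact hσ.2.1
      · exact hσ.2.2
  · intro σ hσ
    rw [lk, Finset.mem_filter] at hσ
    exact Finset.union_sdiff_cancel_right hσ.2.1
  · intro σ hσ
    rw [Finset.mem_filter] at hσ
    refine Finset.sdiff_union_of_subset ?_
    intro x hx
    simp only [Finset.mem_insert, Finset.mem_singleton] at hx
    rcases hx with rfl | rfl
    · exact hσ.2.1
    · exact hσ.2.2
  · intro σ hσ
    rw [lk, Finset.mem_filter] at hσ
    rw [Finset.card_union_of_disjoint hσ.2.1, Finset.card_pair huv, pow_add]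
    ring

end A4

open A4

theorem kap_subdiv {K : Finset (Finset ℕ)} {u v w : ℕ} (hf : FlagC K) (huv : u ≠ v)
    (he : ({u, v} : Finset ℕ) ∈ K) (hw : w ∉ verts K) :
    kap (subdiv K u v w) = kap K - kap (lk K {u, v}) / 4 := by
  have hdis : Disjoint (K.filter fun σ => ¬ (u ∈ σ ∧ v ∈ σ)) ((T K u v).image (insert w)) := by
    rw [Finset.disjoint_left]
    intro σ h1 h2
    rw [Finset.mem_filter] at h1
    obtain ⟨τ, _, rfl⟩ := Finset.mem_image.mp h2
    exact not_mem hw h1.1 (Finset.mem_insert_self _ _)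
  have h1 : kap (subdiv K u v w) = ∑ σ ∈ K.filter (fun σ => ¬ (u ∈ σ ∧ v ∈ σ)),
      (-1 / 2 : ℚ) ^ σ.card + ∑ σ ∈ (T K u v).image (insert w), (-1 / 2 : ℚ) ^ σ.card := by
    unfold kap subdiv
    exact Finset.sum_union hdis
  have h2 : ∑ σ ∈ (T K u v).image (insert w), (-1 / 2 : ℚ) ^ σ.card = 0 := by
    have hT : ∀ τ ∈ T K u v, w ∉ τ := fun τ hτ => by
      rw [T, Finset.mem_filter] at hτ
      exact not_mem hw hτ.1
    rw [Finset.sum_image]
    · have h3 : ∑ τ ∈ T K u v, (-1 / 2 : ℚ) ^ (insert w τ).card =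
          (-1 / 2) * ∑ τ ∈ T K u v, (-1 / 2 : ℚ) ^ τ.card := by
        rw [Finset.mul_sum]
        refine Finset.sum_congr rfl fun τ hτ => ?_
        rw [Finset.card_insert_of_notMem (hT τ hτ), pow_succ]
        ring
      rw [h3]
      have := kap_T hf huv
      unfold kap at this
      rw [this, mul_zero]
    · intro τ hτ τ' hτ' h
      have := congrArg (fun s => s.erase w) h
      simpa [Finset.erase_insert (hT τ hτ), Finset.erase_insert (hT τ' hτ')] using this
  have h3 := Finset.sum_filter_add_sum_filter_not K (fun σ => u ∈ σ ∧ v ∈ σ)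
    (fun σ => (-1 / 2 : ℚ) ^ σ.card)
  rw [kap_edge hf huv] at h3
  rw [h1, h2, add_zero]
  unfold kap at h3 ⊢
  linarith

theorem kap_lk_new {L : Finset (Finset ℕ)} {u v w : ℕ} (hf : FlagC L) (huv : u ≠ v)
    (he : ({u, v} : Finset ℕ) ∈ L) (hw : w ∉ verts L) {τ : Finset ℕ} (hu : u ∉ τ) (hv : v ∉ τ)
    (hn : insert u (insert v τ) ∈ L) :
    kap (lk (subdiv L u v w) (insert w τ)) = 0 := by
  have hτ : τ ∈ L := down hf ((Finset.subset_insert _ _).trans (Finset.subset_insert _ _)) hn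
  have hwτ : w ∉ τ := not_mem hw hτ
  have hwu : u ≠ w := fun h => not_mem hw hn (by rw [← h]; exact Finset.mem_insert_self _ _)
  have hwv : v ≠ w := fun h => not_mem hw hn (by rw [← h]; simp)
  have key : ∀ ρ : Finset ℕ, ρ ∈ lk (subdiv L u v w) (insert w τ) ↔
      w ∉ ρ ∧ Disjoint ρ τ ∧ ¬ (u ∈ ρ ∧ v ∈ ρ) ∧ insert u (insert v (ρ ∪ τ)) ∈ L := by
    intro ρ
    rw [lk, Finset.mem_filter]
    constructor
    · rintro ⟨_, h2, h3⟩
      rw [Finset.disjoint_insert_right] at h2
      obtain ⟨hwρ, hρτ⟩ := h2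
      rw [subdiv, Finset.mem_union, Finset.mem_filter, Finset.mem_image] at h3
      rcases h3 with ⟨h4, _⟩ | ⟨σ, h4, h5⟩
      · exact absurd (by simp) (not_mem hw h4)
      · rw [Finset.mem_filter] at h4
        have hwσ : w ∉ σ := not_mem hw h4.1
        have h6 : σ = ρ ∪ τ := by
          have h7 := congrArg (fun s => s.erase w) h5
          simp only [Finset.erase_insert hwσ] at h7
          rw [h7, Finset.union_insert, Finset.erase_insert]
          simp [hwρ, hwτ]
        rw [h6] at h4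
        refine ⟨hwρ, hρτ, fun h7 => h4.2.1 ⟨?_, ?_⟩, h4.2.2⟩
        · exact Finset.mem_union_left _ h7.1
        · exact Finset.mem_union_left _ h7.2
    · rintro ⟨hwρ, hρτ, h1, h2⟩
      have h3 : ρ ∪ τ ∈ L :=
        down hf ((Finset.subset_insert _ _).trans (Finset.subset_insert _ _)) h2
      have h4 : ρ ∈ L := down hf Finset.subset_union_left h3
      refine ⟨?_, ?_, ?_⟩
      · rw [subdiv, Finset.mem_union, Finset.mem_filter]
        exact Or.inl ⟨h4, h1⟩
      · rw [Finset.disjoint_insert_right]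
        exact ⟨hwρ, hρτ⟩
      · rw [subdiv, Finset.mem_union, Finset.mem_image]
        refine Or.inr ⟨ρ ∪ τ, ?_, ?_⟩
        · rw [Finset.mem_filter]
          refine ⟨h3, fun h5 => h1 ⟨?_, ?_⟩, h2⟩
          · exact (Finset.mem_union.mp h5.1).resolve_right hu
          · exact (Finset.mem_union.mp h5.2).resolve_right hv
        · rw [Finset.union_insert]
  refine kap_zero huv ?_ ?_ ?_
  · intro σ hσ
    exact ((key σ).mp hσ).2.2.1
  · intro ρ hρu hρv
    rw [key, key]
    have e : insert u (insert v (insert u ρ ∪ τ)) = insert u (insert v (ρ ∪ τ)) := by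
      rw [Finset.insert_union, Finset.insert_comm v u, Finset.insert_idem]
    rw [e, Finset.disjoint_insert_left, Finset.mem_insert]
    constructor
    · rintro ⟨h1, h2, _, h4⟩
      refine ⟨?_, ⟨hu, h2⟩, ?_, h4⟩
      · rintro (h | h)
        · exact hwu h.symm
        · exact h1 h
      · rintro ⟨_, h⟩
        rcases Finset.mem_insert.mp h with h | h
        · exact huv h.symm
        · exact hρv h
    · rintro ⟨h1, h2, _, h4⟩
      exact ⟨fun h => h1 (Or.inr h), h2.2, fun h => hρu h.1, h4⟩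
  · intro ρ hρu hρv
    rw [key, key]
    have e : insert u (insert v (insert v ρ ∪ τ)) = insert u (insert v (ρ ∪ τ)) := by
      rw [Finset.insert_union, Finset.insert_idem]
    rw [e, Finset.disjoint_insert_left, Finset.mem_insert]
    constructor
    · rintro ⟨h1, h2, _, h4⟩
      refine ⟨?_, ⟨hv, h2⟩, ?_, h4⟩
      · rintro (h | h)
        · exact hwv h.symm
        · exact h1 h
      · rintro ⟨h, _⟩
        rcases Finset.mem_insert.mp h with h | h
        · exact huv h
        · exact hρu h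
    · rintro ⟨h1, h2, _, h4⟩
      exact ⟨fun h => h1 (Or.inr h), h2.2, fun h => hρu h.1, h4⟩

namespace A4

lemma cross_mem {n : ℕ} {σ : Finset ℕ} : σ ∈ cross n ↔
    (∀ x ∈ σ, x < 2 * n) ∧ ∀ i < n, ¬ (2 * i ∈ σ ∧ 2 * i + 1 ∈ σ) := by
  simp only [cross, Finset.mem_filter, Finset.mem_powerset, Finset.mem_range]
  constructor
  · rintro ⟨h1, h2⟩
    exact ⟨fun x hx => Finset.mem_range.mp (h1 hx), h2⟩
  · rintro ⟨h1, h2⟩
    exact ⟨fun x hx => Finset.mem_range.mpr (h1 x hx), h2⟩

lemma cross_inj {n : ℕ} {σ : Finset ℕ} (hσ : σ ∈ cross n) :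
    Set.InjOn (fun x : ℕ => x / 2) (σ : Set ℕ) := by
  rw [cross_mem] at hσ
  intro x hx y hy h
  by_contra hne
  have hx' : x ∈ σ := hx
  have hy' : y ∈ σ := hy
  have hxn := hσ.1 x hx'
  have hyn := hσ.1 y hy'
  have h' : x / 2 = y / 2 := h
  have key := hσ.2 (x / 2) (by omega)
  rcases Nat.lt_or_ge x y with hlt | hge
  · have e1 : x = 2 * (x / 2) := by omega
    have e2 : y = 2 * (x / 2) + 1 := by omega
    exact key ⟨e1 ▸ hx', e2 ▸ hy'⟩
  · have e1 : y = 2 * (x / 2) := by omega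
    have e2 : x = 2 * (x / 2) + 1 := by omega
    exact key ⟨e1 ▸ hy', e2 ▸ hx'⟩

lemma cross_card {n : ℕ} {σ : Finset ℕ} (hσ : σ ∈ cross n) : σ.card ≤ n := by
  rw [← Finset.card_image_of_injOn (cross_inj hσ)]
  have : σ.image (fun x : ℕ => x / 2) ⊆ Finset.range n := by
    intro y hy
    obtain ⟨x, hx, rfl⟩ := Finset.mem_image.mp hy
    have := (cross_mem.mp hσ).1 x hx
    rw [Finset.mem_range]
    omega
  simpa using Finset.card_le_card this

end A4

theorem propP_cross (n : ℕ) : PropP n (cross n) := by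
  intro τ hτ j hj hk
  have hcard := cross_card hτ
  have hτ' := cross_mem.mp hτ
  by_cases hlt : τ.card < n
  · exfalso
    obtain ⟨i, hi, hi'⟩ : ∃ i ∈ Finset.range n, i ∉ τ.image (fun x : ℕ => x / 2) := by
      apply Finset.exists_mem_notMem_of_card_lt_card
      calc (τ.image (fun x : ℕ => x / 2)).card ≤ τ.card := Finset.card_image_le
        _ < n := hlt
        _ = (Finset.range n).card := (Finset.card_range n).symm
    rw [Finset.mem_range] at hi
    have ha : 2 * i ∉ τ := fun h => hi' (Finset.mem_image.mpr ⟨2 * i, h, by omega⟩)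
    have hb : 2 * i + 1 ∉ τ := fun h => hi' (Finset.mem_image.mpr ⟨2 * i + 1, h, by omega⟩)
    have hd : ∀ {σ σ' : Finset ℕ}, σ ⊆ σ' → σ' ∈ cross n → σ ∈ cross n := by
      intro σ σ' hs h
      rw [cross_mem] at h ⊢
      exact ⟨fun x hx => h.1 x (hs hx), fun i hi h2 => h.2 i hi ⟨hs h2.1, hs h2.2⟩⟩
    have key : ∀ ρ : Finset ℕ, ρ ∈ lk (cross n) τ ↔ Disjoint ρ τ ∧ ρ ∪ τ ∈ cross n := by
      intro ρ
      rw [lk, Finset.mem_filter]
      exact ⟨fun h => h.2, fun h => ⟨hd Finset.subset_union_left h.2, h⟩⟩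
    have hins : ∀ (a b : ℕ) (ρ : Finset ℕ), ((a = 2 * i ∧ b = 2 * i + 1) ∨
        (b = 2 * i ∧ a = 2 * i + 1)) → a ∉ ρ → b ∉ ρ →
        (ρ ∈ lk (cross n) τ ↔ insert a ρ ∈ lk (cross n) τ) := by
      intro a b ρ hab h1 h2
      have haτ : a ∉ τ := by rcases hab with h | h <;> rw [h.1] at * <;> (try rw [h.2] at *) <;> assumption
      have hbτ : b ∉ τ := by rcases hab with h | h <;> rw [h.1] at * <;> (try rw [h.2] at *) <;> assumption
      rw [key, key, Finset.disjoint_insert_left, Finset.insert_union]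
      constructor
      · rintro ⟨h3, h4⟩
        refine ⟨⟨haτ, h3⟩, ?_⟩
        rw [cross_mem] at h4 ⊢
        refine ⟨?_, ?_⟩
        · intro x hx
          rcases Finset.mem_insert.mp hx with h | h
          · rcases hab with h5 | h5 <;> omega
          · exact h4.1 x h
        · intro i' hi' hh
          have hbn : b ∉ ρ ∪ τ := by
            rw [Finset.mem_union]
            rintro (h | h)
            · exact h2 h
            · exact hbτ h
          rcases Finset.mem_insert.mp hh.1 with h5 | h5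
          · rcases Finset.mem_insert.mp hh.2 with h6 | h6
            · omega
            · have : 2 * i' + 1 = b := by rcases hab with h | h <;> omega
              rw [this] at h6
              exact hbn h6
          · rcases Finset.mem_insert.mp hh.2 with h6 | h6
            · have : 2 * i' = b := by rcases hab with h | h <;> omega
              rw [this] at h5
              exact hbn h5
            · exact h4.2 i' hi' ⟨h5, h6⟩
      · rintro ⟨h3, h4⟩
        exact ⟨h3.2, hd (Finset.subset_insert _ _) h4⟩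
    apply hk
    refine kap_zero (a := 2 * i) (b := 2 * i + 1) (by omega) ?_ ?_ ?_
    · intro σ hσ h
      have := (key σ).mp hσ
      exact (cross_mem.mp this.2).2 i hi ⟨Finset.mem_union_left _ h.1, Finset.mem_union_left _ h.2⟩
    · intro ρ h1 h2
      exact hins _ _ ρ (Or.inl ⟨rfl, rfl⟩) h1 h2
    · intro ρ h1 h2
      exact hins _ _ ρ (Or.inr ⟨rfl, rfl⟩) h2 h1
  · have hj0 : j = 0 := by omega
    subst hj0
    have hlk : lk (cross n) τ = {∅} := by
      ext ρ
      rw [lk, Finset.mem_filter, Finset.mem_singleton]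
      constructor
      · rintro ⟨_, h2, h3⟩
        have h4 := cross_card h3
        rw [Finset.card_union_of_disjoint h2] at h4
        exact Finset.card_eq_zero.mp (by omega)
      · rintro rfl
        refine ⟨?_, Finset.disjoint_empty_left _, by rwa [Finset.empty_union]⟩
        rw [cross_mem]
        simp
    rw [hlk]
    refine ⟨fun _ => (0, 0), ?_, ?_, ?_⟩
    · intro i hi
      simp [verts] at hi
    · intro x y hxy
      rw [Finset.mem_singleton] at hxy
      exact absurd hxy (Finset.insert_ne_empty _ _)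
    · refine ⟨∅, ?_, ?_⟩
      · simp [Fset]
      · rintro σ ⟨h1, _⟩
        exact Finset.mem_singleton.mp h1

end MP8a95ee
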