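import Pool.Agent.Work.MP_8a95ee_gt.Setup

/-!
Item A5: the labelling is inherited by an edge subdivision, with the new vertex labelled as `u`.
-/

namespace MP8a95ee

namespace A5

theorem down {K : Finset (Finset ℕ)} (hf : FlagC K) {σ τ : Finset ℕ} (hσ : σ ∈ K) (h : τ ⊆ σ) :
    τ ∈ K := by
  rw [hf τ]
  intro x hx y hy
  exact (hf σ).1 hσ x (h hx) y (h hy)

theorem notMem_face {K : Finset (Finset ℕ)} {w : ℕ} (hw : w ∉ verts K) {σ : Finset ℕ}
    (hσ : σ ∈ K) : w ∉ σ := by
  intro h
  apply hw
  unfold verts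
  rw [Finset.mem_biUnion]
  exact ⟨σ, hσ, h⟩

theorem mem_verts {K : Finset (Finset ℕ)} {x : ℕ} {σ : Finset ℕ}
    (hσ : σ ∈ K) (hx : x ∈ σ) : x ∈ verts K := by
  unfold verts
  rw [Finset.mem_biUnion]
  exact ⟨σ, hσ, hx⟩

theorem mem_subdiv {K : Finset (Finset ℕ)} {u v w : ℕ} {σ : Finset ℕ} :
    σ ∈ subdiv K u v w ↔ (σ ∈ K ∧ ¬ (u ∈ σ ∧ v ∈ σ)) ∨
      ∃ τ, (τ ∈ K ∧ ¬ (u ∈ τ ∧ v ∈ τ) ∧ insert u (insert v τ) ∈ K) ∧ insert w τ = σ := by
  unfold subdiv
  rw [Finset.mem_union, Finset.mem_filter, Finset.mem_image]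
  simp only [Finset.mem_filter]

theorem mem_subdiv_not {K : Finset (Finset ℕ)} {u v w : ℕ} {σ : Finset ℕ} (hw : w ∉ σ)
    (h : σ ∈ subdiv K u v w) : σ ∈ K ∧ ¬ (u ∈ σ ∧ v ∈ σ) := by
  rcases mem_subdiv.1 h with h | ⟨τ, _, rfl⟩
  · exact h
  · exact absurd (Finset.mem_insert_self w τ) hw

theorem mem_subdiv_mem {K : Finset (Finset ℕ)} {u v w : ℕ} {σ : Finset ℕ} (hwK : w ∉ verts K)
    (hw : w ∈ σ) (h : σ ∈ subdiv K u v w) :
    ∃ τ, w ∉ τ ∧ τ ∈ K ∧ ¬ (u ∈ τ ∧ v ∈ τ) ∧ insert u (insert v τ) ∈ K ∧ σ = insert w τ := by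
  rcases mem_subdiv.1 h with h | ⟨τ, ⟨h1, h2, h3⟩, rfl⟩
  · exact absurd hw (notMem_face hwK h.1)
  · exact ⟨τ, notMem_face hwK h1, h1, h2, h3, rfl⟩

theorem image_update {φ : ℕ → ℕ × ZMod 5} {w : ℕ} (a : ℕ × ZMod 5) {σ : Finset ℕ} (hw : w ∉ σ) :
    σ.image (Function.update φ w a) = σ.image φ := by
  apply Finset.image_congr
  intro x hx
  have : x ≠ w := fun h => hw (h ▸ hx)
  simp [Function.update_of_ne this]

theorem card_Fset (j : ℕ) : (Fset j).card = 2 * j := by
  unfold Fset
  rw [Finset.card_product, Finset.card_range]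
  have : ({0, 1} : Finset (ZMod 5)).card = 2 := by decide
  rw [this, mul_comm]

end A5

open A5 in
theorem good_subdiv_same {K : Finset (Finset ℕ)} {j u v w : ℕ} {φ : ℕ → ℕ × ZMod 5}
    (hf : FlagC K) (hd : ∀ σ ∈ K, σ.card ≤ 2 * j) (huv : u ≠ v) (he : ({u, v} : Finset ℕ) ∈ K)
    (hw : w ∉ verts K) (hG : Good K j φ) :
    Good (subdiv K u v w) j (Function.update φ w (φ u)) := by
  obtain ⟨hG1, hG2, s0, ⟨hs0K, hs0c, hs0i⟩, hs0u⟩ := hG
  have huK : u ∈ verts K := mem_verts he (by simp)
  have hvK : v ∈ verts K := mem_verts he (by simp)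
  have hwu : w ≠ u := fun h => hw (h ▸ huK)
  have hwv : w ≠ v := fun h => hw (h ▸ hvK)
  have hφw : Function.update φ w (φ u) w = φ u := by simp
  have hφx : ∀ x, x ≠ w → Function.update φ w (φ u) x = φ x := fun x hx => by
    simp [Function.update_of_ne hx]
  refine ⟨?_, ?_, ?_⟩
  · intro i hi
    by_cases hiw : i = w
    · subst hiw
      rw [hφw]
      exact hG1 u huK
    · rw [hφx i hiw]
      unfold verts at hi
      rw [Finset.mem_biUnion] at hi
      obtain ⟨σ, hσ, hiσ⟩ := hi
      simp only [id] at hiσ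
      rcases mem_subdiv.1 hσ with h | ⟨τ, ⟨h1, _, _⟩, rfl⟩
      · exact hG1 i (mem_verts h.1 hiσ)
      · rcases Finset.mem_insert.1 hiσ with h | h
        · exact absurd h hiw
        · exact hG1 i (mem_verts h1 h)
  · intro x y hxy hφ
    by_cases hx : x = w
    · by_cases hy : y = w
      · subst hx
        subst hy
        exact Or.inl rfl
      · subst hx
        rw [hφw, hφx y hy] at hφ ⊢
        obtain ⟨τ, hwτ, h1, h2, h3, h4⟩ := mem_subdiv_mem hw (by simp) hxy
        have hyτ : y ∈ τ := by
          have : y ∈ ({x, y} : Finset ℕ) := by simp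
          rw [h4] at this
          rcases Finset.mem_insert.1 this with h | h
          · exact absurd h hy
          · exact h
        have h5 : ({u, y} : Finset ℕ) ∈ K := by
          apply down hf h3
          intro z hz
          simp only [Finset.mem_insert, Finset.mem_singleton] at hz ⊢
          rcases hz with h | h
          · exact Or.inl h
          · exact Or.inr (Or.inr (h ▸ hyτ))
        exact hG2 u y h5 hφ
    · by_cases hy : y = w
      · subst hy
        rw [hφw, hφx x hx] at hφ ⊢
        obtain ⟨τ, hwτ, h1, h2, h3, h4⟩ := mem_subdiv_mem hw (by simp) hxy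
        have hxτ : x ∈ τ := by
          have : x ∈ ({x, y} : Finset ℕ) := by simp
          rw [h4] at this
          rcases Finset.mem_insert.1 this with h | h
          · exact absurd h hx
          · exact h
        have h5 : ({x, u} : Finset ℕ) ∈ K := by
          apply down hf h3
          intro z hz
          simp only [Finset.mem_insert, Finset.mem_singleton] at hz ⊢
          rcases hz with h | h
          · exact Or.inr (Or.inr (h ▸ hxτ))
          · exact Or.inl h
        exact hG2 x u h5 hφ
      · rw [hφx x hx, hφx y hy] at hφ ⊢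
        have hwn : w ∉ ({x, y} : Finset ℕ) := by
          simp only [Finset.mem_insert, Finset.mem_singleton]
          rintro (h | h)
          · exact hx h.symm
          · exact hy h.symm
        exact hG2 x y (mem_subdiv_not hwn hxy).1 hφ
  · -- the key dichotomy for a face with the right image
    have key : ∀ s' : Finset ℕ, s' ∈ subdiv K u v w → s'.card = 2 * j →
        s'.image (Function.update φ w (φ u)) = Fset j →
        (w ∉ s' ∧ s' = s0 ∧ ¬ (u ∈ s0 ∧ v ∈ s0)) ∨
        (s' = insert w (s0.erase u) ∧ u ∈ s0 ∧ v ∈ s0) := by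
      intro s' hs' hc hi
      by_cases hws : w ∈ s'
      · right
        obtain ⟨τ, hwτ, h1, h2, h3, h4⟩ := mem_subdiv_mem hw hws hs'
        subst h4
        have hinj : Set.InjOn (Function.update φ w (φ u)) (insert w τ : Finset ℕ) := by
          rw [← Finset.card_image_iff, hi, hc, card_Fset]
        have huτ : u ∉ τ := by
          intro h
          have := hinj (by simp : w ∈ ((insert w τ : Finset ℕ) : Set ℕ))
            (by simp [h] : u ∈ ((insert w τ : Finset ℕ) : Set ℕ)) (by rw [hφw, hφx u hwu.symm])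
          exact hwu this
        have h5 : insert u τ ∈ K := by
          apply down hf h3
          intro z hz
          simp only [Finset.mem_insert] at hz ⊢
          rcases hz with h | h
          · exact Or.inl h
          · exact Or.inr (Or.inr h)
        have hcτ : (insert u τ).card = 2 * j := by
          rw [Finset.card_insert_of_notMem huτ]
          rw [Finset.card_insert_of_notMem hwτ] at hc
          exact hc
        have h6 : (insert u τ).image φ = Fset j := by
          rw [← hi, Finset.image_insert, Finset.image_insert, hφw, image_update _ hwτ]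
        have h7 : insert u τ = s0 := hs0u _ ⟨h5, hcτ, h6⟩
        have hu0 : u ∈ s0 := h7 ▸ Finset.mem_insert_self u τ
        have hv0 : v ∈ s0 := by
          by_contra hv
          have h8 : insert v s0 ∈ K := by
            rw [← h7, Finset.insert_comm]
            exact h3
          have h9 := hd _ h8
          rw [Finset.card_insert_of_notMem hv, hs0c] at h9
          omega
        refine ⟨?_, hu0, hv0⟩
        rw [← h7, Finset.erase_insert huτ]
      · left
        obtain ⟨h1, h2⟩ := mem_subdiv_not hws hs'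
        rw [image_update _ hws] at hi
        have h3 : s' = s0 := hs0u _ ⟨h1, hc, hi⟩
        subst h3
        exact ⟨hws, rfl, h2⟩
    by_cases hcase : u ∈ s0 ∧ v ∈ s0
    · refine ⟨insert w (s0.erase u), ⟨?_, ?_, ?_⟩, ?_⟩
      · rw [mem_subdiv]
        right
        refine ⟨s0.erase u, ⟨down hf hs0K (Finset.erase_subset _ _), ?_, ?_⟩, rfl⟩
        · rintro ⟨h, _⟩
          exact (Finset.notMem_erase u s0) h
        · have h1 : v ∈ s0.erase u := Finset.mem_erase.2 ⟨huv.symm, hcase.2⟩
          rw [Finset.insert_eq_of_mem h1, Finset.insert_erase hcase.1]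
          exact hs0K
      · have h1 : w ∉ s0.erase u := fun h => notMem_face hw hs0K (Finset.mem_of_mem_erase h)
        rw [Finset.card_insert_of_notMem h1, Finset.card_erase_of_mem hcase.1, hs0c]
        have : 0 < s0.card := Finset.card_pos.2 ⟨u, hcase.1⟩
        omega
      · have h1 : w ∉ s0.erase u := fun h => notMem_face hw hs0K (Finset.mem_of_mem_erase h)
        rw [Finset.image_insert, hφw, image_update _ h1, ← Finset.image_insert,
          Finset.insert_erase hcase.1, hs0i]
      · rintro s' ⟨h1, h2, h3⟩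
        rcases key s' h1 h2 h3 with ⟨_, _, h⟩ | ⟨h, _, _⟩
        · exact absurd hcase h
        · exact h
    · refine ⟨s0, ⟨?_, hs0c, ?_⟩, ?_⟩
      · rw [mem_subdiv]
        exact Or.inl ⟨hs0K, hcase⟩
      · rw [image_update _ (notMem_face hw hs0K), hs0i]
      · rintro s' ⟨h1, h2, h3⟩
        rcases key s' h1 h2 h3 with ⟨_, h, _⟩ | ⟨_, h⟩
        · exact h
        · exact absurd h hcase

end MP8a95ee
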