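import Pool.Agent.Work.MP_8a95ee_gt.Setup

/-!
Item A6: a new block around a subdivided edge.
-/

namespace MP8a95ee

namespace A6

theorem down {K : Finset (Finset ℕ)} (hf : FlagC K) {σ τ : Finset ℕ} (hσ : σ ∈ K) (h : τ ⊆ σ) :
    τ ∈ K :=
  (hf τ).2 fun x hx y hy => (hf σ).1 hσ x (h hx) y (h hy)

theorem pair_comm' (x y : ℕ) : ({x, y} : Finset ℕ) = {y, x} := Finset.pair_comm x y

theorem not_mem_face {K : Finset (Finset ℕ)} {w : ℕ} (hw : w ∉ verts K) {τ : Finset ℕ}
    (hτ : τ ∈ K) : w ∉ τ := by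
  intro h
  exact hw (Finset.mem_biUnion.2 ⟨τ, hτ, h⟩)

theorem mem_verts_lk {K : Finset (Finset ℕ)} {u v : ℕ} (hf : FlagC K)
    (he : ({u, v} : Finset ℕ) ∈ K) (x : ℕ) :
    x ∈ verts (lk K {u, v}) ↔
      x ≠ u ∧ x ≠ v ∧ ({x, u} : Finset ℕ) ∈ K ∧ ({x, v} : Finset ℕ) ∈ K := by
  constructor
  · intro hx
    obtain ⟨ρ, hρ, hxρ⟩ := Finset.mem_biUnion.1 hx
    obtain ⟨hρK, hdis, hun⟩ := Finset.mem_filter.1 hρ
    have hxρ' : x ∈ ρ := hxρ
    refine ⟨?_, ?_, ?_, ?_⟩
    · rintro rfl
      exact Finset.disjoint_left.1 hdis hxρ' (by simp)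
    · rintro rfl
      exact Finset.disjoint_left.1 hdis hxρ' (by simp)
    · exact (hf _).1 hun x (by simp [hxρ']) u (by simp)
    · exact (hf _).1 hun x (by simp [hxρ']) v (by simp)
  · rintro ⟨hxu, hxv, h1, h2⟩
    refine Finset.mem_biUnion.2 ⟨{x}, ?_, by simp⟩
    refine Finset.mem_filter.2 ⟨?_, ?_, ?_⟩
    · exact down hf h1 (by simp)
    · rw [Finset.disjoint_singleton_left]
      simp [hxu, hxv]
    · rw [hf]
      have h0 : ({x} : Finset ℕ) ∈ K := down hf h1 (by simp)
      have hu0 : ({u} : Finset ℕ) ∈ K := down hf he (by simp)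
      have hv0 : ({v} : Finset ℕ) ∈ K := down hf he (by simp)
      have h1' : ({u, x} : Finset ℕ) ∈ K := by rw [Finset.pair_comm]; exact h1
      have h2' : ({v, x} : Finset ℕ) ∈ K := by rw [Finset.pair_comm]; exact h2
      have he' : ({v, u} : Finset ℕ) ∈ K := by rw [Finset.pair_comm]; exact he
      intro a ha b hb
      simp only [Finset.mem_union, Finset.mem_singleton, Finset.mem_insert] at ha hb
      rcases ha with rfl | rfl | rfl <;> rcases hb with rfl | rfl | rfl <;>
        simp_all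

/-- faces of the link -/
theorem mem_lk_of {K : Finset (Finset ℕ)} {u v : ℕ} (hf : FlagC K) {ρ : Finset ℕ}
    (hu : u ∉ ρ) (hv : v ∉ ρ) (h : insert u (insert v ρ) ∈ K) : ρ ∈ lk K {u, v} := by
  refine Finset.mem_filter.2 ⟨down hf h (fun x hx => by simp [hx]), ?_, ?_⟩
  · rw [Finset.disjoint_left]
    intro x hx hx'
    simp only [Finset.mem_insert, Finset.mem_singleton] at hx'
    rcases hx' with rfl | rfl
    · exact hu hx
    · exact hv hx
  · have : ρ ∪ {u, v} = insert u (insert v ρ) := by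
      ext x
      simp only [Finset.mem_union, Finset.mem_insert, Finset.mem_singleton]
      tauto
    rw [this]
    exact h

theorem of_mem_lk {K : Finset (Finset ℕ)} {u v : ℕ} {ρ : Finset ℕ} (h : ρ ∈ lk K {u, v}) :
    u ∉ ρ ∧ v ∉ ρ ∧ insert u (insert v ρ) ∈ K := by
  obtain ⟨_, hdis, hun⟩ := Finset.mem_filter.1 h
  refine ⟨fun hx => Finset.disjoint_left.1 hdis hx (by simp),
    fun hx => Finset.disjoint_left.1 hdis hx (by simp), ?_⟩
  have : ρ ∪ {u, v} = insert u (insert v ρ) := by
    ext x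
    simp only [Finset.mem_union, Finset.mem_insert, Finset.mem_singleton]
    tauto
  rw [← this]
  exact hun

theorem mem_subdiv {K : Finset (Finset ℕ)} {u v w : ℕ} {σ : Finset ℕ} :
    σ ∈ subdiv K u v w ↔ (σ ∈ K ∧ ¬ (u ∈ σ ∧ v ∈ σ)) ∨
      ∃ τ, τ ∈ K ∧ ¬ (u ∈ τ ∧ v ∈ τ) ∧ insert u (insert v τ) ∈ K ∧ insert w τ = σ := by
  unfold subdiv
  rw [Finset.mem_union, Finset.mem_filter, Finset.mem_image]
  constructor
  · rintro (h | ⟨τ, hτ, rfl⟩)
    · exact Or.inl h
    · obtain ⟨h1, h2, h3⟩ := Finset.mem_filter.1 hτ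
      exact Or.inr ⟨τ, h1, h2, h3, rfl⟩
  · rintro (h | ⟨τ, h1, h2, h3, rfl⟩)
    · exact Or.inl h
    · exact Or.inr ⟨τ, Finset.mem_filter.2 ⟨h1, h2, h3⟩, rfl⟩

open Classical in
/-- the new labelling -/
noncomputable def lab (K : Finset (Finset ℕ)) (j u v w : ℕ) (φ : ℕ → ℕ × ZMod 5) (x : ℕ) :
    ℕ × ZMod 5 :=
  if x ∈ verts (lk K {u, v}) then φ x else
  if x = w then (j, 0) else
  if x = v then (j, 1) else
  if x = u then (j, 4) else
  if ({x, v} : Finset ℕ) ∈ K then (j, 2) else (j, 3)

section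

variable {K : Finset (Finset ℕ)} {j u v w : ℕ} {φ : ℕ → ℕ × ZMod 5}

theorem lab_lk {x : ℕ} (hx : x ∈ verts (lk K {u, v})) : lab K j u v w φ x = φ x := by
  unfold lab; rw [if_pos hx]

theorem u_notin (hf : FlagC K) (he : ({u, v} : Finset ℕ) ∈ K) : u ∉ verts (lk K {u, v}) := by
  rw [mem_verts_lk hf he]; simp

theorem v_notin (hf : FlagC K) (he : ({u, v} : Finset ℕ) ∈ K) : v ∉ verts (lk K {u, v}) := by
  rw [mem_verts_lk hf he]; simp

theorem w_notin (hw : w ∉ verts K) : w ∉ verts (lk K {u, v}) := by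
  intro h
  obtain ⟨ρ, hρ, hx⟩ := Finset.mem_biUnion.1 h
  exact not_mem_face hw (Finset.mem_filter.1 hρ).1 hx

theorem lab_w (hw : w ∉ verts K) : lab K j u v w φ w = (j, 0) := by
  unfold lab; rw [if_neg (w_notin hw), if_pos rfl]

theorem u_ne_w (he : ({u, v} : Finset ℕ) ∈ K) (hw : w ∉ verts K) : u ≠ w := by
  rintro rfl
  exact not_mem_face hw he (by simp)

theorem v_ne_w (he : ({u, v} : Finset ℕ) ∈ K) (hw : w ∉ verts K) : v ≠ w := by
  rintro rfl
  exact not_mem_face hw he (by simp)

theorem lab_v (hf : FlagC K) (he : ({u, v} : Finset ℕ) ∈ K) (hw : w ∉ verts K) :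
    lab K j u v w φ v = (j, 1) := by
  unfold lab; rw [if_neg (v_notin hf he), if_neg (v_ne_w he hw), if_pos rfl]

theorem lab_u (hf : FlagC K) (huv : u ≠ v) (he : ({u, v} : Finset ℕ) ∈ K) (hw : w ∉ verts K) :
    lab K j u v w φ u = (j, 4) := by
  unfold lab
  rw [if_neg (u_notin hf he), if_neg (u_ne_w he hw), if_neg huv, if_pos rfl]

theorem lab_block {x : ℕ} (hx : x ∉ verts (lk K {u, v})) : (lab K j u v w φ x).1 = j := by
  unfold lab
  rw [if_neg hx]
  split_ifs <;> rfl

theorem lab_two {x : ℕ} (hx : x ∉ verts (lk K {u, v})) (h1 : x ≠ w) (h2 : x ≠ v) (h3 : x ≠ u)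
    (h4 : ({x, v} : Finset ℕ) ∈ K) : lab K j u v w φ x = (j, 2) := by
  unfold lab
  rw [if_neg hx, if_neg h1, if_neg h2, if_neg h3, if_pos h4]

theorem lab_three {x : ℕ} (hx : x ∉ verts (lk K {u, v})) (h1 : x ≠ w) (h2 : x ≠ v) (h3 : x ≠ u)
    (h4 : ({x, v} : Finset ℕ) ∉ K) : lab K j u v w φ x = (j, 3) := by
  unfold lab
  rw [if_neg hx, if_neg h1, if_neg h2, if_neg h3, if_neg h4]

/-- the closeness relation on labels -/
def Near (a b : ZMod 5) : Prop := a = b ∨ a = b + 1 ∨ b = a + 1

theorem Near.symm' {a b : ZMod 5} (h : Near a b) : Near b a := by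
  rcases h with h | h | h
  · exact Or.inl h.symm
  · exact Or.inr (Or.inr h)
  · exact Or.inr (Or.inl h)

/-- an edge of the subdivision which contains the new vertex -/
theorem edge_w (hf : FlagC K) (he : ({u, v} : Finset ℕ) ∈ K) (hw : w ∉ verts K) {y : ℕ}
    (h : ({w, y} : Finset ℕ) ∈ subdiv K u v w) :
    y = w ∨ y = u ∨ y = v ∨ y ∈ verts (lk K {u, v}) := by
  rcases mem_subdiv.1 h with ⟨h1, _⟩ | ⟨τ, h1, _, h3, h4⟩
  · exact absurd (by simp : w ∈ ({w, y} : Finset ℕ)) (not_mem_face hw h1)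
  · by_cases hyw : y = w
    · exact Or.inl hyw
    · right
      by_cases hyu : y = u
      · exact Or.inl hyu
      right
      by_cases hyv : y = v
      · exact Or.inl hyv
      right
      have hy : y ∈ τ := by
        have : y ∈ insert w τ := by rw [h4]; simp
        rcases Finset.mem_insert.1 this with h | h
        · exact absurd h hyw
        · exact h
      rw [mem_verts_lk hf he]
      exact ⟨hyu, hyv, (hf _).1 h3 y (by simp [hy]) u (by simp),
        (hf _).1 h3 y (by simp [hy]) v (by simp)⟩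

/-- an edge of the subdivision which does not contain the new vertex -/
theorem edge_old {x y : ℕ} (hx : x ≠ w) (hy : y ≠ w)
    (h : ({x, y} : Finset ℕ) ∈ subdiv K u v w) :
    ({x, y} : Finset ℕ) ∈ K ∧ ¬ (u ∈ ({x, y} : Finset ℕ) ∧ v ∈ ({x, y} : Finset ℕ)) := by
  rcases mem_subdiv.1 h with h | ⟨τ, _, _, _, h4⟩
  · exact h
  · exfalso
    have : w ∈ ({x, y} : Finset ℕ) := by rw [← h4]; simp
    simp only [Finset.mem_insert, Finset.mem_singleton] at this
    rcases this with rfl | rfl
    · exact hx rfl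
    · exact hy rfl

theorem near_w (hf : FlagC K) (huv : u ≠ v) (he : ({u, v} : Finset ℕ) ∈ K) (hw : w ∉ verts K)
    {y : ℕ} (hy : y ∉ verts (lk K {u, v})) (h : ({w, y} : Finset ℕ) ∈ subdiv K u v w) :
    Near (lab K j u v w φ w).2 (lab K j u v w φ y).2 := by
  rw [lab_w hw]
  rcases edge_w hf he hw h with rfl | rfl | rfl | h'
  · rw [lab_w hw]; exact Or.inl rfl
  · rw [lab_u hf huv he hw]; right; left; dsimp only; decide
  · rw [lab_v hf he hw]; right; right; dsimp only; decide
  · exact absurd h' hy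

theorem near_v (hf : FlagC K) (he : ({u, v} : Finset ℕ) ∈ K) (hw : w ∉ verts K)
    {y : ℕ} (hy : y ∉ verts (lk K {u, v})) (hyw : y ≠ w)
    (h : ({v, y} : Finset ℕ) ∈ subdiv K u v w) :
    Near (lab K j u v w φ v).2 (lab K j u v w φ y).2 := by
  obtain ⟨h1, h2⟩ := edge_old (v_ne_w he hw) hyw h
  rw [lab_v hf he hw]
  by_cases hyv : y = v
  · subst hyv
    rw [lab_v hf he hw]; exact Or.inl rfl
  · have hyu : y ≠ u := by
      rintro rfl
      exact h2 (by simp)
    rw [lab_two hy hyw hyv hyu (by rw [Finset.pair_comm]; exact h1)]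
    right; right; dsimp only; decide

theorem near_u (hf : FlagC K) (huv : u ≠ v) (he : ({u, v} : Finset ℕ) ∈ K) (hw : w ∉ verts K)
    {y : ℕ} (hy : y ∉ verts (lk K {u, v})) (hyw : y ≠ w)
    (h : ({u, y} : Finset ℕ) ∈ subdiv K u v w) :
    Near (lab K j u v w φ u).2 (lab K j u v w φ y).2 := by
  obtain ⟨h1, h2⟩ := edge_old (u_ne_w he hw) hyw h
  rw [lab_u hf huv he hw]
  by_cases hyu : y = u
  · subst hyu
    rw [lab_u hf huv he hw]; exact Or.inl rfl
  · have hyv : y ≠ v := by
      rintro rfl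
      exact h2 (by simp)
    have h4 : ({y, v} : Finset ℕ) ∉ K := by
      intro h4
      exact hy ((mem_verts_lk hf he y).2 ⟨hyu, hyv, by rw [Finset.pair_comm]; exact h1, h4⟩)
    rw [lab_three hy hyw hyv hyu h4]
    right; left; dsimp only; decide

theorem near_all (hf : FlagC K) (huv : u ≠ v) (he : ({u, v} : Finset ℕ) ∈ K) (hw : w ∉ verts K)
    {x y : ℕ} (hx : x ∉ verts (lk K {u, v})) (hy : y ∉ verts (lk K {u, v}))
    (h : ({x, y} : Finset ℕ) ∈ subdiv K u v w) :
    Near (lab K j u v w φ x).2 (lab K j u v w φ y).2 := by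
  have h' : ({y, x} : Finset ℕ) ∈ subdiv K u v w := by rw [Finset.pair_comm]; exact h
  by_cases hxw : x = w
  · subst hxw; exact near_w hf huv he hw hy h
  by_cases hyw : y = w
  · subst hyw; exact (near_w hf huv he hw hx h').symm'
  by_cases hxv : x = v
  · subst hxv; exact near_v hf he hw hy hyw h
  by_cases hyv : y = v
  · subst hyv; exact (near_v hf he hw hx hxw h').symm'
  by_cases hxu : x = u
  · subst hxu; exact near_u hf huv he hw hy hyw h
  by_cases hyu : y = u
  · subst hyu; exact (near_u hf huv he hw hx hxw h').symm'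
  by_cases h1 : ({x, v} : Finset ℕ) ∈ K <;> by_cases h2 : ({y, v} : Finset ℕ) ∈ K
  · rw [lab_two hx hxw hxv hxu h1, lab_two hy hyw hyv hyu h2]; exact Or.inl rfl
  · rw [lab_two hx hxw hxv hxu h1, lab_three hy hyw hyv hyu h2]; right; right; dsimp only; decide
  · rw [lab_three hx hxw hxv hxu h1, lab_two hy hyw hyv hyu h2]; right; left; dsimp only; decide
  · rw [lab_three hx hxw hxv hxu h1, lab_three hy hyw hyv hyu h2]; exact Or.inl rfl

theorem lab_eq_zero (hf : FlagC K) (huv : u ≠ v) (he : ({u, v} : Finset ℕ) ∈ K)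
    (hw : w ∉ verts K) (hb : ∀ i ∈ verts (lk K {u, v}), (φ i).1 < j) {x : ℕ}
    (h : lab K j u v w φ x = (j, 0)) : x = w := by
  by_contra hxw
  by_cases hx : x ∈ verts (lk K {u, v})
  · rw [lab_lk hx] at h
    have := hb x hx
    rw [h] at this
    exact lt_irrefl _ this
  by_cases hxv : x = v
  · subst hxv
    rw [lab_v hf he hw] at h
    exact absurd (Prod.mk.inj h).2 (by decide)
  by_cases hxu : x = u
  · subst hxu
    rw [lab_u hf huv he hw] at h
    exact absurd (Prod.mk.inj h).2 (by decide)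
  by_cases h1 : ({x, v} : Finset ℕ) ∈ K
  · rw [lab_two hx hxw hxv hxu h1] at h
    exact absurd (Prod.mk.inj h).2 (by decide)
  · rw [lab_three hx hxw hxv hxu h1] at h
    exact absurd (Prod.mk.inj h).2 (by decide)

theorem lab_eq_one (hf : FlagC K) (huv : u ≠ v) (he : ({u, v} : Finset ℕ) ∈ K)
    (hw : w ∉ verts K) (hb : ∀ i ∈ verts (lk K {u, v}), (φ i).1 < j) {x : ℕ}
    (h : lab K j u v w φ x = (j, 1)) : x = v := by
  by_contra hxv
  by_cases hx : x ∈ verts (lk K {u, v})
  · rw [lab_lk hx] at h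
    have := hb x hx
    rw [h] at this
    exact lt_irrefl _ this
  by_cases hxw : x = w
  · subst hxw
    rw [lab_w hw] at h
    exact absurd (Prod.mk.inj h).2 (by decide)
  by_cases hxu : x = u
  · subst hxu
    rw [lab_u hf huv he hw] at h
    exact absurd (Prod.mk.inj h).2 (by decide)
  by_cases h1 : ({x, v} : Finset ℕ) ∈ K
  · rw [lab_two hx hxw hxv hxu h1] at h
    exact absurd (Prod.mk.inj h).2 (by decide)
  · rw [lab_three hx hxw hxv hxu h1] at h
    exact absurd (Prod.mk.inj h).2 (by decide)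

theorem Fset_succ (j : ℕ) : Fset (j + 1) = insert (j, 0) (insert (j, 1) (Fset j)) := by
  ext ⟨a, b⟩
  simp only [Fset, Finset.mem_product, Finset.mem_range, Finset.mem_insert, Finset.mem_singleton,
    Prod.mk.injEq]
  constructor
  · rintro ⟨h1, h2⟩
    by_cases ha : a = j
    · rcases h2 with h2 | h2
      · exact Or.inl ⟨ha, h2⟩
      · exact Or.inr (Or.inl ⟨ha, h2⟩)
    · exact Or.inr (Or.inr ⟨by omega, h2⟩)
  · rintro (⟨h1, h2⟩ | ⟨h1, h2⟩ | ⟨h1, h2⟩)
    · exact ⟨by omega, Or.inl h2⟩
    · exact ⟨by omega, Or.inr h2⟩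
    · exact ⟨by omega, h2⟩

theorem mem_verts_of {L : Finset (Finset ℕ)} {ρ : Finset ℕ} (hρ : ρ ∈ L) {x : ℕ} (hx : x ∈ ρ) :
    x ∈ verts L := Finset.mem_biUnion.2 ⟨ρ, hρ, hx⟩

end

end A6

open A6 in
theorem good_subdiv_new {K : Finset (Finset ℕ)} {j u v w : ℕ} {φ : ℕ → ℕ × ZMod 5}
    (hf : FlagC K) (huv : u ≠ v) (he : ({u, v} : Finset ℕ) ∈ K) (hw : w ∉ verts K)
    (hG : Good (lk K {u, v}) j φ) : ∃ φ', Good (subdiv K u v w) (j + 1) φ' := by
  obtain ⟨hb, hn, ρ0, ⟨hρL, hρc, hρi⟩, huniq⟩ := hG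
  refine ⟨lab K j u v w φ, ?_, ?_, ?_⟩
  · intro i _
    by_cases hi : i ∈ verts (lk K {u, v})
    · rw [lab_lk hi]
      exact (hb i hi).trans (Nat.lt_succ_self j)
    · rw [lab_block hi]
      exact Nat.lt_succ_self j
  · intro x y hxy hlab
    by_cases hx : x ∈ verts (lk K {u, v}) <;> by_cases hy : y ∈ verts (lk K {u, v})
    · rw [lab_lk hx, lab_lk hy] at hlab ⊢
      refine hn x y ?_ hlab
      have hxw : x ≠ w := by rintro rfl; exact w_notin hw hx
      have hyw : y ≠ w := by rintro rfl; exact w_notin hw hy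
      have h1 := (edge_old hxw hyw hxy).1
      obtain ⟨a1, a2, a3, a4⟩ := (mem_verts_lk hf he x).1 hx
      obtain ⟨b1, b2, b3, b4⟩ := (mem_verts_lk hf he y).1 hy
      apply mem_lk_of hf
      · simp [a1.symm, b1.symm]
      · simp [a2.symm, b2.symm]
      · rw [hf]
        have hx0 : ({x} : Finset ℕ) ∈ K := down hf h1 (by simp)
        have hy0 : ({y} : Finset ℕ) ∈ K := down hf h1 (by simp)
        have hu0 : ({u} : Finset ℕ) ∈ K := down hf he (by simp)
        have hv0 : ({v} : Finset ℕ) ∈ K := down hf he (by simp)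
        have h1' : ({y, x} : Finset ℕ) ∈ K := by rw [Finset.pair_comm]; exact h1
        have a3' : ({u, x} : Finset ℕ) ∈ K := by rw [Finset.pair_comm]; exact a3
        have a4' : ({v, x} : Finset ℕ) ∈ K := by rw [Finset.pair_comm]; exact a4
        have b3' : ({u, y} : Finset ℕ) ∈ K := by rw [Finset.pair_comm]; exact b3
        have b4' : ({v, y} : Finset ℕ) ∈ K := by rw [Finset.pair_comm]; exact b4
        have he' : ({v, u} : Finset ℕ) ∈ K := by rw [Finset.pair_comm]; exact he
        intro a ha b hb'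
        simp only [Finset.mem_singleton, Finset.mem_insert] at ha hb'
        rcases ha with rfl | rfl | rfl | rfl <;> rcases hb' with rfl | rfl | rfl | rfl <;>
          first
          | assumption
          | (rw [Finset.pair_eq_singleton]; assumption)
    · exfalso
      rw [lab_lk hx, lab_block hy] at hlab
      have := hb x hx
      omega
    · exfalso
      rw [lab_lk hy, lab_block hx] at hlab
      have := hb y hy
      omega
    · exact near_all hf huv he hw hx hy hxy
  · obtain ⟨hu0, hv0, h0⟩ := of_mem_lk hρL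
    have hwρ : w ∉ ρ0 := not_mem_face hw (Finset.mem_filter.1 hρL).1
    have hvw := v_ne_w he hw
    refine ⟨insert w (insert v ρ0), ⟨?_, ?_, ?_⟩, ?_⟩
    · refine mem_subdiv.2 (Or.inr ⟨insert v ρ0, ?_, ?_, ?_, rfl⟩)
      · exact down hf h0 (Finset.subset_insert _ _)
      · rintro ⟨h1, _⟩
        rcases Finset.mem_insert.1 h1 with h | h
        · exact huv h
        · exact hu0 h
      · rw [Finset.insert_eq_of_mem (Finset.mem_insert_self v ρ0)]
        exact h0
    · rw [Finset.card_insert_of_notMem, Finset.card_insert_of_notMem hv0, hρc]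
      · ring
      · intro h
        rcases Finset.mem_insert.1 h with h | h
        · exact hvw h.symm
        · exact hwρ h
    · rw [Finset.image_insert, Finset.image_insert, lab_w hw, lab_v hf he hw, Fset_succ, ← hρi]
      congr 2
      apply Finset.image_congr
      intro x hx
      exact lab_lk (mem_verts_of hρL hx)
    · rintro σ ⟨hσ, hσc, hσi⟩
      have hwσ : w ∈ σ := by
        have : (j, (0 : ZMod 5)) ∈ σ.image (lab K j u v w φ) := by
          rw [hσi, Fset_succ]; simp
        obtain ⟨x, hx, hxe⟩ := Finset.mem_image.1 this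
        rw [← lab_eq_zero hf huv he hw hb hxe]
        exact hx
      have hvσ : v ∈ σ := by
        have : (j, (1 : ZMod 5)) ∈ σ.image (lab K j u v w φ) := by
          rw [hσi, Fset_succ]; simp
        obtain ⟨x, hx, hxe⟩ := Finset.mem_image.1 this
        rw [← lab_eq_one hf huv he hw hb hxe]
        exact hx
      rcases mem_subdiv.1 hσ with ⟨h1, _⟩ | ⟨τ, h1, h2, h3, rfl⟩
      · exact absurd hwσ (not_mem_face hw h1)
      · have hvτ : v ∈ τ := by
          rcases Finset.mem_insert.1 hvσ with h | h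
          · exact absurd h hvw
          · exact h
        have huτ : u ∉ τ := fun h => h2 ⟨h, hvτ⟩
        have hτe : insert v (τ.erase v) = τ := Finset.insert_erase hvτ
        have hρ : τ.erase v ∈ lk K {u, v} := by
          apply mem_lk_of hf
          · intro h; exact huτ (Finset.mem_of_mem_erase h)
          · exact Finset.notMem_erase v τ
          · rw [hτe]
            exact down hf h3 (Finset.insert_subset_insert _ (Finset.subset_insert _ _))
        have hwτ : w ∉ τ := not_mem_face hw h1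
        have himg : (τ.erase v).image φ = Fset j := by
          ext ⟨a, b⟩
          constructor
          · intro h
            obtain ⟨x, hx, hxe⟩ := Finset.mem_image.1 h
            have hxL := mem_verts_of hρ hx
            have h5 : (a, b) ∈ Fset (j + 1) := by
              rw [← hσi, ← hxe, ← lab_lk (φ := φ) (j := j) (w := w) hxL]
              exact Finset.mem_image_of_mem _
                (Finset.mem_insert_of_mem (Finset.mem_of_mem_erase hx))
            have h6 := hb x hxL
            rw [hxe] at h6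
            rw [Fset, Finset.mem_product] at h5 ⊢
            exact ⟨Finset.mem_range.2 h6, h5.2⟩
          · intro h
            have h5 : (a, b) ∈ (insert w τ).image (lab K j u v w φ) := by
              rw [hσi, Fset_succ]
              exact Finset.mem_insert_of_mem (Finset.mem_insert_of_mem h)
            have ha : a < j := Finset.mem_range.1 (Finset.mem_product.1 h).1
            obtain ⟨x, hx, hxe⟩ := Finset.mem_image.1 h5
            have hxw : x ≠ w := by
              rintro rfl
              rw [lab_w hw] at hxe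
              exact absurd (Prod.mk.inj hxe).1 (by omega)
            have hxv : x ≠ v := by
              rintro rfl
              rw [lab_v hf he hw] at hxe
              exact absurd (Prod.mk.inj hxe).1 (by omega)
            have hxτ : x ∈ τ.erase v := by
              rcases Finset.mem_insert.1 hx with h | h
              · exact absurd h hxw
              · exact Finset.mem_erase.2 ⟨hxv, h⟩
            rw [lab_lk (mem_verts_of hρ hxτ)] at hxe
            exact Finset.mem_image.2 ⟨x, hxτ, hxe⟩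
        have hcard : (τ.erase v).card = 2 * j := by
          rw [Finset.card_insert_of_notMem hwτ] at hσc
          rw [Finset.card_erase_of_mem hvτ]
          omega
        have := huniq _ ⟨hρ, hcard, himg⟩
        rw [← this, hτe]

end MP8a95ee
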