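import Pool.Agent.Work.MP_8a95ee_gt.Setup

namespace MP8a95ee

namespace A7

theorem mono {L : Finset (Finset ℕ)} (hf : FlagC L) {σ τ : Finset ℕ} (hσ : σ ∈ L) (h : τ ⊆ σ) :
    τ ∈ L :=
  (hf τ).2 fun x hx y hy => (hf σ).1 hσ x (h hx) y (h hy)

theorem w_notin {L : Finset (Finset ℕ)} {w : ℕ} (hw : w ∉ verts L) {τ : Finset ℕ} (hτ : τ ∈ L) :
    w ∉ τ := fun h => hw (Finset.mem_biUnion.2 ⟨τ, hτ, h⟩)

theorem mem_sub_notMem {L : Finset (Finset ℕ)} {u v w : ℕ} {σ : Finset ℕ} (h : w ∉ σ) :
    σ ∈ subdiv L u v w ↔ σ ∈ L ∧ ¬ (u ∈ σ ∧ v ∈ σ) := by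
  rw [subdiv, Finset.mem_union, Finset.mem_filter, Finset.mem_image]
  constructor
  · rintro (h1 | ⟨τ, _, rfl⟩)
    · exact h1
    · exact absurd (Finset.mem_insert_self w τ) h
  · intro h1; exact Or.inl h1

theorem mem_sub_mem {L : Finset (Finset ℕ)} {u v w : ℕ} (hw : w ∉ verts L) (hwu : u ≠ w)
    (hwv : v ≠ w) {σ : Finset ℕ} (h : w ∈ σ) :
    σ ∈ subdiv L u v w ↔ σ.erase w ∈ L ∧ ¬ (u ∈ σ ∧ v ∈ σ) ∧
      insert u (insert v (σ.erase w)) ∈ L := by
  rw [subdiv, Finset.mem_union, Finset.mem_filter, Finset.mem_image]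
  constructor
  · rintro (h1 | ⟨τ, hτ, rfl⟩)
    · exact absurd h (w_notin hw h1.1)
    · rw [Finset.mem_filter] at hτ
      have hwτ : w ∉ τ := w_notin hw hτ.1
      rw [Finset.erase_insert hwτ]
      refine ⟨hτ.1, ?_, hτ.2.2⟩
      simp only [Finset.mem_insert, hwu, hwv, false_or]
      exact hτ.2.1
  · rintro ⟨h1, h2, h3⟩
    refine Or.inr ⟨σ.erase w, ?_, Finset.insert_erase h⟩
    rw [Finset.mem_filter]
    refine ⟨h1, ?_, h3⟩
    intro h4
    exact h2 ⟨Finset.mem_of_mem_erase h4.1, Finset.mem_of_mem_erase h4.2⟩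

theorem mem_lk {L : Finset (Finset ℕ)} {τ ρ : Finset ℕ} :
    ρ ∈ lk L τ ↔ ρ ∈ L ∧ Disjoint ρ τ ∧ ρ ∪ τ ∈ L := by
  rw [lk, Finset.mem_filter]

theorem ne_w {L : Finset (Finset ℕ)} {u v w : ℕ} (he : ({u, v} : Finset ℕ) ∈ L)
    (hw : w ∉ verts L) : u ≠ w ∧ v ≠ w := by
  have := w_notin hw he
  simp only [Finset.mem_insert, Finset.mem_singleton, not_or] at this
  exact ⟨fun h => this.1 h.symm, fun h => this.2 h.symm⟩

theorem good_rename {K : Finset (Finset ℕ)} {j : ℕ} {φ φ' : ℕ → ℕ × ZMod 5} (s : ℕ ≃ ℕ)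
    (h : ∀ i ∈ verts K, φ' (s i) = φ i) (hG : Good K j φ) :
    Good (K.image (Finset.image s)) j φ' := by
  obtain ⟨h1, h2, σ, ⟨hσK, hσc, hσi⟩, hu⟩ := hG
  have key : ∀ ρ ∈ K, ∀ i ∈ ρ, φ' (s i) = φ i := fun ρ hρ i hi =>
    h i (Finset.mem_biUnion.2 ⟨ρ, hρ, hi⟩)
  refine ⟨?_, ?_, σ.image s, ⟨?_, ?_, ?_⟩, ?_⟩
  · intro i hi
    obtain ⟨ρ', hρ', hi'⟩ := Finset.mem_biUnion.1 hi
    obtain ⟨ρ, hρ, rfl⟩ := Finset.mem_image.1 hρ'
    obtain ⟨x, hx, rfl⟩ := Finset.mem_image.1 hi'
    rw [key ρ hρ x hx]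
    exact h1 x (Finset.mem_biUnion.2 ⟨ρ, hρ, hx⟩)
  · intro x y hxy hb
    obtain ⟨ρ, hρ, hρe⟩ := Finset.mem_image.1 hxy
    have hx : x ∈ ρ.image s := by rw [hρe]; simp
    have hy : y ∈ ρ.image s := by rw [hρe]; simp
    obtain ⟨x', hx', rfl⟩ := Finset.mem_image.1 hx
    obtain ⟨y', hy', rfl⟩ := Finset.mem_image.1 hy
    have hρ2 : ρ = {x', y'} := by
      ext z
      constructor
      · intro hz
        have : s z ∈ ρ.image s := Finset.mem_image_of_mem _ hz
        rw [hρe] at this
        simpa using this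
      · intro hz
        rcases Finset.mem_insert.1 hz with rfl | hz
        · exact hx'
        · rw [Finset.mem_singleton] at hz; subst hz; exact hy'
    rw [key ρ hρ x' hx', key ρ hρ y' hy'] at hb ⊢
    rw [hρ2] at hρ
    exact h2 x' y' hρ hb
  · exact Finset.mem_image_of_mem _ hσK
  · rw [Finset.card_image_of_injective _ s.injective]; exact hσc
  · rw [Finset.image_image, ← hσi]
    exact Finset.image_congr fun i hi => key σ hσK i hi
  · rintro σ' ⟨hσ', hc', hi'⟩
    obtain ⟨ρ, hρ, rfl⟩ := Finset.mem_image.1 hσ'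
    rw [Finset.card_image_of_injective _ s.injective] at hc'
    have : ρ.image φ = Fset j := by
      rw [← hi', Finset.image_image]
      exact (Finset.image_congr fun i hi => key ρ hρ i hi).symm
    rw [hu ρ ⟨hρ, hc', this⟩]

theorem kap_rename (K : Finset (Finset ℕ)) (s : ℕ ≃ ℕ) :
    kap (K.image (Finset.image s)) = kap K := by
  rw [kap, kap, Finset.sum_image]
  · refine Finset.sum_congr rfl fun σ _ => ?_
    rw [Finset.card_image_of_injective _ s.injective]
  · intro a _ b _ hab
    exact Finset.image_injective s.injective hab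

theorem lk_one_eq {L : Finset (Finset ℕ)} {u v w : ℕ} (hf : FlagC L) (huv : u ≠ v)
    (he : ({u, v} : Finset ℕ) ∈ L) (hw : w ∉ verts L) {τ : Finset ℕ} (hu : u ∈ τ) (hv : v ∉ τ)
    (hn : insert v τ ∈ L) :
    lk (subdiv L u v w) τ = (lk L τ).image (Finset.image (Equiv.swap v w)) := by
  obtain ⟨huw, hvw⟩ := ne_w he hw
  have hτL : τ ∈ L := mono hf hn (Finset.subset_insert _ _)
  have hwτ : w ∉ τ := w_notin hw hτL
  -- membership in the link
  have hA : ∀ ρ : Finset ℕ, ρ ∈ lk (subdiv L u v w) τ ↔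
      v ∉ ρ ∧ ρ.image (Equiv.swap v w) ∈ lk L τ := by
    intro ρ
    by_cases hwρ : w ∈ ρ
    · have hwρτ : w ∈ ρ ∪ τ := Finset.mem_union_left _ hwρ
      rw [mem_lk, mem_lk, mem_sub_mem hw huw hvw hwρ, mem_sub_mem hw huw hvw hwρτ]
      constructor
      · rintro ⟨⟨a1, a2, a3⟩, b, ⟨c1, c2, c3⟩⟩
        have hvρ : v ∉ ρ := fun h => c2 ⟨Finset.mem_union_right _ hu, Finset.mem_union_left _ h⟩
        have hE : ρ.image (Equiv.swap v w) = insert v (ρ.erase w) := by
          ext z
          simp only [Finset.mem_image, Finset.mem_insert, Finset.mem_erase]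
          constructor
          · rintro ⟨x, hx, rfl⟩
            by_cases hxw : x = w
            · left; rw [hxw, Equiv.swap_apply_right]
            · have hxv : x ≠ v := fun h => hvρ (h ▸ hx)
              rw [Equiv.swap_apply_of_ne_of_ne hxv hxw]
              exact Or.inr ⟨hxw, hx⟩
          · rintro (rfl | ⟨h1, h2⟩)
            · exact ⟨w, hwρ, Equiv.swap_apply_right _ _⟩
            · refine ⟨z, h2, ?_⟩
              have hzv : z ≠ v := fun h => hvρ (h ▸ h2)
              exact Equiv.swap_apply_of_ne_of_ne hzv h1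
        rw [hE]
        refine ⟨hvρ, mono hf a3 (Finset.subset_insert _ _), ?_, ?_⟩
        · rw [Finset.disjoint_left] at b ⊢
          intro x hx
          rcases Finset.mem_insert.1 hx with rfl | hx
          · exact hv
          · exact b (Finset.mem_of_mem_erase hx)
        · refine mono hf c3 ?_
          intro x hx
          simp only [Finset.mem_union, Finset.mem_insert, Finset.mem_erase] at hx ⊢
          by_cases hxw : x = w
          · subst hxw
            rcases hx with (h | h) | h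
            · exact Or.inr (Or.inl h)
            · exact absurd rfl h.1
            · exact absurd h hwτ
          · tauto
      · rintro ⟨hvρ, a, b, c⟩
        have hE : ρ.image (Equiv.swap v w) = insert v (ρ.erase w) := by
          ext z
          simp only [Finset.mem_image, Finset.mem_insert, Finset.mem_erase]
          constructor
          · rintro ⟨x, hx, rfl⟩
            by_cases hxw : x = w
            · left; rw [hxw, Equiv.swap_apply_right]
            · have hxv : x ≠ v := fun h => hvρ (h ▸ hx)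
              rw [Equiv.swap_apply_of_ne_of_ne hxv hxw]
              exact Or.inr ⟨hxw, hx⟩
          · rintro (rfl | ⟨h1, h2⟩)
            · exact ⟨w, hwρ, Equiv.swap_apply_right _ _⟩
            · refine ⟨z, h2, ?_⟩
              have hzv : z ≠ v := fun h => hvρ (h ▸ h2)
              exact Equiv.swap_apply_of_ne_of_ne hzv h1
        rw [hE] at a b c
        have huρ : u ∉ ρ := by
          intro h
          exact (Finset.disjoint_left.1 b
            (Finset.mem_insert_of_mem (Finset.mem_erase.2 ⟨huw, h⟩))) hu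
        have hunion : insert u (insert v ((ρ ∪ τ).erase w)) ∈ L := by
          refine mono hf c ?_
          intro x hx
          simp only [Finset.mem_union, Finset.mem_insert, Finset.mem_erase] at hx ⊢
          rcases hx with rfl | rfl | ⟨h1, h2 | h2⟩
          · exact Or.inr hu
          · exact Or.inl (Or.inl rfl)
          · exact Or.inl (Or.inr ⟨h1, h2⟩)
          · exact Or.inr h2
        refine ⟨⟨mono hf a (Finset.subset_insert _ _), fun h => hvρ h.2, mono hf hunion ?_⟩, ?_,
          mono hf hunion ?_, ?_, hunion⟩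
        · intro x hx
          simp only [Finset.mem_union, Finset.mem_insert, Finset.mem_erase] at hx ⊢
          tauto
        · rw [Finset.disjoint_left] at b ⊢
          intro x hx hxτ
          have hxw : x ≠ w := fun h => hwτ (h ▸ hxτ)
          exact b (Finset.mem_insert_of_mem (Finset.mem_erase.2 ⟨hxw, hx⟩)) hxτ
        · intro x hx
          exact Finset.mem_insert_of_mem (Finset.mem_insert_of_mem hx)
        · rintro ⟨_, h2⟩
          rcases Finset.mem_union.1 h2 with h2 | h2
          · exact hvρ h2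
          · exact hv h2
    · have hwρτ : w ∉ ρ ∪ τ := by
        rw [Finset.mem_union, not_or]; exact ⟨hwρ, hwτ⟩
      rw [mem_lk, mem_sub_notMem hwρ, mem_sub_notMem hwρτ]
      by_cases hvρ : v ∈ ρ
      · constructor
        · rintro ⟨_, _, _, h⟩
          exact absurd ⟨Finset.mem_union_right _ hu, Finset.mem_union_left _ hvρ⟩ h
        · rintro ⟨h, _⟩
          exact absurd hvρ h
      · have hE : ρ.image (Equiv.swap v w) = ρ := by
          ext z
          simp only [Finset.mem_image]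
          constructor
          · rintro ⟨x, hx, rfl⟩
            have hz1 : x ≠ v := fun h => hvρ (h ▸ hx)
            have hz2 : x ≠ w := fun h => hwρ (h ▸ hx)
            rwa [Equiv.swap_apply_of_ne_of_ne hz1 hz2]
          · intro hx
            have hz1 : z ≠ v := fun h => hvρ (h ▸ hx)
            have hz2 : z ≠ w := fun h => hwρ (h ▸ hx)
            exact ⟨z, hx, Equiv.swap_apply_of_ne_of_ne hz1 hz2⟩
        rw [hE, mem_lk]
        constructor
        · rintro ⟨⟨a, _⟩, b, c, _⟩
          exact ⟨hvρ, a, b, c⟩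
        · rintro ⟨_, a, b, c⟩
          refine ⟨⟨a, fun h => hvρ h.2⟩, b, c, ?_⟩
          rintro ⟨_, h2⟩
          rcases Finset.mem_union.1 h2 with h2 | h2
          · exact hvρ h2
          · exact hv h2
  have hinv : ∀ ρ : Finset ℕ, (ρ.image (Equiv.swap v w)).image (Equiv.swap v w) = ρ := by
    intro ρ
    rw [Finset.image_image]
    have : ((Equiv.swap v w : ℕ → ℕ) ∘ (Equiv.swap v w : ℕ → ℕ)) = id := by
      funext x; simp
    rw [this, Finset.image_id]
  ext ρ
  rw [hA, Finset.mem_image]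
  constructor
  · rintro ⟨_, h⟩
    exact ⟨_, h, hinv ρ⟩
  · rintro ⟨ρ', h, rfl⟩
    rw [hinv]
    refine ⟨?_, h⟩
    intro hv'
    obtain ⟨x, hx, hxv⟩ := Finset.mem_image.1 hv'
    have : x = w := by
      have h5 := congrArg (Equiv.swap v w) hxv
      rwa [Equiv.swap_apply_self, Equiv.swap_apply_left] at h5
    subst this
    exact w_notin hw (mem_lk.1 h).1 hx

end A7

theorem lk_subdiv_far {L : Finset (Finset ℕ)} {u v w : ℕ} (hf : FlagC L) (huv : u ≠ v)
    (he : ({u, v} : Finset ℕ) ∈ L) (hw : w ∉ verts L) {τ : Finset ℕ} (hτ : τ ∈ L)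
    (hfar : insert u (insert v τ) ∉ L) : lk (subdiv L u v w) τ = lk L τ := by
  obtain ⟨huw, hvw⟩ := A7.ne_w he hw
  have hwτ : w ∉ τ := A7.w_notin hw hτ
  ext ρ
  rw [A7.mem_lk, A7.mem_lk]
  by_cases hwρ : w ∈ ρ
  · have hwρτ : w ∈ ρ ∪ τ := Finset.mem_union_left _ hwρ
    rw [A7.mem_sub_mem hw huw hvw hwρτ]
    constructor
    · rintro ⟨_, _, _, _, h3⟩
      refine absurd (A7.mono hf h3 ?_) hfar
      refine Finset.insert_subset_insert _ (Finset.insert_subset_insert _ ?_)
      intro x hx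
      exact Finset.mem_erase.2 ⟨fun h => hwτ (h ▸ hx), Finset.mem_union_right _ hx⟩
    · rintro ⟨h, _⟩
      exact absurd hwρ (A7.w_notin hw h)
  · have hwρτ : w ∉ ρ ∪ τ := by
      rw [Finset.mem_union, not_or]; exact ⟨hwρ, hwτ⟩
    rw [A7.mem_sub_notMem hwρ, A7.mem_sub_notMem hwρτ]
    constructor
    · rintro ⟨⟨a, _⟩, b, c, _⟩
      exact ⟨a, b, c⟩
    · rintro ⟨a, b, c⟩
      have key : ¬ (u ∈ ρ ∪ τ ∧ v ∈ ρ ∪ τ) := by
        rintro ⟨h1, h2⟩
        refine hfar (A7.mono hf c ?_)
        intro x hx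
        rcases Finset.mem_insert.1 hx with rfl | hx
        · exact h1
        · rcases Finset.mem_insert.1 hx with rfl | hx
          · exact h2
          · exact Finset.mem_union_right _ hx
      exact ⟨⟨a, fun h => key ⟨Finset.mem_union_left _ h.1, Finset.mem_union_left _ h.2⟩⟩, b, c,
        key⟩

theorem lk_subdiv_near {L : Finset (Finset ℕ)} {u v w : ℕ} (hf : FlagC L) (huv : u ≠ v)
    (he : ({u, v} : Finset ℕ) ∈ L) (hw : w ∉ verts L) {τ : Finset ℕ} (hu : u ∉ τ) (hv : v ∉ τ)
    (hn : insert u (insert v τ) ∈ L) :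
    lk (subdiv L u v w) τ = subdiv (lk L τ) u v w := by
  obtain ⟨huw, hvw⟩ := A7.ne_w he hw
  have hτL : τ ∈ L := A7.mono hf hn (fun x hx => Finset.mem_insert_of_mem
    (Finset.mem_insert_of_mem hx))
  have hwτ : w ∉ τ := A7.w_notin hw hτL
  have hwK : w ∉ verts (lk L τ) := by
    intro h
    obtain ⟨ρ, hρ, hwρ⟩ := Finset.mem_biUnion.1 h
    exact A7.w_notin hw (A7.mem_lk.1 hρ).1 hwρ
  ext ρ
  by_cases hwρ : w ∈ ρ
  · have hwρτ : w ∈ ρ ∪ τ := Finset.mem_union_left _ hwρ
    rw [A7.mem_lk, A7.mem_sub_mem hw huw hvw hwρ, A7.mem_sub_mem hw huw hvw hwρτ,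
      A7.mem_sub_mem hwK huw hvw hwρ, A7.mem_lk, A7.mem_lk]
    constructor
    · rintro ⟨⟨a1, a2, a3⟩, b, ⟨c1, c2, c3⟩⟩
      have b' := Finset.disjoint_left.1 b
      refine ⟨⟨a1, ?_, A7.mono hf c1 ?_⟩, a2, a3, ?_, A7.mono hf c3 ?_⟩
      · rw [Finset.disjoint_left]
        intro x hx
        exact b' (Finset.mem_of_mem_erase hx)
      · intro x hx
        simp only [Finset.mem_union, Finset.mem_erase] at hx ⊢
        rcases hx with hx | hx
        · exact ⟨hx.1, Or.inl hx.2⟩
        · exact ⟨fun h => hwτ (h ▸ hx), Or.inr hx⟩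
      · rw [Finset.disjoint_left]
        intro x hx
        rcases Finset.mem_insert.1 hx with rfl | hx
        · exact hu
        · rcases Finset.mem_insert.1 hx with rfl | hx
          · exact hv
          · exact b' (Finset.mem_of_mem_erase hx)
      · intro x hx
        simp only [Finset.mem_union, Finset.mem_insert, Finset.mem_erase] at hx ⊢
        rcases hx with (hx | hx | hx) | hx
        · exact Or.inl hx
        · exact Or.inr (Or.inl hx)
        · exact Or.inr (Or.inr ⟨hx.1, Or.inl hx.2⟩)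
        · exact Or.inr (Or.inr ⟨fun h => hwτ (h ▸ hx), Or.inr hx⟩)
    · rintro ⟨⟨a1, a2, a3⟩, b, c1, c2, c3⟩
      have a2' := Finset.disjoint_left.1 a2
      refine ⟨⟨a1, b, c1⟩, ?_, A7.mono hf a3 ?_, ?_, A7.mono hf c3 ?_⟩
      · rw [Finset.disjoint_left]
        intro x hx hxτ
        exact a2' (Finset.mem_erase.2 ⟨fun h => hwτ (h ▸ hxτ), hx⟩) hxτ
      · intro x hx
        simp only [Finset.mem_union, Finset.mem_erase] at hx ⊢
        tauto
      · simp only [Finset.mem_union, hu, hv, or_false]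
        exact b
      · intro x hx
        simp only [Finset.mem_union, Finset.mem_insert, Finset.mem_erase] at hx ⊢
        tauto
  · have hwρτ : w ∉ ρ ∪ τ := by
      rw [Finset.mem_union, not_or]; exact ⟨hwρ, hwτ⟩
    rw [A7.mem_lk, A7.mem_sub_notMem hwρ, A7.mem_sub_notMem hwρτ, A7.mem_sub_notMem hwρ,
      A7.mem_lk]
    simp only [Finset.mem_union, hu, hv, or_false]
    tauto

theorem lk_lk_edge {L : Finset (Finset ℕ)} {u v : ℕ} (hf : FlagC L) (huv : u ≠ v)
    {τ : Finset ℕ} (hu : u ∉ τ) (hv : v ∉ τ) (hn : insert u (insert v τ) ∈ L) :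
    lk (lk L τ) {u, v} = lk L (insert u (insert v τ)) := by
  ext ρ
  rw [A7.mem_lk, A7.mem_lk, A7.mem_lk, A7.mem_lk]
  have hE : ρ ∪ {u, v} ∪ τ = ρ ∪ insert u (insert v τ) := by
    ext x
    simp only [Finset.mem_union, Finset.mem_insert, Finset.mem_singleton]
    tauto
  rw [hE]
  constructor
  · rintro ⟨⟨a1, a2, a3⟩, b, c1, c2, c3⟩
    refine ⟨a1, ?_, c3⟩
    rw [Finset.disjoint_left] at a2 b ⊢
    intro x hx
    have h1 := a2 hx
    have h2 := b hx
    simp only [Finset.mem_insert, Finset.mem_singleton, not_or] at h2 ⊢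
    exact ⟨h2.1, h2.2, h1⟩
  · rintro ⟨a, b, c⟩
    have b' : ∀ x ∈ ρ, x ≠ u ∧ x ≠ v ∧ x ∉ τ := by
      intro x hx
      have := Finset.disjoint_left.1 b hx
      simpa only [Finset.mem_insert, not_or] using this
    refine ⟨⟨a, ?_, A7.mono hf c ?_⟩, ?_, A7.mono hf c ?_, ?_, c⟩
    · rw [Finset.disjoint_left]
      exact fun x hx => (b' x hx).2.2
    · intro x hx
      simp only [Finset.mem_union, Finset.mem_insert] at hx ⊢
      tauto
    · rw [Finset.disjoint_left]
      intro x hx
      simp only [Finset.mem_insert, Finset.mem_singleton, not_or]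
      exact ⟨(b' x hx).1, (b' x hx).2.1⟩
    · intro x hx
      simp only [Finset.mem_union, Finset.mem_insert, Finset.mem_singleton] at hx ⊢
      tauto
    · rw [Finset.disjoint_left]
      intro x hx
      rcases Finset.mem_union.1 hx with hx | hx
      · exact (b' x hx).2.2
      · rcases Finset.mem_insert.1 hx with rfl | hx
        · exact hu
        · rw [Finset.mem_singleton] at hx; subst hx; exact hv

theorem lk_subdiv_one {L : Finset (Finset ℕ)} {u v w : ℕ} (hf : FlagC L) (huv : u ≠ v)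
    (he : ({u, v} : Finset ℕ) ∈ L) (hw : w ∉ verts L) {τ : Finset ℕ} (hu : u ∈ τ) (hv : v ∉ τ)
    (hn : insert v τ ∈ L) :
    kap (lk (subdiv L u v w) τ) = kap (lk L τ) ∧
    ∀ j φ, Good (lk L τ) j φ → Good (lk (subdiv L u v w) τ) j (Function.update φ w (φ v)) := by
  rw [A7.lk_one_eq hf huv he hw hu hv hn]
  refine ⟨A7.kap_rename _ _, fun j φ hG => A7.good_rename _ ?_ hG⟩
  intro i hi
  have hiw : i ≠ w := by
    rintro rfl
    obtain ⟨ρ, hρ, hiρ⟩ := Finset.mem_biUnion.1 hi
    exact A7.w_notin hw (A7.mem_lk.1 hρ).1 hiρ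
  by_cases hiv : i = v
  · subst hiv
    rw [Equiv.swap_apply_left, Function.update_self]
  · rw [Equiv.swap_apply_of_ne_of_ne hiv hiw, Function.update_of_ne hiw]

theorem lk_subdiv_two {L : Finset (Finset ℕ)} {u v w : ℕ} (hf : FlagC L) (huv : u ≠ v)
    (he : ({u, v} : Finset ℕ) ∈ L) (hw : w ∉ verts L) {τ : Finset ℕ} (hu : u ∈ τ) (hv : v ∉ τ)
    (hn : insert v τ ∈ L) :
    lk (subdiv L u v w) (insert w τ) = lk L (insert v τ) := by
  obtain ⟨huw, hvw⟩ := A7.ne_w he hw
  have hτL : τ ∈ L := A7.mono hf hn (Finset.subset_insert _ _)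
  have hwτ : w ∉ τ := A7.w_notin hw hτL
  ext ρ
  rw [A7.mem_lk, A7.mem_lk]
  by_cases hwρ : w ∈ ρ
  · constructor
    · rintro ⟨_, h, _⟩
      exact absurd (Finset.mem_insert_self w τ) (Finset.disjoint_left.1 h hwρ)
    · rintro ⟨h, _⟩
      exact absurd hwρ (A7.w_notin hw h)
  · have hwu : w ∈ ρ ∪ insert w τ := Finset.mem_union_right _ (Finset.mem_insert_self w τ)
    have hE : (ρ ∪ insert w τ).erase w = ρ ∪ τ := by
      ext x
      simp only [Finset.mem_union, Finset.mem_insert, Finset.mem_erase]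
      constructor
      · tauto
      · rintro (h | h)
        · exact ⟨fun h' => hwρ (h' ▸ h), Or.inl h⟩
        · exact ⟨fun h' => hwτ (h' ▸ h), Or.inr (Or.inr h)⟩
    have hE2 : insert u (insert v (ρ ∪ τ)) = ρ ∪ insert v τ := by
      ext x
      simp only [Finset.mem_union, Finset.mem_insert]
      constructor
      · rintro (rfl | h)
        · exact Or.inr (Or.inr hu)
        · tauto
      · tauto
    rw [A7.mem_sub_notMem hwρ, A7.mem_sub_mem hw huw hvw hwu, hE, hE2]
    constructor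
    · rintro ⟨⟨a1, _⟩, b, _, c2, c3⟩
      refine ⟨a1, ?_, c3⟩
      have b' := Finset.disjoint_left.1 b
      rw [Finset.disjoint_left]
      intro x hx hx2
      rcases Finset.mem_insert.1 hx2 with rfl | hx2
      · exact c2 ⟨Finset.mem_union_right _ (Finset.mem_insert_of_mem hu),
          Finset.mem_union_left _ hx⟩
      · exact b' hx (Finset.mem_insert_of_mem hx2)
    · rintro ⟨a, b, c⟩
      have b' := Finset.disjoint_left.1 b
      have hvρ : v ∉ ρ := fun h => b' h (Finset.mem_insert_self _ _)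
      refine ⟨⟨a, fun h => hvρ h.2⟩, ?_, A7.mono hf c ?_, ?_, c⟩
      · rw [Finset.disjoint_left]
        intro x hx hx2
        rcases Finset.mem_insert.1 hx2 with rfl | hx2
        · exact hwρ hx
        · exact b' hx (Finset.mem_insert_of_mem hx2)
      · intro x hx
        simp only [Finset.mem_union, Finset.mem_insert] at hx ⊢
        tauto
      · rintro ⟨_, h2⟩
        rcases Finset.mem_union.1 h2 with h2 | h2
        · exact hvρ h2
        · rcases Finset.mem_insert.1 h2 with h2 | h2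
          · exact hvw h2
          · exact hv h2

end MP8a95ee

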