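import Pool.Agent.Work.MP_8a95ee_gt.Bd.B01
import Pool.Agent.Work.MP_8a95ee_gt.A4
import Pool.Agent.Work.MP_8a95ee_gt.A5
import Pool.Agent.Work.MP_8a95ee_gt.A6
import Pool.Agent.Work.MP_8a95ee_gt.A7

namespace MP8a95ee

namespace A8

theorem edge_comm {L : Finset (Finset ℕ)} {u v : ℕ} (he : ({u, v} : Finset ℕ) ∈ L) :
    ({v, u} : Finset ℕ) ∈ L := by
  rwa [Finset.pair_comm]

theorem w_notin {L : Finset (Finset ℕ)} {w : ℕ} (hw : w ∉ verts L) {τ : Finset ℕ} (hτ : τ ∈ L) :
    w ∉ τ := fun h => hw (Finset.mem_biUnion.2 ⟨τ, hτ, h⟩)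

theorem mono {L : Finset (Finset ℕ)} (hf : FlagC L) {σ τ : Finset ℕ} (hσ : σ ∈ L) (h : τ ⊆ σ) :
    τ ∈ L :=
  (hf τ).2 fun x hx y hy => (hf σ).1 hσ x (h hx) y (h hy)

end A8

theorem propP_subdiv {n : ℕ} {L : Finset (Finset ℕ)} {u v w : ℕ} (hf : FlagC L)
    (hd : ∀ σ ∈ L, σ.card ≤ n) (huv : u ≠ v) (he : ({u, v} : Finset ℕ) ∈ L) (hw : w ∉ verts L)
    (hP : PropP n L) : PropP n (subdiv L u v w) := by
  intro τ hτ j hj hk
  rw [subdiv, Finset.mem_union, Finset.mem_filter, Finset.mem_image] at hτ
  rcases hτ with ⟨hτ, hnot⟩ | ⟨τ', hτ', rfl⟩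
  · by_cases hn : insert u (insert v τ) ∈ L
    · by_cases hu : u ∈ τ
      · have hv : v ∉ τ := fun hv => hnot ⟨hu, hv⟩
        have hn' : insert v τ ∈ L := A8.mono hf hn (Finset.subset_insert _ _)
        obtain ⟨h1, h2⟩ := lk_subdiv_one hf huv he hw hu hv hn'
        rw [h1] at hk
        obtain ⟨φ, hφ⟩ := hP τ hτ j hj hk
        exact ⟨_, h2 j φ hφ⟩
      · by_cases hv : v ∈ τ
        · have hn' : insert u τ ∈ L := A8.mono hf hn (by
            intro x hx; simp only [Finset.mem_insert] at hx ⊢; tauto)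
          rw [subdiv_comm] at hk ⊢
          obtain ⟨h1, h2⟩ := lk_subdiv_one hf huv.symm (A8.edge_comm he) hw hv hu hn'
          rw [h1] at hk
          obtain ⟨φ, hφ⟩ := hP τ hτ j hj hk
          exact ⟨_, h2 j φ hφ⟩
        · rw [lk_subdiv_near hf huv he hw hu hv hn] at hk ⊢
          have hfK : FlagC (lk L τ) := flagC_lk hf hτ
          have heK : ({u, v} : Finset ℕ) ∈ lk L τ := by
            rw [lk, Finset.mem_filter]
            refine ⟨he, ?_, ?_⟩
            · rw [Finset.disjoint_left]
              intro x hx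
              rcases Finset.mem_insert.1 hx with rfl | hx
              · exact hu
              · rw [Finset.mem_singleton] at hx; subst hx; exact hv
            · have : ({u, v} : Finset ℕ) ∪ τ = insert u (insert v τ) := by
                ext x; simp only [Finset.mem_union, Finset.mem_insert, Finset.mem_singleton]; tauto
              rw [this]; exact hn
          have hwK : w ∉ verts (lk L τ) := by
            intro h
            obtain ⟨ρ, hρ, hwρ⟩ := Finset.mem_biUnion.1 h
            exact A8.w_notin hw (Finset.mem_filter.1 hρ).1 hwρ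
          have hcard : (insert u (insert v τ)).card = τ.card + 2 := by
            rw [Finset.card_insert_of_notMem, Finset.card_insert_of_notMem hv]
            simp only [Finset.mem_insert, not_or]
            exact ⟨huv, hu⟩
          rw [kap_subdiv hfK huv heK hwK] at hk
          by_cases hK : kap (lk L τ) = 0
          · have hK2 : kap (lk (lk L τ) {u, v}) ≠ 0 := by
              intro h0; rw [hK, h0] at hk; simp at hk
            have hEq := lk_lk_edge hf huv hu hv hn
            have hle := hd _ hn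
            obtain ⟨j', rfl⟩ : ∃ j', j = j' + 1 := ⟨j - 1, by omega⟩
            obtain ⟨φ, hφ⟩ := hP _ hn j' (by omega) (by rw [← hEq]; exact hK2)
            rw [← hEq] at hφ
            exact good_subdiv_new hfK huv heK hwK hφ
          · obtain ⟨φ, hφ⟩ := hP τ hτ j hj hK
            refine ⟨_, good_subdiv_same hfK ?_ huv heK hwK hφ⟩
            intro ρ hρ
            obtain ⟨_, hdis, hun⟩ := Finset.mem_filter.1 hρ
            have := hd _ hun
            rw [Finset.card_union_of_disjoint hdis] at this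
            omega
    · rw [lk_subdiv_far hf huv he hw hτ hn] at hk ⊢
      exact hP τ hτ j hj hk
  · obtain ⟨hτL, hnot, hn⟩ := Finset.mem_filter.1 hτ'
    have hwτ : w ∉ τ' := A8.w_notin hw hτL
    rw [Finset.card_insert_of_notMem hwτ] at hj
    by_cases hu : u ∈ τ'
    · have hv : v ∉ τ' := fun hv => hnot ⟨hu, hv⟩
      have hn' : insert v τ' ∈ L := A8.mono hf hn (Finset.subset_insert _ _)
      rw [lk_subdiv_two hf huv he hw hu hv hn'] at hk ⊢
      exact hP _ hn' j (by rw [Finset.card_insert_of_notMem hv]; exact hj) hk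
    · by_cases hv : v ∈ τ'
      · have hn' : insert u τ' ∈ L := A8.mono hf hn (by
          intro x hx; simp only [Finset.mem_insert] at hx ⊢; tauto)
        rw [subdiv_comm, lk_subdiv_two hf huv.symm (A8.edge_comm he) hw hv hu hn'] at hk ⊢
        exact hP _ hn' j (by rw [Finset.card_insert_of_notMem hu]; exact hj) hk
      · exact absurd (kap_lk_new hf huv he hw hu hv hn) hk

end MP8a95ee
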