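import Pool.Agent.Work.MP_8a95ee_gt.Setup

namespace MP8a95ee

namespace B3

section eval

variable {X : Type} [TopologicalSpace X]

/-- evaluation functional -/
noncomputable def ev {n : ℕ} (c : SSimplex X n → ℝ) (z : SChain X n) : ℝ :=
  z.sum fun σ a => a * c σ

theorem ev_eq {n : ℕ} (c : SSimplex X n → ℝ) (z : SChain X n) :
    ev c z = Finsupp.linearCombination ℝ c z := by
  rw [Finsupp.linearCombination_apply]; rfl

theorem ev_add {n : ℕ} (c : SSimplex X n → ℝ) (z z' : SChain X n) :
    ev c (z + z') = ev c z + ev c z' := by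
  rw [ev_eq, ev_eq, ev_eq, map_add]

theorem ev_bd {n : ℕ} (c : SSimplex X n → ℝ)
    (hc : ∀ σ : SSimplex X (n + 1), ∑ i : Fin (n + 2), (-1 : ℝ) ^ (i : ℕ) * c (face σ i) = 0)
    (b : SChain X (n + 1)) : ev c (bd b) = 0 := by
  rw [ev_eq, bd, Finsupp.sum, map_sum]
  refine Finset.sum_eq_zero fun σ _ => ?_
  rw [map_sum]
  have : ∀ i : Fin (n + 2), Finsupp.linearCombination ℝ c
      (Finsupp.single (face σ i) ((-1 : ℝ) ^ (i : ℕ) * b σ)) =
      b σ * ((-1 : ℝ) ^ (i : ℕ) * c (face σ i)) := by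
    intro i
    rw [Finsupp.linearCombination_single, smul_eq_mul]; ring
  rw [Finset.sum_congr rfl fun i _ => this i, ← Finset.mul_sum, hc, mul_zero]

theorem ev_le {n : ℕ} (c : SSimplex X n → ℝ) (C : ℝ) (hb : ∀ σ, |c σ| ≤ C) (z : SChain X n) :
    |ev c z| ≤ C * l1 z := by
  rw [ev, l1, Finsupp.sum, Finsupp.sum, Finset.mul_sum]
  refine (Finset.abs_sum_le_sum_abs _ _).trans (Finset.sum_le_sum fun σ _ => ?_)
  rw [abs_mul, mul_comm]
  exact mul_le_mul_of_nonneg_right (hb σ) (abs_nonneg _)

end eval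

end B3

open B3 in
theorem eval_eq_zero {X : Type} [TopologicalSpace X] {n : ℕ} (c : SSimplex X n → ℝ) (C : ℝ)
    (hb : ∀ σ, |c σ| ≤ C)
    (hc : ∀ σ : SSimplex X (n + 1), ∑ i : Fin (n + 2), (-1 : ℝ) ^ (i : ℕ) * c (face σ i) = 0)
    (z : SChain X n) (h : ∀ ε > 0, ∃ b : SChain X (n + 1), l1 (z + bd b) < ε) :
    (z.sum fun σ a => a * c σ) = 0 := by
  change ev c z = 0
  by_contra hne
  have hpos : 0 < |ev c z| := abs_pos.2 hne
  obtain ⟨b, hb'⟩ := h (|ev c z| / (|C| + 1)) (by positivity)
  have h1 : ev c (z + bd b) = ev c z := by rw [ev_add, ev_bd c hc, add_zero]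
  have h2 := ev_le c C hb (z + bd b)
  rw [h1] at h2
  have h3 : 0 ≤ l1 (z + bd b) := by
    rw [l1, Finsupp.sum]
    exact Finset.sum_nonneg fun _ _ => abs_nonneg _
  have h4 : C * l1 (z + bd b) ≤ |C| * l1 (z + bd b) :=
    mul_le_mul_of_nonneg_right (le_abs_self C) h3
  have h5 : (|C| + 1) * l1 (z + bd b) < |ev c z| := by
    have : 0 < |C| + 1 := by positivity
    calc (|C| + 1) * l1 (z + bd b) < (|C| + 1) * (|ev c z| / (|C| + 1)) :=
          mul_lt_mul_of_pos_left hb' this
      _ = |ev c z| := by field_simp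
  nlinarith

namespace B3

variable {G : Type} [Group G]

theorem prodR_empty (r : ℕ → G) : prodR r ∅ = 1 := by
  simp [prodR]

/-- product over a list of commuting elements is invariant under permutation -/
theorem prodR_insert (r : ℕ → G) (σ : Finset ℕ)
    (hcomm : ∀ i ∈ σ, ∀ j ∈ σ, r i * r j = r j * r i) (a : ℕ) (A : Finset ℕ) (ha : a ∈ σ)
    (hA : A ⊆ σ) (haA : a ∉ A) : prodR r (insert a A) = r a * prodR r A := by
  have hperm : List.Perm ((insert a A).sort (· ≤ ·)) (a :: A.sort (· ≤ ·)) := by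
    rw [List.perm_ext_iff_of_nodup (Finset.sort_nodup _ _)]
    · intro x
      simp
    · rw [List.nodup_cons]
      exact ⟨by simpa using haA, Finset.sort_nodup _ _⟩
  have h2 : List.Perm (((insert a A).sort (· ≤ ·)).map r) (r a :: (A.sort (· ≤ ·)).map r) := by
    have := hperm.map r
    simpa using this
  rw [prodR, prodR, h2.prod_eq', List.prod_cons]
  rw [List.pairwise_map]
  apply List.Pairwise.imp_of_mem (R := fun _ _ => True) _ (List.pairwise_of_forall fun _ _ => trivial)
  intro x y hx hy _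
  have hsub : ∀ x, x ∈ (insert a A).sort (· ≤ ·) → x ∈ σ := by
    intro x hx
    rw [Finset.mem_sort, Finset.mem_insert] at hx
    rcases hx with rfl | hx
    · exact ha
    · exact hA hx
  exact hcomm x (hsub x hx) y (hsub y hy)

end B3

open B3 in
theorem prodR_mul {G : Type} [Group G] (r : ℕ → G) (σ : Finset ℕ) (hsq : ∀ i ∈ σ, r i * r i = 1)
    (hcomm : ∀ i ∈ σ, ∀ j ∈ σ, r i * r j = r j * r i) (A B : Finset ℕ) (hA : A ⊆ σ)
    (hB : B ⊆ σ) : prodR r A * prodR r B = prodR r (symmDiff A B) := by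
  classical
  induction A using Finset.induction_on with
  | empty => rw [prodR_empty, one_mul, ← Finset.bot_eq_empty, bot_symmDiff]
  | insert a A ha ih =>
    have haσ : a ∈ σ := hA (Finset.mem_insert_self _ _)
    have hAσ : A ⊆ σ := (Finset.subset_insert _ _).trans hA
    rw [prodR_insert r σ hcomm a A haσ hAσ ha, mul_assoc, ih hAσ]
    have hS : symmDiff A B ⊆ σ := by
      intro x hx
      rw [Finset.mem_symmDiff] at hx
      rcases hx with hx | hx
      · exact hAσ hx.1
      · exact hB hx.1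
    by_cases hab : a ∈ B
    · have h1 : symmDiff A B = insert a (symmDiff (insert a A) B) := by
        ext x
        simp only [Finset.mem_symmDiff, Finset.mem_insert]
        by_cases hx : x = a
        · subst hx; simp [ha, hab]
        · simp [hx]
      have h2 : a ∉ symmDiff (insert a A) B := by
        simp [Finset.mem_symmDiff, hab]
      have h3 : symmDiff (insert a A) B ⊆ σ := by
        intro x hx
        apply hS
        rw [h1]
        exact Finset.mem_insert_of_mem hx
      rw [h1, prodR_insert r σ hcomm a _ haσ h3 h2, ← mul_assoc, hsq a haσ, one_mul]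
    · have h1 : symmDiff (insert a A) B = insert a (symmDiff A B) := by
        ext x
        simp only [Finset.mem_symmDiff, Finset.mem_insert]
        by_cases hx : x = a
        · subst hx; simp [hab]
        · simp [hx]
      have h2 : a ∉ symmDiff A B := by
        simp [Finset.mem_symmDiff, ha, hab]
      rw [h1, prodR_insert r σ hcomm a _ haσ hS h2]

namespace B3

theorem affMap_of_notMem {L : Finset (Finset ℕ)} {n : ℕ} {c : Fin (n + 1) → Finset ℕ}
    {σ : Finset ℕ} (h : ∀ j k, symmDiff (c j) (c k) ⊆ σ)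
    (t : stdSimplex ℝ (Fin (n + 1))) {i : ℕ} (hi : i ∉ σ) :
    affMap c t i = corner (c 0) i := by
  have h1 : ∀ k, corner (c k) i = corner (c 0) i := by
    intro k
    have h2 : i ∉ symmDiff (c k) (c 0) := fun h' => hi (h k 0 h')
    rw [Finset.mem_symmDiff] at h2
    unfold corner
    by_cases h3 : i ∈ c k <;> by_cases h4 : i ∈ c 0 <;> simp_all
  unfold affMap
  rw [Finset.sum_congr rfl fun k _ => by rw [h1 k], ← Finset.sum_mul, stdSimplex.sum_eq_one t, one_mul]

theorem abs_corner (T : Finset ℕ) (i : ℕ) : |corner T i| = 1 := by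
  unfold corner; split_ifs <;> simp

theorem abs_affMap_le {n : ℕ} (c : Fin (n + 1) → Finset ℕ) (t : stdSimplex ℝ (Fin (n + 1)))
    (i : ℕ) : |affMap c t i| ≤ 1 := by
  unfold affMap
  refine (Finset.abs_sum_le_sum_abs _ _).trans ?_
  rw [← stdSimplex.sum_eq_one t]
  refine Finset.sum_le_sum fun k _ => ?_
  rw [abs_mul, abs_corner, mul_one, abs_of_nonneg (stdSimplex.zero_le t k)]

theorem affMap_mem {L : Finset (Finset ℕ)} {n : ℕ} {c : Fin (n + 1) → Finset ℕ}
    (hc : Allowed L c) (t : stdSimplex ℝ (Fin (n + 1))) : affMap c t ∈ RZ L := by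
  obtain ⟨h1, σ, hσ, h2⟩ := hc
  refine ⟨abs_affMap_le c t, ?_, σ, hσ, ?_⟩
  · intro i hi
    have hiσ : i ∉ σ := fun h => hi (Finset.mem_biUnion.2 ⟨σ, hσ, h⟩)
    rw [affMap_of_notMem (L := L) h2 t hiσ]
    unfold corner
    rw [if_neg fun h => hi (h1 0 h)]
  · intro i hi
    by_contra hiσ
    rw [affMap_of_notMem (L := L) h2 t hiσ, abs_corner] at hi
    exact lt_irrefl _ hi

theorem continuous_affMap {n : ℕ} (c : Fin (n + 1) → Finset ℕ) :
    Continuous (affMap c) := by
  unfold affMap
  refine continuous_pi fun i => continuous_finsetSum _ fun k _ => ?_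
  refine Continuous.mul ?_ continuous_const
  exact (continuous_apply k).comp continuous_subtype_val

theorem one_mem {L : Finset (Finset ℕ)} (hf : FlagC L) : (fun _ => (1 : ℝ)) ∈ RZ L :=
  ⟨by simp, by simp, ∅, (hf ∅).2 (by simp), by simp⟩

end B3

open B3 in
theorem exists_aff (L : Finset (Finset ℕ)) (hf : FlagC L) (n : ℕ) :
    ∃ a : (Fin (n + 1) → Finset ℕ) → SSimplex (RZ L) n, IsAff L a := by
  classical
  refine ⟨fun c => if h : Allowed L c then
    ⟨fun t => ⟨affMap c t, affMap_mem h t⟩, (continuous_affMap c).subtype_mk _⟩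
    else ContinuousMap.const _ ⟨fun _ => 1, one_mem hf⟩, ?_⟩
  intro c hc t
  simp only [dif_pos hc]
  rfl

theorem allowed_flips (L : Finset (Finset ℕ)) (hf : FlagC L) {n : ℕ} (T : Finset ℕ)
    (hT : T ⊆ verts L) (s : Fin n → ℕ) (hs : Finset.univ.image s ∈ L) : Allowed L (flips T s) := by
  have hpre : ∀ k : Fin (n + 1),
      (Finset.univ.filter fun j : Fin n => (j : ℕ) < (k : ℕ)).image s ⊆ Finset.univ.image s :=
    fun k => Finset.image_subset_image (Finset.filter_subset _ _)
  refine ⟨?_, _, hs, ?_⟩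
  · intro k x hx
    rw [flips, Finset.mem_symmDiff] at hx
    rcases hx with hx | hx
    · exact hT hx.1
    · exact Finset.mem_biUnion.2 ⟨_, hs, hpre k hx.1⟩
  · intro j k x hx
    simp only [flips, Finset.mem_symmDiff] at hx
    by_contra hns
    have h1 := fun h => hns (hpre j h)
    have h2 := fun h => hns (hpre k h)
    tauto

end MP8a95ee
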