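import Pool.Agent.Work.MP_8a95ee_gt.Setup
import Pool.Agent.Work.MP_8a95ee_gt.Bd.B01

/-!
Item B2: the bounded cochain attached to flat transition data and a bounded cocycle.
-/

namespace MP8a95ee

instance simplyConnectedSpace_stdSimplex (n : ℕ) :
    SimplyConnectedSpace (stdSimplex ℝ (Fin (n + 1))) := by
  have : ContractibleSpace (stdSimplex ℝ (Fin (n + 1))) :=
    (convex_stdSimplex ℝ (Fin (n + 1))).contractibleSpace
      ⟨_, single_mem_stdSimplex ℝ (0 : Fin (n + 1))⟩
  infer_instance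

instance locallyPathConnectedSpace_stdSimplex (n : ℕ) :
    LocallyPathConnectedSpace (stdSimplex ℝ (Fin (n + 1))) :=
  (convex_stdSimplex ℝ (Fin (n + 1))).locallyPathConnectedSpace

namespace B2

variable {X G ι : Type} [TopologicalSpace X] [Group G]

lemma lift_mul {D : FlatData X G ι} {A : Type} [TopologicalSpace A] {f : A → X} {g : A → G}
    (hg : D.IsLift f g) (h : G) : D.IsLift f (fun a => h * g a) := by
  intro a j hj
  filter_upwards [hg a j hj] with b hb
  rw [mul_assoc, hb, mul_assoc]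

lemma lift_comp {D : FlatData X G ι} {A B : Type} [TopologicalSpace A] [TopologicalSpace B]
    {f : A → X} {g : A → G} (hg : D.IsLift f g) {p : B → A} (hp : Continuous p) :
    D.IsLift (fun b => f (p b)) (fun b => g (p b)) := by
  intro b j hj
  exact hp.continuousAt.eventually (hg (p b) j hj)

lemma const_of_local {A : Type} [TopologicalSpace A] [PreconnectedSpace A] {Y : Type} (u : A → Y)
    (h : ∀ a, ∀ᶠ b in nhds a, u b = u a) (a b : A) : u a = u b := by
  have hl : IsLocallyConstant u := (IsLocallyConstant.iff_eventually_eq u).2 h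
  exact hl.apply_eq_of_preconnectedSpace a b

lemma lift_unique {D : FlatData X G ι} {A : Type} [TopologicalSpace A] [PreconnectedSpace A]
    {f : A → X} {g g' : A → G} (hg : D.IsLift f g) (hg' : D.IsLift f g') (a₀ : A) :
    ∀ a, g' a = (g' a₀ * (g a₀)⁻¹) * g a := by
  have key : ∀ a b, g' a * (g a)⁻¹ = g' b * (g b)⁻¹ := by
    refine const_of_local (fun a => g' a * (g a)⁻¹) fun a => ?_
    have hj := D.mem_idx (f a)
    filter_upwards [hg a _ hj, hg' a _ hj] with b h1 h2
    have e : g' b * (g b)⁻¹ = (g' b * D.tr (D.idx (f b)) (D.idx (f a))) *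
        (g b * D.tr (D.idx (f b)) (D.idx (f a)))⁻¹ := by group
    have e' : g' a * (g a)⁻¹ = (g' a * D.tr (D.idx (f a)) (D.idx (f a))) *
        (g a * D.tr (D.idx (f a)) (D.idx (f a)))⁻¹ := by group
    rw [e, e', h1, h2]
  intro a
  rw [key a₀ a]
  group

/-- The sign attached to a lift at a point. -/
def sgn (D : FlatData X G ι) (s : ι → ℤˣ) (χ : G →* ℤˣ) {A : Type} (f : A → X) (g : A → G)
    (a : A) : ℤˣ := s (D.idx (f a)) * χ (g a)

lemma sgn_const {D : FlatData X G ι} {s : ι → ℤˣ} {χ : G →* ℤˣ}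
    (hs : ∀ i j x, x ∈ D.U i → x ∈ D.U j → s j * χ (D.tr i j) = s i) {A : Type}
    [TopologicalSpace A] [PreconnectedSpace A] {f : A → X} (hf : Continuous f) {g : A → G}
    (hg : D.IsLift f g) (a b : A) : sgn D s χ f g a = sgn D s χ f g b := by
  refine const_of_local (fun a => sgn D s χ f g a) (fun a => ?_) a b
  have hj := D.mem_idx (f a)
  have hopen : ∀ᶠ b in nhds a, f b ∈ D.U (D.idx (f a)) :=
    hf.continuousAt.eventually ((D.isOpen_U _).mem_nhds hj)
  have gen : ∀ b, f b ∈ D.U (D.idx (f a)) → sgn D s χ f g b =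
      s (D.idx (f a)) * χ (g b * D.tr (D.idx (f b)) (D.idx (f a))) := by
    intro b hb
    unfold sgn
    rw [← hs (D.idx (f b)) (D.idx (f a)) (f b) (D.mem_idx _) hb, map_mul]
    rw [mul_assoc, mul_comm (χ (D.tr _ _)) (χ (g b))]
  filter_upwards [hg a _ hj, hopen] with b h1 h2
  rw [gen b h2, h1, ← gen a hj]

lemma val_eq {D : FlatData X G ι} {s : ι → ℤˣ} {χ : G →* ℤˣ} {n : ℕ} (K : BCocycle G χ n)
    {σ : SSimplex X n} {g g' : stdSimplex ℝ (Fin (n + 1)) → G} (hg : D.IsLift σ g)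
    (hg' : D.IsLift σ g') :
    ((sgn D s χ σ g' (vtx 0) : ℤ) : ℝ) * K.F (fun i => g' (vtx i)) =
      ((sgn D s χ σ g (vtx 0) : ℤ) : ℝ) * K.F (fun i => g (vtx i)) := by
  have h := lift_unique hg hg' (vtx 0)
  set c := g' (vtx 0) * (g (vtx 0))⁻¹ with hc
  have e1 : (fun i => g' (vtx i)) = fun i : Fin (n + 1) => c * g (vtx i) := by
    ext i; exact h (vtx i)
  rw [e1, K.equivar]
  have e2 : sgn D s χ σ g' (vtx 0) = χ c * sgn D s χ σ g (vtx 0) := by
    unfold sgn
    rw [h (vtx 0), map_mul, mul_left_comm]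
  rw [e2]
  have e3 : ((χ c : ℤ) : ℝ) * ((χ c : ℤ) : ℝ) = 1 := by
    rcases Int.units_eq_one_or (χ c) with h | h <;> simp [h]
  push_cast
  linear_combination (((sgn D s χ σ g (vtx 0) : ℤ) : ℝ) * K.F (fun i => g (vtx i))) * e3

lemma abs_unit (u : ℤˣ) : |((u : ℤ) : ℝ)| = 1 := by
  rcases Int.units_eq_one_or u with h | h <;> simp [h]

end B2

theorem cochain_exists {X G ι : Type} [TopologicalSpace X] [Group G] (D : FlatData X G ι) (s : ι → ℤˣ) (χ : G →* ℤˣ)
    (hs : ∀ i j x, x ∈ D.U i → x ∈ D.U j → s j * χ (D.tr i j) = s i) {n : ℕ}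
    (K : BCocycle G χ n) :
    ∃ c : SSimplex X n → ℝ, (∀ σ, |c σ| ≤ K.C) ∧
      (∀ σ : SSimplex X (n + 1), ∑ i : Fin (n + 2), (-1 : ℝ) ^ (i : ℕ) * c (face σ i) = 0) ∧
      ∀ (σ : SSimplex X n) (g : stdSimplex ℝ (Fin (n + 1)) → G), D.IsLift σ g →
        c σ = (((s (D.idx (σ (vtx 0))) * χ (g (vtx 0)) : ℤˣ) : ℤ) : ℝ) *
          K.F (fun i => g (vtx i)) := by
  classical
  choose g hg _ using fun σ : SSimplex X n => exists_lift D σ (vtx 0) 1
  refine ⟨fun σ => ((B2.sgn D s χ σ (g σ) (vtx 0) : ℤ) : ℝ) * K.F (fun i => g σ (vtx i)),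
    ?_, ?_, ?_⟩
  · intro σ
    rw [abs_mul, B2.abs_unit, one_mul]
    exact K.bound _
  · intro σ
    obtain ⟨G', hG', -⟩ := exists_lift D σ (vtx 0) 1
    have hface : ∀ i : Fin (n + 2), ((B2.sgn D s χ (face σ i) (g (face σ i)) (vtx 0) : ℤ) : ℝ) *
        K.F (fun k => g (face σ i) (vtx k)) =
        ((B2.sgn D s χ σ G' (vtx 0) : ℤ) : ℝ) *
          K.F (fun k => (fun l => G' (vtx l)) (i.succAbove k)) := by
      intro i
      have hl : D.IsLift (face σ i) (fun b => G' (stdSimplex.map i.succAbove b)) :=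
        B2.lift_comp hG' (stdSimplex.continuous_map i.succAbove)
      rw [B2.val_eq (s := s) K hl (hg (face σ i))]
      have e1 : ∀ k : Fin (n + 1), stdSimplex.map i.succAbove (vtx k) = vtx (i.succAbove k) := by
        intro k
        exact stdSimplex.map_vertex _ _
      have e2 : B2.sgn D s χ (face σ i) (fun b => G' (stdSimplex.map i.succAbove b)) (vtx 0) =
          B2.sgn D s χ σ G' (vtx 0) := by
        have e3 : B2.sgn D s χ (face σ i) (fun b => G' (stdSimplex.map i.succAbove b)) (vtx 0) =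
            B2.sgn D s χ σ G' (vtx (i.succAbove 0)) := by
          unfold B2.sgn
          have h4 : (face σ i) (vtx 0) = σ (vtx (i.succAbove 0)) := by
            rw [← e1 0]; rfl
          rw [h4]
          simp only [e1]
        rw [e3]
        exact B2.sgn_const hs σ.continuous hG' _ _
      rw [e2]
      simp only [e1]
    simp only [hface]
    have h := K.cocycle (fun l => G' (vtx l))
    have : ∀ i : Fin (n + 2), (-1 : ℝ) ^ (i : ℕ) * (((B2.sgn D s χ σ G' (vtx 0) : ℤ) : ℝ) *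
          K.F (fun k => (fun l => G' (vtx l)) (i.succAbove k))) =
        ((B2.sgn D s χ σ G' (vtx 0) : ℤ) : ℝ) * ((-1 : ℝ) ^ (i : ℕ) *
          K.F (fun k => (fun l => G' (vtx l)) (i.succAbove k))) := fun i => by ring
    simp only [this]
    rw [← Finset.mul_sum, h, mul_zero]
  · intro σ g' hg'
    exact B2.val_eq (s := s) K hg' (hg σ)

end MP8a95ee
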