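import Pool.Agent.Work.MP_8a95ee_gt.Bd.B01
import Pool.Agent.Work.MP_8a95ee_gt.B2
import Pool.Agent.Work.MP_8a95ee_gt.B3

namespace MP8a95ee

namespace B6

variable {G : Type} [Group G]

theorem chi_prodR (χ : G →* ℤˣ) (r : ℕ → G) (A : Finset ℕ) (h : ∀ i ∈ A, χ (r i) = -1) :
    χ (prodR r A) = (-1) ^ A.card := by
  rw [prodR, map_list_prod, List.map_map]
  have : (A.sort (· ≤ ·)).map (χ ∘ r) = List.replicate A.card (-1) := by
    rw [List.eq_replicate_iff]
    refine ⟨by simp, ?_⟩
    intro b hb
    obtain ⟨i, hi, rfl⟩ := List.mem_map.1 hb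
    exact h i ((Finset.mem_sort _).1 hi)
  rw [this, List.prod_replicate]

theorem prodR_singleton (r : ℕ → G) (x : ℕ) : prodR r {x} = r x := by
  simp [prodR]

theorem prodR_empty (r : ℕ → G) : prodR r ∅ = 1 := by
  simp [prodR]

theorem parity (A B : Finset ℕ) :
    (-1 : ℤˣ) ^ B.card * (-1) ^ (symmDiff A B).card = (-1) ^ A.card := by
  have h1 : (symmDiff A B).card = (A \ B).card + (B \ A).card := by
    rw [symmDiff_def, Finset.sup_eq_union, Finset.card_union_of_disjoint]
    exact disjoint_sdiff_sdiff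
  have h2 : (A \ B).card + (A ∩ B).card = A.card := Finset.card_sdiff_add_card_inter A B
  have h3 : (B \ A).card + (A ∩ B).card = B.card := by
    rw [Finset.inter_comm]; exact Finset.card_sdiff_add_card_inter B A
  rw [← pow_add, h1, ← h3, ← h2]
  have : (B \ A).card + (A ∩ B).card + ((A \ B).card + (B \ A).card) =
      ((A \ B).card + (A ∩ B).card) + 2 * (B \ A).card := by ring
  rw [this, pow_add, pow_mul]
  simp

/-- the set of the first entries -/
def pre {n : ℕ} (s : Fin n → ℕ) (k : ℕ) : Finset ℕ :=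
  (Finset.univ.filter fun j : Fin n => (j : ℕ) < k).image s

theorem partialProd_eq (r : ℕ → G) {n : ℕ} (s : Fin n → ℕ) (hs : Function.Injective s)
    (hsq : ∀ i ∈ Finset.univ.image s, r i * r i = 1)
    (hcomm : ∀ i ∈ Finset.univ.image s, ∀ j ∈ Finset.univ.image s, r i * r j = r j * r i)
    (k : Fin (n + 1)) :
    Fin.partialProd (fun i => r (s i)) k = prodR r (pre s k) := by
  have key : ∀ k : ℕ, ∀ hk : k < n + 1,
      Fin.partialProd (fun i => r (s i)) ⟨k, hk⟩ = prodR r (pre s k) := by
    intro k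
    induction k with
    | zero =>
      intro hk
      have : pre s 0 = ∅ := by simp [pre]
      rw [this, prodR_empty]
      exact Fin.partialProd_zero _
    | succ k ih =>
      intro hk
      have hk' : k < n := by omega
      have h1 := Fin.partialProd_succ (fun i => r (s i)) ⟨k, hk'⟩
      have h2 : (⟨k, hk'⟩ : Fin n).succ = ⟨k + 1, hk⟩ := rfl
      have h3 : (⟨k, hk'⟩ : Fin n).castSucc = ⟨k, by omega⟩ := rfl
      rw [h2, h3, ih (by omega)] at h1
      have hsub1 : pre s k ⊆ Finset.univ.image s :=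
        Finset.image_subset_image (Finset.filter_subset _ _)
      have hsub2 : ({s ⟨k, hk'⟩} : Finset ℕ) ⊆ Finset.univ.image s := by
        intro x hx
        rw [Finset.mem_singleton] at hx
        subst hx
        exact Finset.mem_image_of_mem _ (Finset.mem_univ _)
      rw [h1, ← prodR_singleton r (s ⟨k, hk'⟩),
        prodR_mul r (Finset.univ.image s) hsq hcomm _ _ hsub1 hsub2]
      congr 1
      have hdis : Disjoint (pre s k) {s ⟨k, hk'⟩} := by
        rw [Finset.disjoint_singleton_right]
        intro h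
        obtain ⟨j, hj, hjs⟩ := Finset.mem_image.1 h
        have := hs hjs
        subst this
        simp at hj
      rw [Disjoint.symmDiff_eq_sup hdis, Finset.sup_eq_union]
      ext x
      simp only [pre, Finset.mem_union, Finset.mem_image, Finset.mem_filter, Finset.mem_univ,
        true_and, Finset.mem_singleton]
      constructor
      · rintro (⟨j, hj, rfl⟩ | rfl)
        · exact ⟨j, by omega, rfl⟩
        · exact ⟨⟨k, hk'⟩, by simp, rfl⟩
      · rintro ⟨j, hj, rfl⟩
        by_cases h : (j : ℕ) < k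
        · exact Or.inl ⟨j, h, rfl⟩
        · right
          congr 1
          ext
          simp only
          omega
  exact key k k.2

theorem flips_zero {n : ℕ} (T : Finset ℕ) (s : Fin n → ℕ) : flips T s 0 = T := by
  simp [flips]

theorem inj_of_ne_zero {L : Finset (Finset ℕ)} {n : ℕ} {o : (Fin n → ℕ) → ℤ}
    (ho : IsOrient L n o) {s : Fin n → ℕ} (hs : o s ≠ 0) : Function.Injective s := by
  intro i j hij
  by_contra hne
  have h1 := ho.1 s i j hne
  have h2 : s ∘ Equiv.swap i j = s := by
    funext k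
    simp only [Function.comp_apply]
    rcases eq_or_ne k i with rfl | hki
    · rw [Equiv.swap_apply_left, hij]
    · rcases eq_or_ne k j with rfl | hkj
      · rw [Equiv.swap_apply_right, hij]
      · rw [Equiv.swap_apply_of_ne_of_ne hki hkj]
  rw [h2] at h1
  exact hs (by omega)

end B6

open B6 in
theorem topological (L : Finset (Finset ℕ)) (hf : FlagC L) {n : ℕ}
    (o : (Fin (n + 1) → ℕ) → ℤ) (ho : IsOrient L (n + 1) o) {G : Type} [Group G]
    (χ : G →* ℤˣ) (K : BCocycle G χ (n + 1)) (r : ℕ → G)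
    (hsq : ∀ i ∈ verts L, r i * r i = 1)
    (hcomm : ∀ σ ∈ L, ∀ i ∈ σ, ∀ j ∈ σ, r i * r j = r j * r i)
    (hχ : ∀ i ∈ verts L, χ (r i) = -1)
    (hvol : ∀ z : SChain (RZ L) (n + 1), bd z = 0 → ∀ ε > 0,
      ∃ b : SChain (RZ L) (n + 2), l1 (z + bd b) < ε) :
    ∑ s ∈ Fintype.piFinset (fun _ : Fin (n + 1) => verts L),
      (o s : ℝ) * K.F (Fin.partialProd fun i => r (s i)) = 0 := by
  classical
  obtain ⟨D, hU, hidx, htr⟩ := flatRZ_exists L r hsq hcomm
  have hs : ∀ i j x, x ∈ D.U i → x ∈ D.U j →
      (-1 : ℤˣ) ^ j.card * χ (D.tr i j) = (-1 : ℤˣ) ^ i.card := by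
    intro i j x hi hj
    rw [hU] at hi hj
    rw [htr]
    have hsub : symmDiff i j ⊆ verts L := by
      intro y hy
      by_contra hyL
      have hx1 : ((x : RZ L) : ℕ → ℝ) y = 1 := x.2.2.1 y hyL
      rw [Finset.mem_symmDiff] at hy
      rcases hy with ⟨h, _⟩ | ⟨h, _⟩
      · exact hi.1 y h hx1
      · exact hj.1 y h hx1
    rw [chi_prodR χ r _ fun k hk => hχ k (hsub hk)]
    exact parity i j
  obtain ⟨c, hcb, hcc, hcl⟩ := cochain_exists D (fun T => (-1 : ℤˣ) ^ T.card) χ hs K
  obtain ⟨a, ha⟩ := exists_aff L hf (n + 1)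
  have hz := bd_zchain L hf a ha o ho
  have h0 := eval_eq_zero c K.C hcb hcc (zchain L a o) (hvol _ hz)
  -- the value on one simplex
  have key : ∀ T ∈ (verts L).powerset, ∀ s : Fin (n + 1) → ℕ,
      (-1 : ℝ) ^ T.card * (o s : ℝ) * c (a (flips T s)) =
        (o s : ℝ) * K.F (Fin.partialProd fun i => r (s i)) := by
    intro T hT s
    by_cases hos : o s = 0
    · simp [hos]
    have him := ho.2.1 s hos
    have hinj := inj_of_ne_zero ho hos
    have hTs := Finset.mem_powerset.1 hT
    have hall := allowed_flips L hf T hTs s him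
    obtain ⟨hl, hneg⟩ := isLift_aff L hf r hsq hcomm D hU hidx htr (flips T s) hall
      (a (flips T s)) (ha _ hall)
    have h1 := hcl _ _ hl
    simp only [hneg, hidx, flips_zero, symmDiff_self, Finset.bot_eq_empty, prodR_empty, map_one,
      mul_one] at h1
    have hsub : Finset.univ.image s ⊆ verts L := fun x hx => Finset.mem_biUnion.2 ⟨_, him, hx⟩
    have h2 : (fun i => prodR r (symmDiff T (flips T s i))) = Fin.partialProd fun i => r (s i) := by
      funext k
      rw [partialProd_eq r s hinj (fun i hi => hsq i (hsub hi)) (hcomm _ him) k]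
      congr 1
      simp only [flips, pre, symmDiff_symmDiff_cancel_left]
    rw [h2] at h1
    rw [h1]
    have h3 : (((-1 : ℤˣ) ^ T.card : ℤˣ) : ℤ) = (-1) ^ T.card := by simp
    rw [h3]
    push_cast
    have h4 : (-1 : ℝ) ^ T.card * (-1 : ℝ) ^ T.card = 1 := by
      rw [← mul_pow]; simp
    calc (-1 : ℝ) ^ T.card * (o s : ℝ) * ((-1) ^ T.card * K.F (Fin.partialProd fun i => r (s i)))
        = ((-1 : ℝ) ^ T.card * (-1 : ℝ) ^ T.card) * ((o s : ℝ) *
            K.F (Fin.partialProd fun i => r (s i))) := by ring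
      _ = _ := by rw [h4, one_mul]
  have hsum : ((zchain L a o).sum fun σ x => x * c σ) =
      ∑ T ∈ (verts L).powerset, ∑ s ∈ Fintype.piFinset (fun _ : Fin (n + 1) => verts L),
        (-1 : ℝ) ^ T.card * (o s : ℝ) * c (a (flips T s)) := by
    have hlin : ∀ z : SChain (RZ L) (n + 1), (z.sum fun σ x => x * c σ) =
        Finsupp.linearCombination ℝ c z := by
      intro z
      rw [Finsupp.linearCombination_apply]
      rfl
    rw [hlin, zchain, map_sum]
    refine Finset.sum_congr rfl fun T _ => ?_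
    rw [map_sum]
    refine Finset.sum_congr rfl fun s _ => ?_
    rw [Finsupp.linearCombination_single]
    rfl
  rw [hsum, Finset.sum_congr rfl fun T hT => Finset.sum_congr rfl fun s _ => key T hT s,
    Finset.sum_const, Finset.card_powerset, nsmul_eq_mul] at h0
  rcases mul_eq_zero.1 h0 with h | h
  · exfalso
    have : ((2 ^ (verts L).card : ℕ) : ℝ) ≠ 0 := by positivity
    exact this h
  · exact h

end MP8a95ee
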