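import Pool.Agent.Work.MP_8a95ee_gt.Defs

/-!
Auxiliary definitions for the proof (they do not occur in the final statement).
-/

namespace MP8a95ee

/-! ### Combinatorics (part A) -/

/-- flag complexes (this includes: downward closed, contains the empty face) -/
def FlagC (L : Finset (Finset ℕ)) : Prop :=
  ∀ σ : Finset ℕ, σ ∈ L ↔ ∀ x ∈ σ, ∀ y ∈ σ, ({x, y} : Finset ℕ) ∈ L

/-- link of a face -/
def lk (L : Finset (Finset ℕ)) (τ : Finset ℕ) : Finset (Finset ℕ) :=
  L.filter fun ρ => Disjoint ρ τ ∧ ρ ∪ τ ∈ L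

/-- reduced Euler characteristic weight -/
def kap (L : Finset (Finset ℕ)) : ℚ := ∑ σ ∈ L, (-1 / 2 : ℚ) ^ σ.card

/-- the distinguished set of labels in `j` blocks -/
def Fset (j : ℕ) : Finset (ℕ × ZMod 5) := Finset.range j ×ˢ ({0, 1} : Finset (ZMod 5))

/-- `φ` labels the vertices by pairs (block, element of Z/5); adjacent vertices in the same block
have labels at distance at most one; exactly one face with `2 j` vertices is mapped onto
`Fset j`. -/
def Good (K : Finset (Finset ℕ)) (j : ℕ) (φ : ℕ → ℕ × ZMod 5) : Prop :=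
  (∀ i ∈ verts K, (φ i).1 < j) ∧
  (∀ x y : ℕ, ({x, y} : Finset ℕ) ∈ K → (φ x).1 = (φ y).1 →
    (φ x).2 = (φ y).2 ∨ (φ x).2 = (φ y).2 + 1 ∨ (φ y).2 = (φ x).2 + 1) ∧
  ∃! σ : Finset ℕ, σ ∈ K ∧ σ.card = 2 * j ∧ σ.image φ = Fset j

/-- the inductive property P -/
def PropP (n : ℕ) (L : Finset (Finset ℕ)) : Prop :=
  ∀ τ ∈ L, ∀ j : ℕ, τ.card + 2 * j = n → kap (lk L τ) ≠ 0 → ∃ φ, Good (lk L τ) j φ

/-- orientation cycle: an alternating function on ordered `n`-tuples of vertices, supported on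
(ordered) faces, nonzero on every ordered facet, with vanishing boundary -/
def IsOrient (L : Finset (Finset ℕ)) (n : ℕ) (o : (Fin n → ℕ) → ℤ) : Prop :=
  (∀ (s : Fin n → ℕ) (i j : Fin n), i ≠ j → o (s ∘ Equiv.swap i j) = - o s) ∧
  (∀ s : Fin n → ℕ, o s ≠ 0 → Finset.univ.image s ∈ L) ∧
  (∀ s : Fin n → ℕ, Function.Injective s → Finset.univ.image s ∈ L → o s ≠ 0) ∧
  (∀ (s : Fin n → ℕ) (i : Fin n), ∑ x ∈ verts L, o (Function.update s i x) = 0)

/-! ### Flat transition data, lifts (part B) -/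

/-- an open cover of `X` (with a chosen member for every point) and constant transition elements
in the group `G` -/
structure FlatData (X G ι : Type) [TopologicalSpace X] [Group G] where
  U : ι → Set X
  isOpen_U : ∀ i, IsOpen (U i)
  idx : X → ι
  mem_idx : ∀ x, x ∈ U (idx x)
  tr : ι → ι → G
  tr_self : ∀ i x, x ∈ U i → tr i i = 1
  tr_comp : ∀ i j k x, x ∈ U i → x ∈ U j → x ∈ U k → tr i j * tr j k = tr i k

/-- `g` is a parallel frame along `f`: in every chart it is locally constant -/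
def FlatData.IsLift {X G ι : Type} [TopologicalSpace X] [Group G] (D : FlatData X G ι)
    {A : Type} [TopologicalSpace A] (f : A → X) (g : A → G) : Prop :=
  ∀ a : A, ∀ j : ι, f a ∈ D.U j →
    ∀ᶠ b in nhds a, g b * D.tr (D.idx (f b)) j = g a * D.tr (D.idx (f a)) j

/-- bounded homogeneous cocycle of degree `n` on `G`, equivariant with sign character `χ` -/
structure BCocycle (G : Type) [Group G] (χ : G →* ℤˣ) (n : ℕ) where
  F : (Fin (n + 1) → G) → ℝ
  C : ℝ
  bound : ∀ v, |F v| ≤ C
  equivar : ∀ (h : G) (v : Fin (n + 1) → G), F (fun i => h * v i) = ((χ h : ℤ) : ℝ) * F v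
  cocycle : ∀ v : Fin (n + 2) → G,
    ∑ i : Fin (n + 2), (-1 : ℝ) ^ (i : ℕ) * F (fun k => v (i.succAbove k)) = 0

/-- the `i`-th vertex of the standard simplex -/
noncomputable abbrev vtx {n : ℕ} (i : Fin (n + 1)) : stdSimplex ℝ (Fin (n + 1)) :=
  stdSimplex.vertex i

/-- product of the elements `r i`, `i ∈ A`, in increasing order -/
def prodR {G : Type} [Group G] (r : ℕ → G) (A : Finset ℕ) : G :=
  ((A.sort (· ≤ ·)).map r).prod

/-- charts of the real moment-angle complex, around the corners of the cube -/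
def chartU (L : Finset (Finset ℕ)) (T : Finset ℕ) : Set (RZ L) :=
  {x | (∀ i ∈ T, (x : ℕ → ℝ) i ≠ 1) ∧ (∀ i ∈ verts L, i ∉ T → (x : ℕ → ℝ) i ≠ -1)}

open Classical in
/-- the set of negative coordinates of a point -/
noncomputable def negSet (L : Finset (Finset ℕ)) (x : RZ L) : Finset ℕ :=
  (verts L).filter fun i => (x : ℕ → ℝ) i < 0

/-- the corner of the cube with negative coordinates exactly in `T` -/
def corner (T : Finset ℕ) : ℕ → ℝ := fun i => if i ∈ T then -1 else 1

/-- the affine simplex with given corners of the cube as vertices -/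
def affMap {n : ℕ} (c : Fin (n + 1) → Finset ℕ) (t : stdSimplex ℝ (Fin (n + 1))) : ℕ → ℝ :=
  fun i => ∑ k, t k * corner (c k) i

/-- tuples of corners of a common cell -/
def Allowed (L : Finset (Finset ℕ)) {n : ℕ} (c : Fin (n + 1) → Finset ℕ) : Prop :=
  (∀ k, c k ⊆ verts L) ∧ ∃ σ ∈ L, ∀ j k, symmDiff (c j) (c k) ⊆ σ

/-- `c = affS`: a family of singular simplices of `RZ L`, one for each tuple of corners, which are
the affine simplices whenever the tuple is allowed -/
def IsAff (L : Finset (Finset ℕ)) {n : ℕ} (a : (Fin (n + 1) → Finset ℕ) → SSimplex (RZ L) n) :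
    Prop :=
  ∀ c, Allowed L c → ∀ t, ((a c t : RZ L) : ℕ → ℝ) = affMap c t

/-- the tuple of corners obtained from the corner `T` by flipping the signs of the coordinates
`s 0, s 1, ...` one after the other -/
def flips {n : ℕ} (T : Finset ℕ) (s : Fin n → ℕ) (k : Fin (n + 1)) : Finset ℕ :=
  symmDiff T ((Finset.univ.filter fun j : Fin n => (j : ℕ) < (k : ℕ)).image s)

/-- the cycle -/
noncomputable def zchain (L : Finset (Finset ℕ)) {n : ℕ}
    (a : (Fin (n + 1) → Finset ℕ) → SSimplex (RZ L) n) (o : (Fin n → ℕ) → ℤ) :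
    SChain (RZ L) n :=
  ∑ T ∈ (verts L).powerset, ∑ s ∈ Fintype.piFinset (fun _ : Fin n => verts L),
    Finsupp.single (a (flips T s)) ((-1 : ℝ) ^ T.card * (o s : ℝ))

/-! ### The group and its cocycle (parts C, D) -/

/-- the data of the pentagon group: a group with a sign character, five involutions with
neighbouring ones commuting, and a bounded sign-equivariant normalized 2-cocycle which detects
exactly one corner of the pentagon -/
structure PentData where
  G : Type
  inst : Group G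
  χ : G →* ℤˣ
  R : ZMod 5 → G
  κ : G → G → G → ℝ
  C : ℝ
  sq : ∀ i, R i * R i = 1
  comm : ∀ i, R i * R (i + 1) = R (i + 1) * R i
  χR : ∀ i, χ (R i) = -1
  equivar : ∀ h a b c, κ (h * a) (h * b) (h * c) = ((χ h : ℤ) : ℝ) * κ a b c
  cocycle : ∀ a b c d, κ b c d - κ a c d + κ a b d - κ a b c = 0
  degl : ∀ a b, κ a a b = 0
  degr : ∀ a b, κ a b b = 0
  bound : ∀ a b c, |κ a b c| ≤ C
  q0 : κ 1 (R 0) (R 0 * R 1) - κ 1 (R 1) (R 1 * R 0) = 1
  q1 : ∀ i, i ≠ 0 → κ 1 (R i) (R i * R (i + 1)) - κ 1 (R (i + 1)) (R (i + 1) * R i) = 0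

attribute [instance] PentData.inst

/-- the sign character of the product group -/
def prodChi (P : PentData) (m : ℕ) : (ℕ → P.G) →* ℤˣ where
  toFun h := ∏ j ∈ Finset.range m, P.χ (h j)
  map_one' := by simp
  map_mul' a b := by simp [Finset.prod_mul_distrib]

/-- the product (cup product) cocycle -/
def cupF (P : PentData) (m : ℕ) (v : Fin (2 * m + 1) → (ℕ → P.G)) : ℝ :=
  ∏ j : Fin m, P.κ (v ⟨2 * j, by omega⟩ j) (v ⟨2 * j + 1, by omega⟩ j) (v ⟨2 * j + 2, by omega⟩ j)

/-- the involution attached to a labelled vertex: `R (label)` in the block of the vertex -/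
noncomputable def refl (P : PentData) (φ : ℕ → ℕ × ZMod 5) (i : ℕ) : ℕ → P.G :=
  Pi.mulSingle (φ i).1 (P.R (φ i).2)

end MP8a95ee
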