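import Mathlib
import Pool.Agent.Work.MP_8a95ee_gt.Setup

/-!
# Item C: the pentagon data

The group is `PGL(2, ℚ)`, the sign character is the sign of the determinant, the reflections are
given by matrices of trace zero and negative determinant, the cocycle is the average over two
rational points of the orientation cocycle of the projective line.
-/

namespace MP8a95ee.C

open Matrix
open scoped MatrixGroups

/-- determinant of two vectors -/
def d (a b : ℚ × ℚ) : ℚ := a.1 * b.2 - a.2 * b.1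

/-- orientation of three vectors, up to scaling -/
def or3 (a b c : ℚ × ℚ) : ℤ := (SignType.sign (d a b * d b c * d c a) : ℤ)

/-- upper half plane -/
def Up (a : ℚ × ℚ) : Prop := 0 < a.2 ∨ (a.2 = 0 ∧ 0 < a.1)

theorem d_self (a : ℚ × ℚ) : d a a = 0 := by unfold d; ring

theorem d_swap (a b : ℚ × ℚ) : d b a = - d a b := by unfold d; ring

/-- no positive relation between vectors of the upper half plane -/
theorem rel_zero (a b c : ℚ × ℚ) (x y z : ℚ) (ha : Up a) (hb : Up b) (hc : Up c)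
    (hx : 0 ≤ x) (hy : 0 ≤ y) (hz : 0 ≤ z)
    (h1 : a.1 * x + b.1 * y + c.1 * z = 0) (h2 : a.2 * x + b.2 * y + c.2 * z = 0) :
    x = 0 ∧ y = 0 ∧ z = 0 := by
  have key : ∀ (v : ℚ × ℚ) (t : ℚ), Up v → 0 ≤ t → 0 ≤ v.2 * t ∧ (v.2 * t = 0 → 0 ≤ v.1 * t) ∧
      (v.2 * t = 0 → v.1 * t = 0 → t = 0) := by
    intro v t hv ht
    rcases hv with hv | ⟨hv, hv'⟩
    · refine ⟨mul_nonneg hv.le ht, fun h => ?_, fun h _ => ?_⟩
      · rcases mul_eq_zero.1 h with h | h
        · exact absurd h hv.ne'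
        · rw [h, mul_zero]
      · rcases mul_eq_zero.1 h with h | h
        · exact absurd h hv.ne'
        · exact h
    · refine ⟨by rw [hv, zero_mul], fun _ => mul_nonneg hv'.le ht, fun _ h => ?_⟩
      rcases mul_eq_zero.1 h with h | h
      · exact absurd h hv'.ne'
      · exact h
  obtain ⟨a1, a2, a3⟩ := key a x ha hx
  obtain ⟨b1, b2, b3⟩ := key b y hb hy
  obtain ⟨c1, c2, c3⟩ := key c z hc hz
  have ea : a.2 * x = 0 := by linarith
  have eb : b.2 * y = 0 := by linarith
  have ec : c.2 * z = 0 := by linarith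
  have a2 := a2 ea
  have b2 := b2 eb
  have c2 := c2 ec
  exact ⟨a3 ea (by linarith), b3 eb (by linarith), c3 ec (by linarith)⟩

/-- in the upper half plane the orientation is a coboundary -/
theorem or3_up (a b c : ℚ × ℚ) (ha : Up a) (hb : Up b) (hc : Up c) :
    or3 a b c = -((SignType.sign (d a b) : ℤ) + (SignType.sign (d b c) : ℤ) +
      (SignType.sign (d c a) : ℤ)) := by
  have h1 : c.1 * d a b + a.1 * d b c + b.1 * d c a = 0 := by unfold d; ring
  have h2 : c.2 * d a b + a.2 * d b c + b.2 * d c a = 0 := by unfold d; ring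
  unfold or3
  rw [sign_mul, sign_mul]
  generalize d a b = x at *
  generalize d b c = y at *
  generalize d c a = z at *
  have hp : 0 ≤ x → 0 ≤ y → 0 ≤ z → x = 0 ∧ y = 0 ∧ z = 0 := fun hx hy hz =>
    rel_zero c a b x y z hc ha hb hx hy hz h1 h2
  have hn : x ≤ 0 → y ≤ 0 → z ≤ 0 → x = 0 ∧ y = 0 ∧ z = 0 := fun hx hy hz => by
    have := rel_zero c a b (-x) (-y) (-z) hc ha hb (by linarith) (by linarith) (by linarith)
      (by linarith) (by linarith)
    exact ⟨by linarith [this.1], by linarith [this.2.1], by linarith [this.2.2]⟩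
  rcases lt_trichotomy x 0 with hx | hx | hx <;> rcases lt_trichotomy y 0 with hy | hy | hy <;>
    rcases lt_trichotomy z 0 with hz | hz | hz
  all_goals first
    | (exfalso; have := hp (by linarith) (by linarith) (by linarith);
       obtain ⟨h1, h2, h3⟩ := this; linarith)
    | (exfalso; have := hn (by linarith) (by linarith) (by linarith);
       obtain ⟨h1, h2, h3⟩ := this; linarith)
    | simp [hx, hy, hz, sign_neg, sign_pos]

open Classical in
/-- the representative in the upper half plane -/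
noncomputable def nrm (a : ℚ × ℚ) : ℚ × ℚ := if Up a then a else (-a.1, -a.2)

theorem nrm_up (a : ℚ × ℚ) (ha : a ≠ 0) : Up (nrm a) := by
  unfold nrm
  split_ifs with h
  · exact h
  · unfold Up at *
    push Not at h
    rcases lt_trichotomy a.2 0 with h2 | h2 | h2
    · left; simpa using h2
    · right
      refine ⟨by simpa using h2, ?_⟩
      have h1 := h.2 h2
      rcases h1.lt_or_eq with h3 | h3
      · simpa using h3
      · exact absurd (Prod.ext h3 h2) ha
    · exact absurd h2 (not_lt.2 h.1)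

theorem nrm_smul (a : ℚ × ℚ) : ∃ s : ℚ, (s = 1 ∨ s = -1) ∧ nrm a = (s * a.1, s * a.2) := by
  unfold nrm
  split_ifs with h
  · exact ⟨1, Or.inl rfl, by simp⟩
  · exact ⟨-1, Or.inr rfl, by simp⟩

theorem or3_scale (a b c : ℚ × ℚ) (s t u : ℚ) (hs : s ≠ 0) (ht : t ≠ 0) (hu : u ≠ 0) :
    or3 (s * a.1, s * a.2) (t * b.1, t * b.2) (u * c.1, u * c.2) = or3 a b c := by
  unfold or3
  have : d (s * a.1, s * a.2) (t * b.1, t * b.2) * d (t * b.1, t * b.2) (u * c.1, u * c.2) *
      d (u * c.1, u * c.2) (s * a.1, s * a.2) =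
      ((s * t * u) * (s * t * u)) * (d a b * d b c * d c a) := by
    unfold d; ring
  rw [this, sign_mul, sign_pos (mul_self_pos.2 (by positivity)), one_mul]

/-- the cochain whose coboundary is the orientation cocycle -/
noncomputable def tt (a b : ℚ × ℚ) : ℤ := (SignType.sign (d (nrm a) (nrm b)) : ℤ)

theorem tt_swap (a b : ℚ × ℚ) : tt b a = - tt a b := by
  unfold tt
  rw [d_swap, Left.sign_neg]
  simp

theorem or3_eq (a b c : ℚ × ℚ) (ha : a ≠ 0) (hb : b ≠ 0) (hc : c ≠ 0) :
    or3 a b c = -(tt a b + tt b c + tt c a) := by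
  have h := or3_up _ _ _ (nrm_up a ha) (nrm_up b hb) (nrm_up c hc)
  unfold tt
  rw [← h]
  obtain ⟨s, hs, hs'⟩ := nrm_smul a
  obtain ⟨t, ht, ht'⟩ := nrm_smul b
  obtain ⟨u, hu, hu'⟩ := nrm_smul c
  rw [hs', ht', hu', or3_scale]
  · rcases hs with rfl | rfl <;> norm_num
  · rcases ht with rfl | rfl <;> norm_num
  · rcases hu with rfl | rfl <;> norm_num

theorem or3_cocycle (a b c e : ℚ × ℚ) (ha : a ≠ 0) (hb : b ≠ 0) (hc : c ≠ 0) (he : e ≠ 0) :
    or3 b c e - or3 a c e + or3 a b e - or3 a b c = 0 := by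
  rw [or3_eq b c e hb hc he, or3_eq a c e ha hc he, or3_eq a b e ha hb he, or3_eq a b c ha hb hc,
    tt_swap a c, tt_swap e b]
  ring

theorem or3_left (a b : ℚ × ℚ) : or3 a a b = 0 := by
  unfold or3; rw [d_self]; simp

theorem or3_right (a b : ℚ × ℚ) : or3 a b b = 0 := by
  unfold or3; rw [d_self]; simp

theorem or3_abs (a b c : ℚ × ℚ) : |(or3 a b c : ℝ)| ≤ 1 := by
  unfold or3
  generalize SignType.sign (d a b * d b c * d c a) = s
  cases s <;> simp

/-! ### The action -/

/-- the action of a matrix on vectors -/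
def act (g : GL (Fin 2) ℚ) (v : ℚ × ℚ) : ℚ × ℚ :=
  (g.1 0 0 * v.1 + g.1 0 1 * v.2, g.1 1 0 * v.1 + g.1 1 1 * v.2)

theorem act_mul (g h : GL (Fin 2) ℚ) (v : ℚ × ℚ) : act (g * h) v = act g (act h v) := by
  unfold act
  rw [Units.val_mul]
  simp only [Matrix.mul_apply, Fin.sum_univ_two]
  ext <;> ring

theorem act_scalar (g : GL (Fin 2) ℚ) (u : ℚˣ) (v : ℚ × ℚ) :
    act (g * GeneralLinearGroup.scalar (Fin 2) u) v =
      ((u : ℚ) * (act g v).1, (u : ℚ) * (act g v).2) := by
  rw [act_mul]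
  unfold act
  simp [Matrix.scalar_apply]
  constructor <;> ring

theorem d_act (g : GL (Fin 2) ℚ) (v w : ℚ × ℚ) :
    d (act g v) (act g w) = ((GeneralLinearGroup.det g : ℚˣ) : ℚ) * d v w := by
  rw [GeneralLinearGroup.val_det_apply, Matrix.det_fin_two]
  unfold d act
  ring

theorem act_ne (g : GL (Fin 2) ℚ) (v : ℚ × ℚ) (hv : v ≠ 0) : act g v ≠ 0 := by
  intro h
  apply hv
  have h1 := d_act g v (1, 0)
  have h2 := d_act g v (0, 1)
  have e : ∀ w, d (0 : ℚ × ℚ) w = 0 := fun w => by unfold d; simp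
  rw [h, e] at h1 h2
  have hd : ((GeneralLinearGroup.det g : ℚˣ) : ℚ) ≠ 0 := Units.ne_zero _
  have h3 := (mul_eq_zero.1 h1.symm).resolve_left hd
  have h4 := (mul_eq_zero.1 h2.symm).resolve_left hd
  unfold d at h3 h4
  ext
  · simpa using h4
  · simpa using h3

theorem or3_act (g : GL (Fin 2) ℚ) (a b c : ℚ × ℚ) :
    or3 (act g a) (act g b) (act g c) =
      (SignType.sign ((GeneralLinearGroup.det g : ℚˣ) : ℚ) : ℤ) * or3 a b c := by
  unfold or3
  rw [d_act, d_act, d_act]
  have hd : ((GeneralLinearGroup.det g : ℚˣ) : ℚ) ≠ 0 := Units.ne_zero _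
  generalize ((GeneralLinearGroup.det g : ℚˣ) : ℚ) = D at *
  have : D * d a b * (D * d b c) * (D * d c a) = (D * D) * (D * (d a b * d b c * d c a)) := by ring
  rw [this, sign_mul, sign_pos (mul_self_pos.2 hd), one_mul, sign_mul]
  simp

/-! ### The cocycle on `GL(2, ℚ)` -/

/-- the first base point -/
def x1 : ℚ × ℚ := (3, -4)
/-- the second base point -/
def x2 : ℚ × ℚ := (1, -7)

/-- the sum of the two orientation cocycles -/
def KK (a b c : GL (Fin 2) ℚ) : ℤ :=
  or3 (act a x1) (act b x1) (act c x1) + or3 (act a x2) (act b x2) (act c x2)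

theorem KK_scalar (a b c : GL (Fin 2) ℚ) (s t u : ℚˣ) :
    KK (a * GeneralLinearGroup.scalar (Fin 2) s) (b * GeneralLinearGroup.scalar (Fin 2) t)
      (c * GeneralLinearGroup.scalar (Fin 2) u) = KK a b c := by
  unfold KK
  rw [act_scalar, act_scalar, act_scalar, act_scalar, act_scalar, act_scalar,
    or3_scale _ _ _ _ _ _ s.ne_zero t.ne_zero u.ne_zero,
    or3_scale _ _ _ _ _ _ s.ne_zero t.ne_zero u.ne_zero]

theorem KK_mul (h a b c : GL (Fin 2) ℚ) : KK (h * a) (h * b) (h * c) =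
    (SignType.sign ((GeneralLinearGroup.det h : ℚˣ) : ℚ) : ℤ) * KK a b c := by
  unfold KK
  simp only [act_mul, or3_act]
  ring

theorem KK_cocycle (a b c e : GL (Fin 2) ℚ) :
    KK b c e - KK a c e + KK a b e - KK a b c = 0 := by
  have n1 : x1 ≠ 0 := by
    intro h; have := congrArg Prod.fst h; norm_num [x1] at this
  have n2 : x2 ≠ 0 := by
    intro h; have := congrArg Prod.fst h; norm_num [x2] at this
  have h1 := or3_cocycle (act a x1) (act b x1) (act c x1) (act e x1) (act_ne _ _ n1)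
    (act_ne _ _ n1) (act_ne _ _ n1) (act_ne _ _ n1)
  have h2 := or3_cocycle (act a x2) (act b x2) (act c x2) (act e x2) (act_ne _ _ n2)
    (act_ne _ _ n2) (act_ne _ _ n2) (act_ne _ _ n2)
  unfold KK
  linarith

/-! ### Passing to the projective group -/

/-- the sign of a unit of `ℚ` -/
def sgn : ℚˣ →* ℤˣ where
  toFun u := if 0 < (u : ℚ) then 1 else -1
  map_one' := by simp
  map_mul' u v := by
    rcases lt_or_gt_of_ne u.ne_zero with hu | hu <;> rcases lt_or_gt_of_ne v.ne_zero with hv | hv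
    · simp [hu.not_gt, hv.not_gt, mul_pos_of_neg_of_neg hu hv]
    · simp [hu.not_gt, hv, (mul_neg_of_neg_of_pos hu hv).not_gt]
    · simp [hu, hv.not_gt, (mul_neg_of_pos_of_neg hu hv).not_gt]
    · simp [hu, hv]

theorem sgn_val (u : ℚˣ) : ((sgn u : ℤˣ) : ℤ) = (SignType.sign (u : ℚ) : ℤ) := by
  rcases lt_or_gt_of_ne u.ne_zero with hu | hu
  · simp [sgn, hu.not_gt, sign_neg hu]
  · simp [sgn, hu, sign_pos hu]

/-- the sign character of the projective group -/
def chi : PGL(2, ℚ) →* ℤˣ :=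
  QuotientGroup.lift (Subgroup.center (GL (Fin 2) ℚ)) (sgn.comp GeneralLinearGroup.det) (by
    intro x hx
    rw [GeneralLinearGroup.center_eq_range_scalar] at hx
    obtain ⟨u, rfl⟩ := hx
    rw [MonoidHom.mem_ker, MonoidHom.comp_apply, GeneralLinearGroup.det_scalar]
    have : (0 : ℚ) < ((u ^ Fintype.card (Fin 2) : ℚˣ) : ℚ) := by
      simp only [Fintype.card_fin, Units.val_pow_eq_pow_val]
      have := u.ne_zero
      positivity
    simp only [sgn, MonoidHom.coe_mk, OneHom.coe_mk]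
    rw [if_pos this])

theorem chi_mk (g : GL (Fin 2) ℚ) : chi (ProjGenLinGroup.mk g) = sgn (GeneralLinearGroup.det g) :=
  rfl

/-- a representative -/
noncomputable def rep (g : PGL(2, ℚ)) : GL (Fin 2) ℚ :=
  Function.surjInv ProjGenLinGroup.mk_surjective g

theorem mk_rep (g : PGL(2, ℚ)) : ProjGenLinGroup.mk (rep g) = g :=
  Function.surjInv_eq _ _

/-- the cocycle -/
noncomputable def kp (a b c : PGL(2, ℚ)) : ℝ := (KK (rep a) (rep b) (rep c) : ℝ) / 4

theorem kp_mk (a b c : GL (Fin 2) ℚ) :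
    kp (ProjGenLinGroup.mk a) (ProjGenLinGroup.mk b) (ProjGenLinGroup.mk c) =
      (KK a b c : ℝ) / 4 := by
  obtain ⟨s, hs⟩ := ProjGenLinGroup.mk_eq_mk_iff.1 (mk_rep (ProjGenLinGroup.mk a)).symm
  obtain ⟨t, ht⟩ := ProjGenLinGroup.mk_eq_mk_iff.1 (mk_rep (ProjGenLinGroup.mk b)).symm
  obtain ⟨u, hu⟩ := ProjGenLinGroup.mk_eq_mk_iff.1 (mk_rep (ProjGenLinGroup.mk c)).symm
  unfold kp
  rw [← hs, ← ht, ← hu, KK_scalar]

/-! ### The reflections -/

/-- first entry -/
def eP (i : ZMod 5) : ℚ := (![1, 0, 5, 4, 0] : Fin 5 → ℚ) i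
/-- second entry -/
def eQ (i : ZMod 5) : ℚ := (![0, 1, 4, 1, 1] : Fin 5 → ℚ) i
/-- third entry -/
def eR (i : ZMod 5) : ℚ := (![0, 1, -4, -9, 9] : Fin 5 → ℚ) i

theorem det_pos (i : ZMod 5) : 0 < eP i * eP i + eQ i * eR i := by
  revert i
  decide +kernel

theorem orth (i : ZMod 5) :
    2 * eP i * eP (i + 1) + eQ i * eR (i + 1) + eR i * eQ (i + 1) = 0 := by
  revert i
  decide +kernel

/-- the matrix of the reflection -/
def RR (i : ZMod 5) : GL (Fin 2) ℚ :=
  GeneralLinearGroup.mkOfDetNeZero !![eP i, eQ i; eR i, - eP i] (by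
    rw [Matrix.det_fin_two_of]
    have := det_pos i
    intro h
    linarith)

theorem RR_val (i : ZMod 5) : (RR i).1 = !![eP i, eQ i; eR i, - eP i] := rfl

/-- the explicit action -/
def ea (i : ZMod 5) (v : ℚ × ℚ) : ℚ × ℚ :=
  (eP i * v.1 + eQ i * v.2, eR i * v.1 + (- eP i) * v.2)

theorem act_RR (i : ZMod 5) (v : ℚ × ℚ) : act (RR i) v = ea i v := by
  unfold act ea
  rw [RR_val]
  simp

theorem act_one (v : ℚ × ℚ) : act 1 v = v := by
  unfold act
  simp

theorem sq_aux (i : ZMod 5) :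
    ProjGenLinGroup.mk (1 : GL (Fin 2) ℚ) = ProjGenLinGroup.mk (RR i * RR i) := by
  rw [ProjGenLinGroup.mk_eq_mk_iff]
  refine ⟨Units.mk0 _ (det_pos i).ne', ?_⟩
  rw [one_mul]
  ext a b
  rw [Units.val_mul, RR_val, GeneralLinearGroup.coe_scalar]
  fin_cases a <;> fin_cases b <;> simp [Matrix.mul_apply, Fin.sum_univ_two] <;> ring

theorem comm_aux (i : ZMod 5) :
    ProjGenLinGroup.mk (RR i * RR (i + 1)) = ProjGenLinGroup.mk (RR (i + 1) * RR i) := by
  rw [ProjGenLinGroup.mk_eq_mk_iff]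
  refine ⟨-1, ?_⟩
  have h := orth i
  ext a b
  rw [Units.val_mul, Units.val_mul, Units.val_mul, RR_val, RR_val, GeneralLinearGroup.coe_scalar]
  fin_cases a <;> fin_cases b <;> simp [Matrix.mul_apply, Fin.sum_univ_two] <;> linarith

theorem chi_aux (i : ZMod 5) : chi (ProjGenLinGroup.mk (RR i)) = -1 := by
  rw [chi_mk]
  have h : ((GeneralLinearGroup.det (RR i) : ℚˣ) : ℚ) < 0 := by
    rw [GeneralLinearGroup.val_det_apply]
    rw [RR_val, Matrix.det_fin_two_of]
    have := det_pos i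
    linarith
  simp only [sgn, MonoidHom.coe_mk, OneHom.coe_mk]
  rw [if_neg h.not_gt]

theorem eval_aux (i : ZMod 5) :
    (or3 x1 (ea i x1) (ea i (ea (i + 1) x1)) + or3 x2 (ea i x2) (ea i (ea (i + 1) x2))) -
    (or3 x1 (ea (i + 1) x1) (ea (i + 1) (ea i x1)) +
      or3 x2 (ea (i + 1) x2) (ea (i + 1) (ea i x2))) = if i = 0 then 4 else 0 := by
  revert i
  decide +kernel

theorem eval_aux' (i : ZMod 5) :
    kp 1 (ProjGenLinGroup.mk (RR i)) (ProjGenLinGroup.mk (RR i) * ProjGenLinGroup.mk (RR (i + 1))) -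
    kp 1 (ProjGenLinGroup.mk (RR (i + 1)))
      (ProjGenLinGroup.mk (RR (i + 1)) * ProjGenLinGroup.mk (RR i)) = if i = 0 then 1 else 0 := by
  rw [← map_mul, ← map_mul, ← ProjGenLinGroup.mk_one, kp_mk, kp_mk]
  have h := eval_aux i
  unfold KK
  simp only [act_mul, act_RR, act_one]
  rw [← sub_div, ← Int.cast_sub, h]
  split_ifs <;> norm_num

theorem bound_aux (a b c : PGL(2, ℚ)) : |kp a b c| ≤ 1 / 2 := by
  unfold kp KK
  have h1 := or3_abs (act (rep a) x1) (act (rep b) x1) (act (rep c) x1)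
  have h2 := or3_abs (act (rep a) x2) (act (rep b) x2) (act (rep c) x2)
  rw [abs_le] at *
  push_cast
  constructor <;> linarith [h1.1, h1.2, h2.1, h2.2]

theorem equivar_aux (h a b c : PGL(2, ℚ)) :
    kp (h * a) (h * b) (h * c) = ((chi h : ℤ) : ℝ) * kp a b c := by
  induction h using ProjGenLinGroup.induction_on with | mk h =>
  induction a using ProjGenLinGroup.induction_on with | mk a =>
  induction b using ProjGenLinGroup.induction_on with | mk b =>
  induction c using ProjGenLinGroup.induction_on with | mk c =>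
  rw [← map_mul, ← map_mul, ← map_mul, kp_mk, kp_mk, chi_mk, sgn_val, KK_mul]
  push_cast
  ring

theorem cocycle_aux (a b c e : PGL(2, ℚ)) :
    kp b c e - kp a c e + kp a b e - kp a b c = 0 := by
  unfold kp
  have h := KK_cocycle (rep a) (rep b) (rep c) (rep e)
  have h' : (KK (rep b) (rep c) (rep e) : ℝ) - KK (rep a) (rep c) (rep e) +
      KK (rep a) (rep b) (rep e) - KK (rep a) (rep b) (rep c) = 0 := by exact_mod_cast h
  linarith

end MP8a95ee.C

namespace MP8a95ee

open Matrix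
open scoped MatrixGroups

theorem exists_pentData : Nonempty PentData := by
  refine ⟨{
    G := PGL(2, ℚ)
    inst := inferInstance
    χ := C.chi
    R := fun i => ProjGenLinGroup.mk (C.RR i)
    κ := C.kp
    C := 1 / 2
    sq := fun i => ?_
    comm := fun i => ?_
    χR := C.chi_aux
    equivar := C.equivar_aux
    cocycle := C.cocycle_aux
    degl := fun a b => ?_
    degr := fun a b => ?_
    bound := C.bound_aux
    q0 := ?_
    q1 := fun i hi => ?_ }⟩
  · rw [← map_mul, ← C.sq_aux, map_one]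
  · rw [← map_mul, ← map_mul, C.comm_aux]
  · unfold C.kp C.KK
    rw [C.or3_left, C.or3_left]
    simp
  · unfold C.kp C.KK
    rw [C.or3_right, C.or3_right]
    simp
  · have := C.eval_aux' 0
    simpa using this
  · have := C.eval_aux' i
    rw [if_neg hi] at this
    exact this

end MP8a95ee
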