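import Pool.Agent.Work.MP_8a95ee_gt.Setup

set_option autoImplicit false

/-!
# D1: the product cocycle
-/

namespace MP8a95ee

namespace D1

/-- The product of the values of the cocycle, on infinite sequences. -/
def KK (P : PentData) (m : ℕ) (v : ℕ → ℕ → P.G) : ℝ :=
  ∏ j ∈ Finset.range m, P.κ (v (2 * j) j) (v (2 * j + 1) j) (v (2 * j + 2) j)

/-- Deletion of one entry of a sequence. -/
def del {α : Type} (i : ℕ) (v : ℕ → α) (k : ℕ) : α := if k < i then v k else v (k + 1)

theorem KK_congr (P : PentData) (m : ℕ) (v w : ℕ → ℕ → P.G) (h : ∀ k ≤ 2 * m, v k = w k) :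
    KK P m v = KK P m w := by
  unfold KK
  refine Finset.prod_congr rfl fun j hj => ?_
  have hj' := Finset.mem_range.1 hj
  rw [h (2 * j) (by omega), h (2 * j + 1) (by omega), h (2 * j + 2) (by omega)]

theorem KK_succ (P : PentData) (m : ℕ) (v : ℕ → ℕ → P.G) :
    KK P (m + 1) v = KK P m v * P.κ (v (2 * m) m) (v (2 * m + 1) m) (v (2 * m + 2) m) := by
  unfold KK
  rw [Finset.prod_range_succ]

theorem KK_cocycle (P : PentData) (m : ℕ) (v : ℕ → ℕ → P.G) :
    ∑ i ∈ Finset.range (2 * m + 2), (-1 : ℝ) ^ i * KK P m (del i v) = 0 := by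
  induction m with
  | zero => simp [KK, Finset.sum_range_succ]
  | succ m ih =>
    have e : 2 * (m + 1) + 2 = 2 * m + 1 + 1 + 1 + 1 := by ring
    have ih' : ∑ i ∈ Finset.range (2 * m + 1), (-1 : ℝ) ^ i * KK P m (del i v) = KK P m v := by
      rw [show 2 * m + 2 = 2 * m + 1 + 1 by ring, Finset.sum_range_succ] at ih
      have h1 : KK P m (del (2 * m + 1) v) = KK P m v :=
        KK_congr P m _ _ fun k hk => by
          unfold del
          rw [if_pos (by omega)]
      have h2 : (-1 : ℝ) ^ (2 * m + 1) = -1 := by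
        rw [pow_succ, pow_mul]
        simp
      rw [h1, h2] at ih
      linarith
    have hlow : ∑ i ∈ Finset.range (2 * m + 1), (-1 : ℝ) ^ i * KK P (m + 1) (del i v) =
        KK P m v * P.κ (v (2 * m + 1) m) (v (2 * m + 2) m) (v (2 * m + 3) m) := by
      rw [← ih', Finset.sum_mul]
      refine Finset.sum_congr rfl fun i hi => ?_
      have hi' := Finset.mem_range.1 hi
      rw [KK_succ]
      have d0 : del i v (2 * m) = v (2 * m + 1) := by
        unfold del
        rw [if_neg (by omega)]
      have d1 : del i v (2 * m + 1) = v (2 * m + 2) := by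
        unfold del
        rw [if_neg (by omega)]
      have d2 : del i v (2 * m + 2) = v (2 * m + 3) := by
        unfold del
        rw [if_neg (by omega)]
      rw [d0, d1, d2]
      ring
    have hup : ∀ i, 2 * m + 1 ≤ i → KK P m (del i v) = KK P m v := fun i hi =>
      KK_congr P m _ _ fun k hk => by
        unfold del
        rw [if_pos (by omega)]
    rw [e, Finset.sum_range_succ, Finset.sum_range_succ, Finset.sum_range_succ, hlow,
      KK_succ P m (del (2 * m + 1) v), KK_succ P m (del (2 * m + 1 + 1) v),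
      KK_succ P m (del (2 * m + 1 + 1 + 1) v), hup (2 * m + 1) (by omega),
      hup (2 * m + 1 + 1) (by omega), hup (2 * m + 1 + 1 + 1) (by omega)]
    have a0 : del (2 * m + 1) v (2 * m) = v (2 * m) := by
      unfold del; rw [if_pos (by omega)]
    have a1 : del (2 * m + 1) v (2 * m + 1) = v (2 * m + 2) := by
      unfold del; rw [if_neg (by omega)]
    have a2 : del (2 * m + 1) v (2 * m + 2) = v (2 * m + 3) := by
      unfold del; rw [if_neg (by omega)]
    have b0 : del (2 * m + 1 + 1) v (2 * m) = v (2 * m) := by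
      unfold del; rw [if_pos (by omega)]
    have b1 : del (2 * m + 1 + 1) v (2 * m + 1) = v (2 * m + 1) := by
      unfold del; rw [if_pos (by omega)]
    have b2 : del (2 * m + 1 + 1) v (2 * m + 2) = v (2 * m + 3) := by
      unfold del; rw [if_neg (by omega)]
    have c0 : del (2 * m + 1 + 1 + 1) v (2 * m) = v (2 * m) := by
      unfold del; rw [if_pos (by omega)]
    have c1 : del (2 * m + 1 + 1 + 1) v (2 * m + 1) = v (2 * m + 1) := by
      unfold del; rw [if_pos (by omega)]
    have c2 : del (2 * m + 1 + 1 + 1) v (2 * m + 2) = v (2 * m + 2) := by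
      unfold del; rw [if_pos (by omega)]
    have p0 : (-1 : ℝ) ^ (2 * m) = 1 := by rw [pow_mul]; simp
    have p1 : (-1 : ℝ) ^ (2 * m + 1) = -1 := by rw [pow_succ, p0]; ring
    have p2 : (-1 : ℝ) ^ (2 * m + 1 + 1) = 1 := by rw [pow_succ, p1]; ring
    have p3 : (-1 : ℝ) ^ (2 * m + 1 + 1 + 1) = -1 := by rw [pow_succ, p2]; ring
    rw [a0, a1, a2, b0, b1, b2, c0, c1, c2, p1, p2, p3]
    have hc := P.cocycle (v (2 * m) m) (v (2 * m + 1) m) (v (2 * m + 2) m) (v (2 * m + 3) m)
    linear_combination (KK P m v) * hc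

theorem cupF_eq (P : PentData) (m : ℕ) (w : Fin (2 * m + 1) → ℕ → P.G) (W : ℕ → ℕ → P.G)
    (h : ∀ k : Fin (2 * m + 1), W k = w k) : cupF P m w = KK P m W := by
  unfold cupF KK
  rw [Finset.prod_range]
  refine Finset.prod_congr rfl fun j _ => ?_
  have h0 := h ⟨2 * j, by omega⟩
  have h1 := h ⟨2 * j + 1, by omega⟩
  have h2 := h ⟨2 * j + 2, by omega⟩
  simp only at h0 h1 h2
  rw [h0, h1, h2]

end D1

open D1 in
theorem cupF_cocycle (P : PentData) (m : ℕ) :
    ∃ K : BCocycle (ℕ → P.G) (prodChi P m) (2 * m), K.F = cupF P m := by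
  refine ⟨{ F := cupF P m, C := P.C ^ m, bound := ?_, equivar := ?_, cocycle := ?_ }, rfl⟩
  · intro v
    unfold cupF
    rw [Finset.abs_prod]
    refine (Finset.prod_le_prod (fun j _ => abs_nonneg _) fun j _ => P.bound _ _ _).trans ?_
    simp
  · intro h v
    unfold cupF
    have h1 : (((prodChi P m h : ℤˣ) : ℤ) : ℝ) = ∏ j : Fin m, (((P.χ (h j) : ℤˣ) : ℤ) : ℝ) := by
      have : prodChi P m h = ∏ j ∈ Finset.range m, P.χ (h j) := rfl
      rw [this, Finset.prod_range]
      push_cast
      rfl
    rw [h1, ← Finset.prod_mul_distrib]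
    refine Finset.prod_congr rfl fun j _ => ?_
    simp only [Pi.mul_apply]
    rw [P.equivar]
  · intro v
    set V : ℕ → ℕ → P.G := fun k => if h : k < 2 * m + 2 then v ⟨k, h⟩ else 1 with hV
    have h1 := KK_cocycle P m V
    rw [Finset.sum_range] at h1
    rw [← h1]
    refine Finset.sum_congr rfl fun i _ => ?_
    congr 1
    refine cupF_eq P m _ _ fun k => ?_
    unfold del
    by_cases hk : (k : ℕ) < i
    · rw [if_pos hk]
      have h2 : i.succAbove k = k.castSucc := Fin.succAbove_of_castSucc_lt i k hk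
      rw [h2]
      simp only [hV]
      rw [dif_pos (by omega)]
      rfl
    · rw [if_neg hk]
      have h2 : i.succAbove k = k.succ := Fin.succAbove_of_le_castSucc i k (by
        rw [Fin.le_def]
        simp only [Fin.val_castSucc]
        omega)
      rw [h2]
      simp only [hV]
      rw [dif_pos (by omega)]
      rfl

end MP8a95ee
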