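import Pool.Agent.Work.MP_8a95ee_gt.Setup

/-!
Item D2: the reflections attached to a good labelling, and the evaluation of the product cocycle
on the orientation cycle.
-/

namespace MP8a95ee

namespace D2

theorem refl_same (P : PentData) (φ : ℕ → ℕ × ZMod 5) {x j : ℕ} (h : (φ x).1 = j) :
    refl P φ x j = P.R (φ x).2 := by
  subst h
  unfold refl
  rw [Pi.mulSingle_eq_same]

theorem refl_ne (P : PentData) (φ : ℕ → ℕ × ZMod 5) {x j : ℕ} (h : (φ x).1 ≠ j) :
    refl P φ x j = 1 := by
  unfold refl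
  rw [Pi.mulSingle_eq_of_ne (Ne.symm h)]

theorem pair_mem {L : Finset (Finset ℕ)} (hf : FlagC L) {σ : Finset ℕ} (hσ : σ ∈ L) {x y : ℕ}
    (hx : x ∈ σ) (hy : y ∈ σ) : ({x, y} : Finset ℕ) ∈ L := (hf σ).mp hσ x hx y hy

theorem mem_verts {L : Finset (Finset ℕ)} {σ : Finset ℕ} (hσ : σ ∈ L) {x : ℕ} (hx : x ∈ σ) :
    x ∈ verts L := by
  unfold verts
  exact Finset.mem_biUnion.mpr ⟨σ, hσ, hx⟩

/-- The positions of a block. -/
def e0 {m : ℕ} (j : Fin m) : Fin (2 * m) := ⟨2 * j, by omega⟩

def e1 {m : ℕ} (j : Fin m) : Fin (2 * m) := ⟨2 * j + 1, by omega⟩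

open Classical in
/-- The factor of a block. -/
noncomputable def fac (P : PentData) (φ : ℕ → ℕ × ZMod 5) (j x y : ℕ) : ℝ :=
  if (φ x).1 = j ∧ (φ y).1 = j then
    P.κ 1 (P.R (φ x).2) (P.R (φ x).2 * P.R (φ y).2) else 0

open Classical in
/-- The indicator which has the same antisymmetrization on adjacent pairs. -/
noncomputable def gac (φ : ℕ → ℕ × ZMod 5) (j x y : ℕ) : ℝ :=
  if φ x = (j, 0) ∧ φ y = (j, 1) then 1 else 0

theorem cupF_eq (P : PentData) (φ : ℕ → ℕ × ZMod 5) (m : ℕ) (s : Fin (2 * m) → ℕ) :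
    cupF P m (Fin.partialProd fun i => refl P φ (s i)) =
      ∏ j : Fin m, fac P φ j (s (e0 j)) (s (e1 j)) := by
  classical
  set v := Fin.partialProd (fun i => refl P φ (s i)) with hv
  have hs : ∀ (k : ℕ) (hk : k < 2 * m), v ⟨k + 1, by omega⟩ =
      v ⟨k, by omega⟩ * refl P φ (s ⟨k, hk⟩) := by
    intro k hk
    exact Fin.partialProd_succ (fun i => refl P φ (s i)) ⟨k, hk⟩
  by_cases h : ∀ j : Fin m, (φ (s (e0 j))).1 = j ∧ (φ (s (e1 j))).1 = j
  · have hb : ∀ (k : ℕ) (hk : k < 2 * m), (φ (s ⟨k, hk⟩)).1 = k / 2 := by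
      intro k hk
      have hj : k / 2 < m := by omega
      rcases Nat.mod_two_eq_zero_or_one k with h2 | h2
      · have h3 := (h ⟨k / 2, hj⟩).1
        have h4 : e0 (⟨k / 2, hj⟩ : Fin m) = ⟨k, hk⟩ := by
          apply Fin.ext
          simp only [e0]
          omega
        rw [h4] at h3
        exact h3
      · have h3 := (h ⟨k / 2, hj⟩).2
        have h4 : e1 (⟨k / 2, hj⟩ : Fin m) = ⟨k, hk⟩ := by
          apply Fin.ext
          simp only [e1]
          omega
        rw [h4] at h3
        exact h3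
    have h1 : ∀ (j : Fin m) (k : ℕ) (hk : k ≤ 2 * (j : ℕ)), v ⟨k, by omega⟩ j = 1 := by
      intro j k
      induction k with
      | zero =>
        intro _
        have : v ⟨0, by omega⟩ = 1 := Fin.partialProd_zero _
        rw [this]
        rfl
      | succ k ih =>
        intro hk
        rw [hs k (by omega), Pi.mul_apply, ih (by omega), one_mul]
        apply refl_ne
        rw [hb]
        omega
    unfold cupF
    refine Finset.prod_congr rfl fun j _ => ?_
    have h2 := h1 j (2 * j) le_rfl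
    have h3 : v ⟨2 * j + 1, by omega⟩ j = P.R (φ (s (e0 j))).2 := by
      rw [hs (2 * j) (by omega), Pi.mul_apply, h2, one_mul]
      exact refl_same P φ (h j).1
    have h4 : v ⟨2 * j + 2, by omega⟩ j = P.R (φ (s (e0 j))).2 * P.R (φ (s (e1 j))).2 := by
      rw [hs (2 * j + 1) (by omega), Pi.mul_apply, h3]
      congr 1
      exact refl_same P φ (h j).2
    rw [h2, h3, h4]
    unfold fac
    rw [if_pos (h j)]
  · push Not at h
    obtain ⟨j, hj⟩ := h
    have hr : ∏ j : Fin m, fac P φ j (s (e0 j)) (s (e1 j)) = 0 := by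
      refine Finset.prod_eq_zero (Finset.mem_univ j) ?_
      unfold fac
      rw [if_neg]
      intro hc
      exact hj hc.1 hc.2
    rw [hr]
    unfold cupF
    refine Finset.prod_eq_zero (Finset.mem_univ j) ?_
    by_cases h0 : (φ (s (e0 j))).1 = j
    · have h5 : refl P φ (s (e1 j)) j = 1 := refl_ne P φ (hj h0)
      have h6 : v ⟨2 * j + 2, by omega⟩ j = v ⟨2 * j + 1, by omega⟩ j := by
        rw [hs (2 * j + 1) (by omega), Pi.mul_apply]
        have h7 : refl P φ (s ⟨2 * j + 1, by omega⟩) j = 1 := h5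
        rw [h7, mul_one]
      rw [h6]
      exact P.degr _ _
    · have h5 : refl P φ (s (e0 j)) j = 1 := refl_ne P φ h0
      have h6 : v ⟨2 * j + 1, by omega⟩ j = v ⟨2 * j, by omega⟩ j := by
        rw [hs (2 * j) (by omega), Pi.mul_apply]
        have h7 : refl P φ (s ⟨2 * j, by omega⟩) j = 1 := h5
        rw [h7, mul_one]
      rw [h6]
      exact P.degl _ _

theorem antisymm_eq (P : PentData) {L : Finset (Finset ℕ)} {m : ℕ} {φ : ℕ → ℕ × ZMod 5}
    (hG : Good L m φ) (j x y : ℕ) (hxy : ({x, y} : Finset ℕ) ∈ L) :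
    gac φ j x y - fac P φ j x y = gac φ j y x - fac P φ j y x := by
  classical
  obtain ⟨-, hadj, -⟩ := hG
  have h01 : (0 : ZMod 5) ≠ 1 := by decide
  have key : ∀ a b : ℕ, (φ a).1 = j → (φ b).1 = j → (φ b).2 = (φ a).2 + 1 →
      fac P φ j a b - fac P φ j b a = gac φ j a b - gac φ j b a := by
    intro a b ha hb hab
    have hf1 : fac P φ j a b = P.κ 1 (P.R (φ a).2) (P.R (φ a).2 * P.R ((φ a).2 + 1)) := by
      unfold fac
      rw [if_pos ⟨ha, hb⟩, hab]
    have hf2 : fac P φ j b a =
        P.κ 1 (P.R ((φ a).2 + 1)) (P.R ((φ a).2 + 1) * P.R (φ a).2) := by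
      unfold fac
      rw [if_pos ⟨hb, ha⟩, hab]
    have hg2 : gac φ j b a = 0 := by
      unfold gac
      rw [if_neg]
      rintro ⟨h1, h2⟩
      have h3 : (φ b).2 = 0 := by rw [h1]
      have h4 : (φ a).2 = 1 := by rw [h2]
      rw [h3, h4] at hab
      exact absurd hab (by decide)
    rw [hf1, hf2, hg2]
    by_cases h0 : (φ a).2 = 0
    · have hg1 : gac φ j a b = 1 := by
        unfold gac
        rw [if_pos]
        refine ⟨Prod.ext ha h0, Prod.ext hb ?_⟩
        show (φ b).2 = 1
        rw [hab, h0, zero_add]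
      rw [hg1, h0, zero_add, sub_zero]
      exact P.q0
    · have hg1 : gac φ j a b = 0 := by
        unfold gac
        rw [if_neg]
        rintro ⟨h1, -⟩
        exact h0 (by rw [h1])
      rw [hg1, sub_zero]
      exact P.q1 _ h0
  by_cases hx : (φ x).1 = j
  · by_cases hy : (φ y).1 = j
    · rcases hadj x y hxy (hx.trans hy.symm) with h | h | h
      · have h1 : fac P φ j x y = fac P φ j y x := by
          unfold fac
          rw [if_pos ⟨hx, hy⟩, if_pos ⟨hy, hx⟩, h]
        have h2 : gac φ j x y = 0 := by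
          unfold gac
          rw [if_neg]
          rintro ⟨h3, h4⟩
          rw [h3, h4] at h
          exact h01 h
        have h3 : gac φ j y x = 0 := by
          unfold gac
          rw [if_neg]
          rintro ⟨h3, h4⟩
          rw [h3, h4] at h
          exact h01 h.symm
        rw [h1, h2, h3]
      · have := key y x hy hx h
        linarith
      · have := key x y hx hy h
        linarith
    · have h1 : fac P φ j x y = 0 := by
        unfold fac
        rw [if_neg]
        exact fun h => hy h.2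
      have h2 : fac P φ j y x = 0 := by
        unfold fac
        rw [if_neg]
        exact fun h => hy h.1
      have h3 : gac φ j x y = 0 := by
        unfold gac
        rw [if_neg]
        rintro ⟨-, h⟩
        exact hy (by rw [h])
      have h4 : gac φ j y x = 0 := by
        unfold gac
        rw [if_neg]
        rintro ⟨h, -⟩
        exact hy (by rw [h])
      rw [h1, h2, h3, h4]
  · have h1 : fac P φ j x y = 0 := by
      unfold fac
      rw [if_neg]
      exact fun h => hx h.1
    have h2 : fac P φ j y x = 0 := by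
      unfold fac
      rw [if_neg]
      exact fun h => hx h.2
    have h3 : gac φ j x y = 0 := by
      unfold gac
      rw [if_neg]
      rintro ⟨h, -⟩
      exact hx (by rw [h])
    have h4 : gac φ j y x = 0 := by
      unfold gac
      rw [if_neg]
      rintro ⟨-, h⟩
      exact hx (by rw [h])
    rw [h1, h2, h3, h4]

theorem sum_antisymm {L : Finset (Finset ℕ)} (hf : FlagC L) {m : ℕ}
    {o : (Fin (2 * m) → ℕ) → ℤ} (ho : IsOrient L (2 * m) o) (j : Fin m) (d : ℕ → ℕ → ℝ)
    (hd : ∀ x y : ℕ, ({x, y} : Finset ℕ) ∈ L → d x y = d y x) (W : (Fin (2 * m) → ℕ) → ℝ)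
    (hW : ∀ s, W (s ∘ Equiv.swap (e0 j) (e1 j)) = W s) :
    ∑ s ∈ Fintype.piFinset (fun _ : Fin (2 * m) => verts L),
      (o s : ℝ) * (d (s (e0 j)) (s (e1 j)) * W s) = 0 := by
  classical
  obtain ⟨halt, hsupp, -, -⟩ := ho
  have hne : e0 j ≠ e1 j := by
    intro h
    have := congrArg Fin.val h
    simp only [e0, e1] at this
    omega
  refine Finset.sum_involution (fun s _ => s ∘ Equiv.swap (e0 j) (e1 j)) ?_ ?_ ?_ ?_
  · intro s _
    have h1 : o (s ∘ Equiv.swap (e0 j) (e1 j)) = - o s := halt s _ _ hne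
    simp only [h1, hW, Function.comp_apply, Equiv.swap_apply_left, Equiv.swap_apply_right]
    by_cases h0 : o s = 0
    · rw [h0]
      simp
    · have h2 : ({s (e0 j), s (e1 j)} : Finset ℕ) ∈ L :=
        pair_mem hf (hsupp s h0) (Finset.mem_image_of_mem _ (Finset.mem_univ _))
          (Finset.mem_image_of_mem _ (Finset.mem_univ _))
      rw [hd _ _ h2]
      push_cast
      ring
  · intro s _ hs heq
    apply hs
    have h1 : o (s ∘ Equiv.swap (e0 j) (e1 j)) = - o s := halt s _ _ hne
    rw [heq] at h1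
    have h2 : o s = 0 := by omega
    rw [h2]
    simp
  · intro s hs
    rw [Fintype.mem_piFinset] at hs ⊢
    intro i
    exact hs _
  · intro s _
    funext i
    simp [Function.comp_apply]

theorem replace {L : Finset (Finset ℕ)} (hf : FlagC L) {m : ℕ}
    {o : (Fin (2 * m) → ℕ) → ℤ} (ho : IsOrient L (2 * m) o) (f g : ℕ → ℕ → ℕ → ℝ)
    (hd : ∀ j x y : ℕ, ({x, y} : Finset ℕ) ∈ L → g j x y - f j x y = g j y x - f j y x) :
    ∑ s ∈ Fintype.piFinset (fun _ : Fin (2 * m) => verts L),
      (o s : ℝ) * ∏ j : Fin m, f j (s (e0 j)) (s (e1 j)) =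
    ∑ s ∈ Fintype.piFinset (fun _ : Fin (2 * m) => verts L),
      (o s : ℝ) * ∏ j : Fin m, g j (s (e0 j)) (s (e1 j)) := by
  classical
  have key : ∀ J : Finset (Fin m),
      ∑ s ∈ Fintype.piFinset (fun _ : Fin (2 * m) => verts L),
        (o s : ℝ) * ∏ j : Fin m, (if j ∈ J then g j (s (e0 j)) (s (e1 j))
          else f j (s (e0 j)) (s (e1 j))) =
      ∑ s ∈ Fintype.piFinset (fun _ : Fin (2 * m) => verts L),
        (o s : ℝ) * ∏ j : Fin m, f j (s (e0 j)) (s (e1 j)) := by
    intro J
    induction J using Finset.induction_on with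
    | empty => simp
    | insert j0 J hj0 ih =>
      rw [← ih, ← sub_eq_zero, ← Finset.sum_sub_distrib]
      let h : Fin m → ℕ → ℕ → ℝ := fun j x y => if j ∈ J then g j x y else f j x y
      rw [← sum_antisymm hf ho j0 (fun x y => g j0 x y - f j0 x y) (hd j0)
        (fun s => ∏ j ∈ Finset.univ.erase j0, h j (s (e0 j)) (s (e1 j))) ?_]
      · refine Finset.sum_congr rfl fun s _ => ?_
        rw [← Finset.mul_prod_erase _ _ (Finset.mem_univ j0),
          ← Finset.mul_prod_erase (Finset.univ : Finset (Fin m))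
            (fun j => if j ∈ J then g j (s (e0 j)) (s (e1 j)) else f j (s (e0 j)) (s (e1 j)))
            (Finset.mem_univ j0)]
        have h1 : ∏ x ∈ Finset.univ.erase j0, (if x ∈ insert j0 J then g x (s (e0 x)) (s (e1 x))
            else f x (s (e0 x)) (s (e1 x))) =
            ∏ j ∈ Finset.univ.erase j0, h j (s (e0 j)) (s (e1 j)) := by
          refine Finset.prod_congr rfl fun x hx => ?_
          have hne : x ≠ j0 := Finset.ne_of_mem_erase hx
          simp only [Finset.mem_insert, hne, false_or, h]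
        rw [h1, if_pos (Finset.mem_insert_self _ _), if_neg hj0]
        show (o s : ℝ) * (g j0 (s (e0 j0)) (s (e1 j0)) *
            ∏ j ∈ Finset.univ.erase j0, h j (s (e0 j)) (s (e1 j))) -
          (o s : ℝ) * (f j0 (s (e0 j0)) (s (e1 j0)) *
            ∏ j ∈ Finset.univ.erase j0, h j (s (e0 j)) (s (e1 j))) =
          (o s : ℝ) * ((g j0 (s (e0 j0)) (s (e1 j0)) - f j0 (s (e0 j0)) (s (e1 j0))) *
            ∏ j ∈ Finset.univ.erase j0, h j (s (e0 j)) (s (e1 j)))
        ring
      · intro s
        refine Finset.prod_congr rfl fun x hx => ?_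
        have hne : (x : ℕ) ≠ j0 := fun h => Finset.ne_of_mem_erase hx (Fin.ext h)
        have a1 : (Equiv.swap (e0 j0) (e1 j0)) (e0 x) = e0 x := by
          apply Equiv.swap_apply_of_ne_of_ne
          · intro h
            have := congrArg Fin.val h
            simp only [e0] at this
            omega
          · intro h
            have := congrArg Fin.val h
            simp only [e0, e1] at this
            omega
        have a2 : (Equiv.swap (e0 j0) (e1 j0)) (e1 x) = e1 x := by
          apply Equiv.swap_apply_of_ne_of_ne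
          · intro h
            have := congrArg Fin.val h
            simp only [e0, e1] at this
            omega
          · intro h
            have := congrArg Fin.val h
            simp only [e1] at this
            omega
        simp only [Function.comp_apply, a1, a2]
  rw [← key Finset.univ]
  refine Finset.sum_congr rfl fun s _ => ?_
  simp only [Finset.mem_univ, if_true]

/-- The label of a position. -/
def lab {m : ℕ} (i : Fin (2 * m)) : ℕ × ZMod 5 :=
  ((i : ℕ) / 2, if (i : ℕ) % 2 = 0 then 0 else 1)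

theorem lab_injective (m : ℕ) : Function.Injective (lab (m := m)) := by
  intro i k h
  simp only [lab, Prod.mk.injEq] at h
  obtain ⟨h1, h2⟩ := h
  apply Fin.ext
  by_cases hi : (i : ℕ) % 2 = 0
  · by_cases hk : (k : ℕ) % 2 = 0
    · omega
    · rw [if_pos hi, if_neg hk] at h2
      exact absurd h2 (by decide)
  · by_cases hk : (k : ℕ) % 2 = 0
    · rw [if_neg hi, if_pos hk] at h2
      exact absurd h2 (by decide)
    · omega

theorem image_lab (m : ℕ) : (Finset.univ : Finset (Fin (2 * m))).image lab = Fset m := by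
  ext ⟨b, c⟩
  simp only [Finset.mem_image, Finset.mem_univ, true_and, Fset, Finset.mem_product,
    Finset.mem_range, Finset.mem_insert, Finset.mem_singleton, lab, Prod.mk.injEq]
  constructor
  · rintro ⟨i, h1, h2⟩
    refine ⟨by omega, ?_⟩
    by_cases hi : (i : ℕ) % 2 = 0
    · left
      rw [← h2, if_pos hi]
    · right
      rw [← h2, if_neg hi]
  · rintro ⟨h1, h2 | h2⟩
    · refine ⟨⟨2 * b, by omega⟩, by simp, ?_⟩
      rw [h2]
      simp
    · refine ⟨⟨2 * b + 1, by omega⟩, by simp; omega, ?_⟩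
      rw [h2, if_neg]
      simp only
      omega

theorem gac_prod (φ : ℕ → ℕ × ZMod 5) (m : ℕ) (s : Fin (2 * m) → ℕ) :
    ((∀ i, φ (s i) = lab i) → ∏ j : Fin m, gac φ j (s (e0 j)) (s (e1 j)) = 1) ∧
    (¬ (∀ i, φ (s i) = lab i) → ∏ j : Fin m, gac φ j (s (e0 j)) (s (e1 j)) = 0) := by
  classical
  have l0 : ∀ j : Fin m, lab (e0 j) = ((j : ℕ), (0 : ZMod 5)) := by
    intro j
    have h1 : ((e0 j : Fin (2 * m)) : ℕ) = 2 * j := rfl
    unfold lab
    rw [if_pos (by omega)]
    congr 1
    omega
  have l1 : ∀ j : Fin m, lab (e1 j) = ((j : ℕ), (1 : ZMod 5)) := by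
    intro j
    have h1 : ((e1 j : Fin (2 * m)) : ℕ) = 2 * j + 1 := rfl
    unfold lab
    rw [if_neg (by omega)]
    congr 1
    omega
  constructor
  · intro h
    refine Finset.prod_eq_one fun j _ => ?_
    unfold gac
    rw [if_pos ⟨(h _).trans (l0 j), (h _).trans (l1 j)⟩]
  · intro h
    push Not at h
    obtain ⟨i, hi⟩ := h
    have hj : (i : ℕ) / 2 < m := by omega
    refine Finset.prod_eq_zero (Finset.mem_univ ⟨(i : ℕ) / 2, hj⟩) ?_
    unfold gac
    rw [if_neg]
    rintro ⟨h1, h2⟩
    rcases Nat.mod_two_eq_zero_or_one (i : ℕ) with h3 | h3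
    · have h4 : e0 (⟨(i : ℕ) / 2, hj⟩ : Fin m) = i := by
        apply Fin.ext
        simp only [e0]
        omega
      apply hi
      rw [← h4, h1, l0]
    · have h4 : e1 (⟨(i : ℕ) / 2, hj⟩ : Fin m) = i := by
        apply Fin.ext
        simp only [e1]
        omega
      apply hi
      rw [← h4, h2, l1]

end D2

theorem refl_facts (P : PentData) (L : Finset (Finset ℕ)) (hf : FlagC L) (m : ℕ)
    (φ : ℕ → ℕ × ZMod 5) (hG : Good L m φ) :
    (∀ i, refl P φ i * refl P φ i = 1) ∧
    (∀ σ ∈ L, ∀ i ∈ σ, ∀ j ∈ σ, refl P φ i * refl P φ j = refl P φ j * refl P φ i) ∧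
    (∀ i ∈ verts L, prodChi P m (refl P φ i) = -1) := by
  obtain ⟨hblk, hadj, -⟩ := hG
  refine ⟨?_, ?_, ?_⟩
  · intro i
    unfold refl
    rw [← Pi.mulSingle_mul, P.sq, Pi.mulSingle_one]
  · intro σ hσ i hi j hj
    have hij := D2.pair_mem hf hσ hi hj
    by_cases hb : (φ i).1 = (φ j).1
    · have hR : P.R (φ i).2 * P.R (φ j).2 = P.R (φ j).2 * P.R (φ i).2 := by
        rcases hadj i j hij hb with h | h | h
        · rw [h]
        · rw [h, ← P.comm]
        · rw [h, P.comm]
      unfold refl
      rw [hb, ← Pi.mulSingle_mul, ← Pi.mulSingle_mul, hR]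
    · unfold refl
      exact Pi.mulSingle_commute (f := fun _ : ℕ => P.G) hb _ _
  · intro i hi
    show ∏ j ∈ Finset.range m, P.χ (refl P φ i j) = -1
    rw [Finset.prod_eq_single (φ i).1]
    · rw [D2.refl_same P φ rfl, P.χR]
    · intro j _ hj
      rw [D2.refl_ne P φ (Ne.symm hj), map_one]
    · intro h
      exact absurd (Finset.mem_range.mpr (hblk i hi)) h

theorem evaluation (P : PentData) (L : Finset (Finset ℕ)) (hf : FlagC L) (m : ℕ)
    (o : (Fin (2 * m) → ℕ) → ℤ) (ho : IsOrient L (2 * m) o)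
    (φ : ℕ → ℕ × ZMod 5) (hG : Good L m φ) :
    ∑ s ∈ Fintype.piFinset (fun _ : Fin (2 * m) => verts L),
      (o s : ℝ) * cupF P m (Fin.partialProd fun i => refl P φ (s i)) ≠ 0 := by
  classical
  rw [Finset.sum_congr rfl (fun s _ => by rw [D2.cupF_eq P φ m s])]
  rw [D2.replace hf ho (D2.fac P φ) (D2.gac φ) (fun j x y hxy => D2.antisymm_eq P hG j x y hxy)]
  obtain ⟨-, -, σ, ⟨hσL, hσc, hσi⟩, huniq⟩ := hG
  -- the facet as an ordered tuple
  have hex : ∀ i : Fin (2 * m), ∃ x ∈ σ, φ x = D2.lab i := by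
    intro i
    have h1 : D2.lab i ∈ σ.image φ := by
      rw [hσi, ← D2.image_lab]
      exact Finset.mem_image_of_mem _ (Finset.mem_univ _)
    obtain ⟨x, hx, hx2⟩ := Finset.mem_image.mp h1
    exact ⟨x, hx, hx2⟩
  choose s0 hs0 hs0l using hex
  have hinj : ∀ s : Fin (2 * m) → ℕ, (∀ i, φ (s i) = D2.lab i) → Function.Injective s := by
    intro s hs i k hik
    apply D2.lab_injective m
    rw [← hs i, ← hs k, hik]
  have himg : ∀ s : Fin (2 * m) → ℕ, (∀ i, φ (s i) = D2.lab i) →
      Finset.univ.image s ∈ L → Finset.univ.image s = σ := by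
    intro s hs hL
    apply huniq
    refine ⟨hL, ?_, ?_⟩
    · rw [Finset.card_image_of_injective _ (hinj s hs), Finset.card_univ, Fintype.card_fin]
    · rw [Finset.image_image, ← D2.image_lab]
      refine Finset.image_congr fun i _ => ?_
      exact hs i
  have h0img : Finset.univ.image s0 = σ := by
    apply Finset.eq_of_subset_of_card_le
    · intro x hx
      obtain ⟨i, -, rfl⟩ := Finset.mem_image.mp hx
      exact hs0 i
    · rw [hσc, Finset.card_image_of_injective _ (hinj s0 hs0l), Finset.card_univ,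
        Fintype.card_fin]
  have hφinj : Set.InjOn φ σ := by
    rw [← Finset.card_image_iff, hσi, hσc, ← D2.image_lab,
      Finset.card_image_of_injective _ (D2.lab_injective m), Finset.card_univ, Fintype.card_fin]
  rw [Finset.sum_eq_single s0]
  · rw [(D2.gac_prod φ m s0).1 hs0l, mul_one]
    have h1 : o s0 ≠ 0 := ho.2.2.1 s0 (hinj s0 hs0l) (by rw [h0img]; exact hσL)
    exact_mod_cast h1
  · intro s _ hne
    by_cases h : ∀ i, φ (s i) = D2.lab i
    · have h1 : o s = 0 := by
        by_contra h2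
        have h3 := himg s h (ho.2.1 s h2)
        apply hne
        funext i
        apply hφinj
        · have h4 : s i ∈ Finset.univ.image s := Finset.mem_image_of_mem _ (Finset.mem_univ _)
          rw [h3] at h4
          exact h4
        · exact hs0 i
        · rw [h i, hs0l i]
      rw [h1]
      simp
    · rw [(D2.gac_prod φ m s).2 h, mul_zero]
  · intro h
    exfalso
    apply h
    rw [Fintype.mem_piFinset]
    intro i
    exact D2.mem_verts hσL (hs0 i)

end MP8a95ee
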