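import Pool.Agent.Work.MP_8a95ee_gt.DefsE
import Pool.Agent.Work.MP_8a95ee_gt.Bd.B01
import Pool.Agent.Work.MP_8a95ee_gt.B6
import Pool.Agent.Work.MP_8a95ee_gt.C
import Pool.Agent.Work.MP_8a95ee_gt.D1
import Pool.Agent.Work.MP_8a95ee_gt.D2

/-!
# Lower bound for the l1-seminorm of the moment cycle
-/

namespace MP8a95ee

namespace E

open Matrix in
open scoped MatrixGroups in
theorem exists_pent_half : ∃ P : PentData, P.C = 1 / 2 := by
  refine ⟨{
    G := PGL(2, ℚ)
    inst := inferInstance
    χ := C.chi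
    R := fun i => ProjGenLinGroup.mk (C.RR i)
    κ := C.kp
    C := 1 / 2
    sq := fun i => ?_
    comm := fun i => ?_
    χR := C.chi_aux
    equivar := C.equivar_aux
    cocycle := C.cocycle_aux
    degl := fun a b => ?_
    degr := fun a b => ?_
    bound := C.bound_aux
    q0 := ?_
    q1 := fun i hi => ?_ }, rfl⟩
  · rw [← map_mul, ← C.sq_aux, map_one]
  · rw [← map_mul, ← map_mul, C.comm_aux]
  · unfold C.kp C.KK
    rw [C.or3_left, C.or3_left]
    simp
  · unfold C.kp C.KK
    rw [C.or3_right, C.or3_right]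
    simp
  · have := C.eval_aux' 0
    simpa using this
  · have := C.eval_aux' i
    rw [if_neg hi] at this
    exact this

/-- the product cocycle with an explicit bound -/
theorem cup_bound (P : PentData) (m : ℕ) :
    ∃ K : BCocycle (ℕ → P.G) (prodChi P m) (2 * m), K.F = cupF P m ∧ K.C = P.C ^ m := by
  obtain ⟨K, hK⟩ := cupF_cocycle P m
  refine ⟨{ F := cupF P m, C := P.C ^ m, bound := ?_, equivar := ?_, cocycle := ?_ }, rfl, rfl⟩
  · intro v
    unfold cupF
    rw [Finset.abs_prod]
    refine (Finset.prod_le_prod (fun j _ => abs_nonneg _) fun j _ => P.bound _ _ _).trans ?_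
    simp
  · rw [← hK]; exact K.equivar
  · rw [← hK]; exact K.cocycle

theorem inj_of_ne_zero {L : Finset (Finset ℕ)} {n : ℕ} {o : (Fin n → ℕ) → ℤ}
    (ho : IsSimplicialCycle L n o) {s : Fin n → ℕ} (hs : o s ≠ 0) : Function.Injective s := by
  intro i j hij
  by_contra hne
  have h1 := ho.1 s i j hne
  have h2 : s ∘ Equiv.swap i j = s := by
    funext k
    simp only [Function.comp_apply]
    rcases eq_or_ne k i with rfl | hki
    · rw [Equiv.swap_apply_left, hij]
    · rcases eq_or_ne k j with rfl | hkj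
      · rw [Equiv.swap_apply_right, hij]
      · rw [Equiv.swap_apply_of_ne_of_ne hki hkj]
  rw [h2] at h1
  exact hs (by omega)

theorem affPt_eq (T : Finset ℕ) {n : ℕ} (s : Fin n → ℕ) (t : stdSimplex ℝ (Fin (n + 1))) :
    affPt T s t = affMap (flips T s) t := rfl

/-- the bounded cochain and its values on the affine simplices -/
theorem exists_cochain (L : Finset (Finset ℕ)) (hf : FlagC L) {n : ℕ} {G : Type} [Group G]
    (χ : G →* ℤˣ) (K : BCocycle G χ n) (r : ℕ → G)
    (hsq : ∀ i ∈ verts L, r i * r i = 1)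
    (hcomm : ∀ σ ∈ L, ∀ i ∈ σ, ∀ j ∈ σ, r i * r j = r j * r i)
    (hχ : ∀ i ∈ verts L, χ (r i) = -1) :
    ∃ c : SSimplex (RZ L) n → ℝ, (∀ σ, |c σ| ≤ K.C) ∧
      (∀ σ : SSimplex (RZ L) (n + 1), ∑ i : Fin (n + 2), (-1 : ℝ) ^ (i : ℕ) * c (face σ i) = 0) ∧
      ∀ T ∈ (verts L).powerset, ∀ s : Fin n → ℕ, Function.Injective s →
        Finset.univ.image s ∈ L → ∀ a : SSimplex (RZ L) n,
        (∀ t, ((a t : RZ L) : ℕ → ℝ) = affMap (flips T s) t) →
        c a = (-1 : ℝ) ^ T.card * K.F (Fin.partialProd fun i => r (s i)) := by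
  classical
  obtain ⟨D, hU, hidx, htr⟩ := flatRZ_exists L r hsq hcomm
  have hs : ∀ i j x, x ∈ D.U i → x ∈ D.U j →
      (-1 : ℤˣ) ^ j.card * χ (D.tr i j) = (-1 : ℤˣ) ^ i.card := by
    intro i j x hi hj
    rw [hU] at hi hj
    rw [htr]
    have hsub : symmDiff i j ⊆ verts L := by
      intro y hy
      by_contra hyL
      have hx1 : ((x : RZ L) : ℕ → ℝ) y = 1 := x.2.2.1 y hyL
      rw [Finset.mem_symmDiff] at hy
      rcases hy with ⟨h, _⟩ | ⟨h, _⟩
      · exact hi.1 y h hx1
      · exact hj.1 y h hx1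
    rw [B6.chi_prodR χ r _ fun k hk => hχ k (hsub hk)]
    exact B6.parity i j
  obtain ⟨c, hcb, hcc, hcl⟩ := cochain_exists D (fun T => (-1 : ℤˣ) ^ T.card) χ hs K
  refine ⟨c, hcb, hcc, ?_⟩
  intro T hT s hinj him a ha
  have hTs := Finset.mem_powerset.1 hT
  have hall := allowed_flips L hf T hTs s him
  obtain ⟨hl, hneg⟩ := isLift_aff L hf r hsq hcomm D hU hidx htr (flips T s) hall a ha
  have h1 := hcl _ _ hl
  simp only [hneg, hidx, B6.flips_zero, symmDiff_self, Finset.bot_eq_empty, B6.prodR_empty,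
    map_one, mul_one] at h1
  have hsub : Finset.univ.image s ⊆ verts L := fun x hx => Finset.mem_biUnion.2 ⟨_, him, hx⟩
  have h2 : (fun i => prodR r (symmDiff T (flips T s i))) = Fin.partialProd fun i => r (s i) := by
    funext k
    rw [B6.partialProd_eq r s hinj (fun i hi => hsq i (hsub hi)) (hcomm _ him) k]
    congr 1
    simp only [flips, B6.pre, symmDiff_symmDiff_cancel_left]
  rw [h2] at h1
  rw [h1]
  have h3 : (((-1 : ℤˣ) ^ T.card : ℤˣ) : ℤ) = (-1) ^ T.card := by simp
  rw [h3]
  push_cast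
  rfl

/-- evaluation of a cochain on a chain -/
noncomputable abbrev ev {X : Type} [TopologicalSpace X] {n : ℕ} (c : SSimplex X n → ℝ) :
    SChain X n →ₗ[ℝ] ℝ := Finsupp.linearCombination ℝ c

/-- value of the cochain on the moment cycle -/
theorem ev_moment (L : Finset (Finset ℕ)) (hf : FlagC L) {n : ℕ} (o : (Fin n → ℕ) → ℤ)
    (ho : IsSimplicialCycle L n o) (c : SSimplex (RZ L) n → ℝ) (F : (Fin n → ℕ) → ℝ)
    (hc : ∀ T ∈ (verts L).powerset, ∀ s : Fin n → ℕ, Function.Injective s →
        Finset.univ.image s ∈ L → ∀ a : SSimplex (RZ L) n,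
        (∀ t, ((a t : RZ L) : ℕ → ℝ) = affMap (flips T s) t) →
        c a = (-1 : ℝ) ^ T.card * F s) :
    ev c (momentCycle L n o) = 2 ^ (verts L).card *
      ∑ s ∈ Fintype.piFinset (fun _ : Fin n => verts L), (o s : ℝ) * F s := by
  classical
  have key : ∀ T ∈ (verts L).powerset, ∀ s : Fin n → ℕ,
      ev c (((-1 : ℝ) ^ T.card * (o s : ℝ)) • affChain L T s) = (o s : ℝ) * F s := by
    intro T hT s
    by_cases hos : o s = 0
    · simp [hos]
    have him := ho.2.1 s hos
    have hinj := inj_of_ne_zero ho hos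
    have hall := allowed_flips L hf T (Finset.mem_powerset.1 hT) s him
    have hmem : ∀ t, affPt T s t ∈ RZ L := fun t => by
      rw [affPt_eq]; exact B3.affMap_mem hall t
    rw [map_smul, affChain, dif_pos hmem]
    simp only [ev]
    rw [Finsupp.linearCombination_single,
      hc T hT s hinj him ⟨fun t => ⟨affPt T s t, hmem t⟩, (continuous_affPt T s).subtype_mk _⟩
        fun t => rfl]
    have h4 : (-1 : ℝ) ^ T.card * (-1 : ℝ) ^ T.card = 1 := by
      rw [← mul_pow]; simp
    simp only [smul_eq_mul, one_mul]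
    calc (-1 : ℝ) ^ T.card * (o s : ℝ) * ((-1) ^ T.card * F s)
        = ((-1 : ℝ) ^ T.card * (-1 : ℝ) ^ T.card) * ((o s : ℝ) * F s) := by ring
      _ = _ := by rw [h4, one_mul]
  rw [momentCycle, map_sum]
  have : ∀ T ∈ (verts L).powerset, ev c (∑ s ∈ Fintype.piFinset (fun _ : Fin n => verts L),
      ((-1 : ℝ) ^ T.card * (o s : ℝ)) • affChain L T s) =
      ∑ s ∈ Fintype.piFinset (fun _ : Fin n => verts L), (o s : ℝ) * F s := by
    intro T hT
    rw [map_sum]
    exact Finset.sum_congr rfl fun s _ => key T hT s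
  rw [Finset.sum_congr rfl this, Finset.sum_const, Finset.card_powerset, nsmul_eq_mul]
  push_cast
  rfl

/-! ### evaluation of the product cocycle for a cycle -/

theorem sum_antisymm {L : Finset (Finset ℕ)} (hf : FlagC L) {m : ℕ}
    {o : (Fin (2 * m) → ℕ) → ℤ} (ho : IsSimplicialCycle L (2 * m) o) (j : Fin m) (d : ℕ → ℕ → ℝ)
    (hd : ∀ x y : ℕ, ({x, y} : Finset ℕ) ∈ L → d x y = d y x) (W : (Fin (2 * m) → ℕ) → ℝ)
    (hW : ∀ s, W (s ∘ Equiv.swap (D2.e0 j) (D2.e1 j)) = W s) :
    ∑ s ∈ Fintype.piFinset (fun _ : Fin (2 * m) => verts L),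
      (o s : ℝ) * (d (s (D2.e0 j)) (s (D2.e1 j)) * W s) = 0 := by
  classical
  obtain ⟨halt, hsupp, -⟩ := ho
  have hne : D2.e0 j ≠ D2.e1 j := by
    intro h
    have := congrArg Fin.val h
    simp only [D2.e0, D2.e1] at this
    omega
  refine Finset.sum_involution (fun s _ => s ∘ Equiv.swap (D2.e0 j) (D2.e1 j)) ?_ ?_ ?_ ?_
  · intro s _
    have h1 : o (s ∘ Equiv.swap (D2.e0 j) (D2.e1 j)) = - o s := halt s _ _ hne
    simp only [h1, hW, Function.comp_apply, Equiv.swap_apply_left, Equiv.swap_apply_right]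
    by_cases h0 : o s = 0
    · rw [h0]
      simp
    · have h2 : ({s (D2.e0 j), s (D2.e1 j)} : Finset ℕ) ∈ L :=
        D2.pair_mem hf (hsupp s h0) (Finset.mem_image_of_mem _ (Finset.mem_univ _))
          (Finset.mem_image_of_mem _ (Finset.mem_univ _))
      rw [hd _ _ h2]
      push_cast
      ring
  · intro s _ hs heq
    apply hs
    have h1 : o (s ∘ Equiv.swap (D2.e0 j) (D2.e1 j)) = - o s := halt s _ _ hne
    rw [heq] at h1
    have h2 : o s = 0 := by omega
    rw [h2]
    simp
  · intro s hs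
    rw [Fintype.mem_piFinset] at hs ⊢
    intro i
    exact hs _
  · intro s _
    funext i
    simp [Function.comp_apply]

theorem replace {L : Finset (Finset ℕ)} (hf : FlagC L) {m : ℕ}
    {o : (Fin (2 * m) → ℕ) → ℤ} (ho : IsSimplicialCycle L (2 * m) o) (f g : ℕ → ℕ → ℕ → ℝ)
    (hd : ∀ j x y : ℕ, ({x, y} : Finset ℕ) ∈ L → g j x y - f j x y = g j y x - f j y x) :
    ∑ s ∈ Fintype.piFinset (fun _ : Fin (2 * m) => verts L),
      (o s : ℝ) * ∏ j : Fin m, f j (s (D2.e0 j)) (s (D2.e1 j)) =
    ∑ s ∈ Fintype.piFinset (fun _ : Fin (2 * m) => verts L),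
      (o s : ℝ) * ∏ j : Fin m, g j (s (D2.e0 j)) (s (D2.e1 j)) := by
  classical
  have key : ∀ J : Finset (Fin m),
      ∑ s ∈ Fintype.piFinset (fun _ : Fin (2 * m) => verts L),
        (o s : ℝ) * ∏ j : Fin m, (if j ∈ J then g j (s (D2.e0 j)) (s (D2.e1 j))
          else f j (s (D2.e0 j)) (s (D2.e1 j))) =
      ∑ s ∈ Fintype.piFinset (fun _ : Fin (2 * m) => verts L),
        (o s : ℝ) * ∏ j : Fin m, f j (s (D2.e0 j)) (s (D2.e1 j)) := by
    intro J
    induction J using Finset.induction_on with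
    | empty => simp
    | insert j0 J hj0 ih =>
      rw [← ih, ← sub_eq_zero, ← Finset.sum_sub_distrib]
      let h : Fin m → ℕ → ℕ → ℝ := fun j x y => if j ∈ J then g j x y else f j x y
      rw [← sum_antisymm hf ho j0 (fun x y => g j0 x y - f j0 x y) (hd j0)
        (fun s => ∏ j ∈ Finset.univ.erase j0, h j (s (D2.e0 j)) (s (D2.e1 j))) ?_]
      · refine Finset.sum_congr rfl fun s _ => ?_
        rw [← Finset.mul_prod_erase _ _ (Finset.mem_univ j0),
          ← Finset.mul_prod_erase (Finset.univ : Finset (Fin m))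
            (fun j => if j ∈ J then g j (s (D2.e0 j)) (s (D2.e1 j))
              else f j (s (D2.e0 j)) (s (D2.e1 j)))
            (Finset.mem_univ j0)]
        have h1 : ∏ x ∈ Finset.univ.erase j0, (if x ∈ insert j0 J then
              g x (s (D2.e0 x)) (s (D2.e1 x))
            else f x (s (D2.e0 x)) (s (D2.e1 x))) =
            ∏ j ∈ Finset.univ.erase j0, h j (s (D2.e0 j)) (s (D2.e1 j)) := by
          refine Finset.prod_congr rfl fun x hx => ?_
          have hne : x ≠ j0 := Finset.ne_of_mem_erase hx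
          simp only [Finset.mem_insert, hne, false_or, h]
        rw [h1, if_pos (Finset.mem_insert_self _ _), if_neg hj0]
        show (o s : ℝ) * (g j0 (s (D2.e0 j0)) (s (D2.e1 j0)) *
            ∏ j ∈ Finset.univ.erase j0, h j (s (D2.e0 j)) (s (D2.e1 j))) -
          (o s : ℝ) * (f j0 (s (D2.e0 j0)) (s (D2.e1 j0)) *
            ∏ j ∈ Finset.univ.erase j0, h j (s (D2.e0 j)) (s (D2.e1 j))) =
          (o s : ℝ) * ((g j0 (s (D2.e0 j0)) (s (D2.e1 j0)) - f j0 (s (D2.e0 j0)) (s (D2.e1 j0))) *
            ∏ j ∈ Finset.univ.erase j0, h j (s (D2.e0 j)) (s (D2.e1 j)))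
        ring
      · intro s
        refine Finset.prod_congr rfl fun x hx => ?_
        have hne : (x : ℕ) ≠ j0 := fun h => Finset.ne_of_mem_erase hx (Fin.ext h)
        have a1 : (Equiv.swap (D2.e0 j0) (D2.e1 j0)) (D2.e0 x) = D2.e0 x := by
          apply Equiv.swap_apply_of_ne_of_ne
          · intro h
            have := congrArg Fin.val h
            simp only [D2.e0] at this
            omega
          · intro h
            have := congrArg Fin.val h
            simp only [D2.e0, D2.e1] at this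
            omega
        have a2 : (Equiv.swap (D2.e0 j0) (D2.e1 j0)) (D2.e1 x) = D2.e1 x := by
          apply Equiv.swap_apply_of_ne_of_ne
          · intro h
            have := congrArg Fin.val h
            simp only [D2.e0, D2.e1] at this
            omega
          · intro h
            have := congrArg Fin.val h
            simp only [D2.e1] at this
            omega
        simp only [Function.comp_apply, a1, a2]
  rw [← key Finset.univ]
  refine Finset.sum_congr rfl fun s _ => ?_
  simp only [Finset.mem_univ, if_true]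

/-- exact evaluation -/
theorem evaluation (P : PentData) (L : Finset (Finset ℕ)) (hf : FlagC L) (m : ℕ)
    (o : (Fin (2 * m) → ℕ) → ℤ) (ho : IsSimplicialCycle L (2 * m) o)
    (φ : ℕ → ℕ × ZMod 5) (hG : Good L m φ) (s0 : Fin (2 * m) → ℕ)
    (hs0 : ∀ i, φ (s0 i) = D2.lab i) (hs0L : Finset.univ.image s0 ∈ L) :
    ∑ s ∈ Fintype.piFinset (fun _ : Fin (2 * m) => verts L),
      (o s : ℝ) * cupF P m (Fin.partialProd fun i => refl P φ (s i)) = o s0 := by
  classical
  rw [Finset.sum_congr rfl (fun s _ => by rw [D2.cupF_eq P φ m s])]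
  rw [replace hf ho (D2.fac P φ) (D2.gac φ) (fun j x y hxy => D2.antisymm_eq P hG j x y hxy)]
  obtain ⟨-, -, σ, ⟨hσL, hσc, hσi⟩, huniq⟩ := hG
  have hinj : ∀ s : Fin (2 * m) → ℕ, (∀ i, φ (s i) = D2.lab i) → Function.Injective s := by
    intro s hs i k hik
    apply D2.lab_injective m
    rw [← hs i, ← hs k, hik]
  have himg : ∀ s : Fin (2 * m) → ℕ, (∀ i, φ (s i) = D2.lab i) →
      Finset.univ.image s ∈ L → Finset.univ.image s = σ := by
    intro s hs hL
    apply huniq
    refine ⟨hL, ?_, ?_⟩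
    · rw [Finset.card_image_of_injective _ (hinj s hs), Finset.card_univ, Fintype.card_fin]
    · rw [Finset.image_image, ← D2.image_lab]
      refine Finset.image_congr fun i _ => ?_
      exact hs i
  have h0img := himg s0 hs0 hs0L
  have hφinj : Set.InjOn φ σ := by
    rw [← Finset.card_image_iff, hσi, hσc, ← D2.image_lab,
      Finset.card_image_of_injective _ (D2.lab_injective m), Finset.card_univ, Fintype.card_fin]
  have hmem0 : ∀ i, s0 i ∈ σ := fun i => by
    rw [← h0img]; exact Finset.mem_image_of_mem _ (Finset.mem_univ _)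
  rw [Finset.sum_eq_single s0]
  · rw [(D2.gac_prod φ m s0).1 hs0, mul_one]
  · intro s _ hne
    by_cases h : ∀ i, φ (s i) = D2.lab i
    · have h1 : o s = 0 := by
        by_contra h2
        have h3 := himg s h (ho.2.1 s h2)
        apply hne
        funext i
        apply hφinj
        · have h4 : s i ∈ Finset.univ.image s := Finset.mem_image_of_mem _ (Finset.mem_univ _)
          rw [h3] at h4
          exact h4
        · exact hmem0 i
        · rw [h i, hs0 i]
      rw [h1]
      simp
    · rw [(D2.gac_prod φ m s).2 h, mul_zero]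
  · intro h
    exfalso
    apply h
    rw [Fintype.mem_piFinset]
    intro i
    exact D2.mem_verts hσL (hmem0 i)

end E

end MP8a95ee
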