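import Pool.Agent.Work.MP_8a95ee_gt.E

/-!
# The labelling attached to a coloured facet and the lower bound
-/

namespace MP8a95ee

namespace F

open Classical in
/-- the label in Z/5 -/
noncomputable def lb (L : Finset (Finset ℕ)) (A B : ℕ → ℕ) (col : ℕ → ℕ) (v : ℕ) : ZMod 5 :=
  if v = B (col v) then 1 else if v = A (col v) then 0 else
  if ({v, B (col v)} : Finset ℕ) ∈ L then 2 else
  if ({A (col v), v} : Finset ℕ) ∈ L then 4 else 3

theorem lb_cases (L : Finset (Finset ℕ)) (A B : ℕ → ℕ) (col : ℕ → ℕ) (v : ℕ) :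
    (v = B (col v) ∧ lb L A B col v = 1) ∨
    (v ≠ B (col v) ∧ v = A (col v) ∧ lb L A B col v = 0) ∨
    (v ≠ B (col v) ∧ v ≠ A (col v) ∧ ({v, B (col v)} : Finset ℕ) ∈ L ∧ lb L A B col v = 2) ∨
    (v ≠ B (col v) ∧ v ≠ A (col v) ∧ ({v, B (col v)} : Finset ℕ) ∉ L ∧
      ({A (col v), v} : Finset ℕ) ∈ L ∧ lb L A B col v = 4) ∨
    (v ≠ B (col v) ∧ v ≠ A (col v) ∧ ({v, B (col v)} : Finset ℕ) ∉ L ∧
      ({A (col v), v} : Finset ℕ) ∉ L ∧ lb L A B col v = 3) := by
  unfold lb
  by_cases h1 : v = B (col v)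
  · exact Or.inl ⟨h1, if_pos h1⟩
  right
  rw [if_neg h1]
  by_cases h2 : v = A (col v)
  · exact Or.inl ⟨h1, h2, if_pos h2⟩
  right
  rw [if_neg h2]
  by_cases h3 : ({v, B (col v)} : Finset ℕ) ∈ L
  · exact Or.inl ⟨h1, h2, h3, if_pos h3⟩
  right
  rw [if_neg h3]
  by_cases h4 : ({A (col v), v} : Finset ℕ) ∈ L
  · exact Or.inl ⟨h1, h2, h3, h4, if_pos h4⟩
  · exact Or.inr ⟨h1, h2, h3, h4, if_neg h4⟩

theorem good {m : ℕ} {L : Finset (Finset ℕ)} (hf : FlagC L) {o : (Fin (2 * m) → ℕ) → ℤ}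
    (ho : IsSimplicialCycle L (2 * m) o) {A B col : ℕ → ℕ} (hcol : ∀ v ∈ verts L, col v < m)
    (hA : ∀ j < m, col (A j) = j) (hB : ∀ j < m, col (B j) = j)
    (h0 : o (pairTuple m A B) ≠ 0)
    (hloc : ∀ j < m, ∀ x y : ℕ, col x = j → col y = j → ({A j, x} : Finset ℕ) ∈ L →
      ({x, y} : Finset ℕ) ∈ L → ({y, B j} : Finset ℕ) ∈ L →
      x = B j ∨ y = A j ∨ (x = A j ∧ y = B j)) :
    Good L m (fun v => (col v, lb L A B col v)) ∧
    (∀ i, (fun v => (col v, lb L A B col v)) (pairTuple m A B i) = D2.lab i) ∧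
    Finset.univ.image (pairTuple m A B) ∈ L := by
  have hinj := E.inj_of_ne_zero ho h0
  have hL0 := ho.2.1 _ h0
  have hAB : ∀ j < m, A j ≠ B j := by
    intro j hj h
    have h1 : pairTuple m A B ⟨2 * j, by omega⟩ = A j := by
      unfold pairTuple
      rw [if_pos (by simp)]
      congr 1
      simp
    have h2 : pairTuple m A B ⟨2 * j + 1, by omega⟩ = B j := by
      unfold pairTuple
      rw [if_neg (by simp only; omega)]
      congr 1
      simp only
      omega
    have h3 := hinj (h1.trans (h.trans h2.symm))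
    simp at h3
  have hmemA : ∀ j < m, A j ∈ Finset.univ.image (pairTuple m A B) := by
    intro j hj
    refine Finset.mem_image.2 ⟨⟨2 * j, by omega⟩, Finset.mem_univ _, ?_⟩
    unfold pairTuple
    rw [if_pos (by simp)]
    congr 1
    simp
  have hAA : ∀ j < m, ({A j, A j} : Finset ℕ) ∈ L := fun j hj =>
    (hf _).1 hL0 _ (hmemA j hj) _ (hmemA j hj)
  have hlabA : ∀ j < m, lb L A B col (A j) = 0 := by
    intro j hj
    unfold lb
    rw [hA j hj, if_neg (hAB j hj), if_pos rfl]
  have hlabB : ∀ j < m, lb L A B col (B j) = 1 := by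
    intro j hj
    unfold lb
    rw [hB j hj, if_pos rfl]
  have hlab : ∀ i, (fun v => (col v, lb L A B col v)) (pairTuple m A B i) = D2.lab i := by
    intro i
    have hi : (i : ℕ) / 2 < m := by omega
    unfold pairTuple D2.lab
    by_cases h : (i : ℕ) % 2 = 0
    · simp only [if_pos h, hA _ hi, hlabA _ hi]
    · simp only [if_neg h, hB _ hi, hlabB _ hi]
  refine ⟨⟨?_, ?_, ?_⟩, hlab, hL0⟩
  · intro i hi
    exact hcol i hi
  · intro x y hxy hc
    simp only at hc
    have hx : x ∈ verts L := Finset.mem_biUnion.2 ⟨_, hxy, by simp⟩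
    have hj := hcol x hx
    have hyx : ({y, x} : Finset ℕ) ∈ L := by rw [Finset.pair_comm]; exact hxy
    have key : ∀ x y : ℕ, ({x, y} : Finset ℕ) ∈ L → col x = col y → col x < m →
        (x = A (col x) → lb L A B col y ≠ 2 ∧ lb L A B col y ≠ 3) ∧
        (x = B (col x) → lb L A B col y ≠ 3 ∧ lb L A B col y ≠ 4) ∧
        (lb L A B col x = 2 → lb L A B col y ≠ 4) := by
      intro x y hxy hc hj
      have e1 := lb_cases L A B col y
      have e2 := lb_cases L A B col x
      rw [← hc] at e1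
      refine ⟨?_, ?_, ?_⟩
      · intro hxA
        refine ⟨fun h2 => ?_, fun h3 => ?_⟩
        · rcases e1 with ⟨-, h⟩ | ⟨-, -, h⟩ | ⟨n1, n2, e, -⟩ | ⟨-, -, -, -, h⟩ | ⟨-, -, -, -, h⟩
          · rw [h] at h2; exact absurd h2 (by decide)
          · rw [h] at h2; exact absurd h2 (by decide)
          · rcases hloc (col x) hj (A (col x)) y (hA _ hj) hc.symm (hAA _ hj)
              (by rw [← hxA]; exact hxy) e with h | h | h
            · exact hAB _ hj h
            · exact n2 h
            · exact n1 h.2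
          · rw [h] at h2; exact absurd h2 (by decide)
          · rw [h] at h2; exact absurd h2 (by decide)
        · rcases e1 with ⟨-, h⟩ | ⟨-, -, h⟩ | ⟨-, -, -, h⟩ | ⟨-, -, -, -, h⟩ | ⟨-, -, -, e, -⟩
          · rw [h] at h3; exact absurd h3 (by decide)
          · rw [h] at h3; exact absurd h3 (by decide)
          · rw [h] at h3; exact absurd h3 (by decide)
          · rw [h] at h3; exact absurd h3 (by decide)
          · exact e (by rw [← hxA]; exact hxy)
      · intro hxB
        refine ⟨fun h3 => ?_, fun h4 => ?_⟩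
        · rcases e1 with ⟨-, h⟩ | ⟨-, -, h⟩ | ⟨-, -, -, h⟩ | ⟨-, -, -, -, h⟩ | ⟨-, -, e, -, -⟩
          · rw [h] at h3; exact absurd h3 (by decide)
          · rw [h] at h3; exact absurd h3 (by decide)
          · rw [h] at h3; exact absurd h3 (by decide)
          · rw [h] at h3; exact absurd h3 (by decide)
          · exact e (by rw [← hxB, Finset.pair_comm]; exact hxy)
        · rcases e1 with ⟨-, h⟩ | ⟨-, -, h⟩ | ⟨-, -, -, h⟩ | ⟨-, -, e, -, -⟩ | ⟨-, -, -, -, h⟩
          · rw [h] at h4; exact absurd h4 (by decide)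
          · rw [h] at h4; exact absurd h4 (by decide)
          · rw [h] at h4; exact absurd h4 (by decide)
          · exact e (by rw [← hxB, Finset.pair_comm]; exact hxy)
          · rw [h] at h4; exact absurd h4 (by decide)
      · intro h2 h4
        rcases e2 with ⟨-, h⟩ | ⟨-, -, h⟩ | ⟨n1, n2, e, -⟩ | ⟨-, -, -, -, h⟩ | ⟨-, -, -, -, h⟩
        · rw [h] at h2; exact absurd h2 (by decide)
        · rw [h] at h2; exact absurd h2 (by decide)
        · rcases e1 with ⟨-, h⟩ | ⟨-, -, h⟩ | ⟨-, -, -, h⟩ | ⟨k1, k2, -, e', -⟩ | ⟨-, -, -, -, h⟩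
          · rw [h] at h4; exact absurd h4 (by decide)
          · rw [h] at h4; exact absurd h4 (by decide)
          · rw [h] at h4; exact absurd h4 (by decide)
          · rcases hloc (col x) hj y x hc.symm rfl e' (by rw [Finset.pair_comm]; exact hxy) e
              with h | h | h
            · exact k1 h
            · exact n2 h
            · exact k2 h.1
          · rw [h] at h4; exact absurd h4 (by decide)
        · rw [h] at h2; exact absurd h2 (by decide)
        · rw [h] at h2; exact absurd h2 (by decide)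
    obtain ⟨a1, a2, a3⟩ := key x y hxy hc hj
    obtain ⟨b1, b2, b3⟩ := key y x hyx hc.symm (hc ▸ hj)
    simp only
    rcases lb_cases L A B col x with ⟨e, h⟩ | ⟨-, e, h⟩ | ⟨-, -, -, h⟩ | ⟨-, -, -, -, h⟩ |
      ⟨-, -, -, -, h⟩ <;>
    rcases lb_cases L A B col y with ⟨e', h'⟩ | ⟨-, e', h'⟩ | ⟨-, -, -, h'⟩ | ⟨-, -, -, -, h'⟩ |
      ⟨-, -, -, -, h'⟩ <;>
    rw [h, h'] <;>
    first
    | decide
    | (exfalso; rw [h'] at a2; exact (a2 e).1 rfl)
    | (exfalso; rw [h'] at a2; exact (a2 e).2 rfl)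
    | (exfalso; rw [h'] at a1; exact (a1 e).1 rfl)
    | (exfalso; rw [h'] at a1; exact (a1 e).2 rfl)
    | (exfalso; rw [h] at b2; exact (b2 e').1 rfl)
    | (exfalso; rw [h] at b2; exact (b2 e').2 rfl)
    | (exfalso; rw [h] at b1; exact (b1 e').1 rfl)
    | (exfalso; rw [h] at b1; exact (b1 e').2 rfl)
    | (exfalso; exact a3 h h')
    | (exfalso; exact b3 h' h)
  · have huniqv : ∀ v : ℕ, ∀ i : Fin (2 * m),
        (col v, lb L A B col v) = D2.lab i → v = pairTuple m A B i := by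
      intro v i hv
      have hi : (i : ℕ) / 2 < m := by omega
      unfold D2.lab at hv
      unfold pairTuple
      rw [Prod.mk.injEq] at hv
      obtain ⟨hv1, hv2⟩ := hv
      by_cases h : (i : ℕ) % 2 = 0
      · rw [if_pos h] at hv2 ⊢
        rcases lb_cases L A B col v with ⟨e, h'⟩ | ⟨-, e, h'⟩ | ⟨-, -, -, h'⟩ | ⟨-, -, -, -, h'⟩ |
          ⟨-, -, -, -, h'⟩
        · rw [h'] at hv2; exact absurd hv2 (by decide)
        · rw [← hv1]; exact e
        · rw [h'] at hv2; exact absurd hv2 (by decide)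
        · rw [h'] at hv2; exact absurd hv2 (by decide)
        · rw [h'] at hv2; exact absurd hv2 (by decide)
      · rw [if_neg h] at hv2 ⊢
        rcases lb_cases L A B col v with ⟨e, h'⟩ | ⟨-, e, h'⟩ | ⟨-, -, -, h'⟩ | ⟨-, -, -, -, h'⟩ |
          ⟨-, -, -, -, h'⟩
        · rw [← hv1]; exact e
        · rw [h'] at hv2; exact absurd hv2 (by decide)
        · rw [h'] at hv2; exact absurd hv2 (by decide)
        · rw [h'] at hv2; exact absurd hv2 (by decide)
        · rw [h'] at hv2; exact absurd hv2 (by decide)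
    have hcard0 : (Finset.univ.image (pairTuple m A B)).card = 2 * m := by
      rw [Finset.card_image_of_injective _ hinj, Finset.card_univ, Fintype.card_fin]
    refine ⟨Finset.univ.image (pairTuple m A B), ⟨hL0, hcard0, ?_⟩, ?_⟩
    · rw [Finset.image_image, ← D2.image_lab]
      exact Finset.image_congr fun i _ => hlab i
    · rintro σ ⟨-, hσc, hσi⟩
      symm
      apply Finset.eq_of_subset_of_card_le
      · intro x hx
        obtain ⟨i, -, rfl⟩ := Finset.mem_image.1 hx
        have h1 : D2.lab i ∈ σ.image (fun v => (col v, lb L A B col v)) := by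
          rw [hσi, ← D2.image_lab]
          exact Finset.mem_image_of_mem _ (Finset.mem_univ _)
        obtain ⟨v, hv, hv'⟩ := Finset.mem_image.1 h1
        rw [← huniqv v i hv']
        exact hv
      · rw [hσc, hcard0]

theorem ev_push {X Y : Type} [TopologicalSpace X] [TopologicalSpace Y] (f : C(X, Y)) {n : ℕ}
    (c : SSimplex Y n → ℝ) (z : SChain X n) :
    E.ev c (push f z) = E.ev (fun σ => c (f.comp σ)) z := by
  unfold push E.ev
  rw [Finsupp.linearCombination_mapDomain]
  rfl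

/-- The lower bound. -/
theorem lower {m : ℕ} {L : Finset (Finset ℕ)} (hf : FlagC L) {o : (Fin (2 * m) → ℕ) → ℤ}
    (ho : IsSimplicialCycle L (2 * m) o) {φ : ℕ → ℕ × ZMod 5} (hG : Good L m φ)
    (s0 : Fin (2 * m) → ℕ) (hs0 : ∀ i, φ (s0 i) = D2.lab i) (hs0L : Finset.univ.image s0 ∈ L)
    {X : Type} [TopologicalSpace X] (f : C(X, RZ L)) (lam : ℝ) (z : SChain X (2 * m))
    (w : SChain (RZ L) (2 * m + 1))
    (h : push f z = lam • momentCycle L (2 * m) o + bd w) :
    2 ^ ((verts L).card + m) * |lam * (o s0 : ℝ)| ≤ l1 z := by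
  obtain ⟨P, hP⟩ := E.exists_pent_half
  obtain ⟨K, hK, hKC⟩ := E.cup_bound P m
  obtain ⟨h1, h2, h3⟩ := refl_facts P L hf m φ hG
  obtain ⟨c, hcb, hcc, hcv⟩ := E.exists_cochain L hf (prodChi P m) K (refl P φ)
    (fun i _ => h1 i) h2 h3
  have hev : E.ev c (momentCycle L (2 * m) o) = 2 ^ (verts L).card * (o s0 : ℝ) := by
    rw [E.ev_moment L hf o ho c (fun s => K.F (Fin.partialProd fun i => refl P φ (s i))) hcv]
    rw [hK, E.evaluation P L hf m o ho φ hG s0 hs0 hs0L]
  have hbd : E.ev c (bd w) = 0 := by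
    have := B3.ev_bd c hcc w
    rw [B3.ev_eq] at this
    exact this
  have hz : E.ev (fun σ => c (f.comp σ)) z = lam * (2 ^ (verts L).card * (o s0 : ℝ)) := by
    rw [← ev_push, h, map_add, map_smul, hev, hbd, add_zero, smul_eq_mul]
  have hle := B3.ev_le (fun σ => c (f.comp σ)) ((1 / 2) ^ m) (fun σ => by
    have := hcb (f.comp σ)
    rw [hKC, hP] at this
    exact this) z
  rw [B3.ev_eq] at hle
  have hle' : |lam * (2 ^ (verts L).card * (o s0 : ℝ))| ≤ (1 / 2) ^ m * l1 z := by
    rw [← hz]; exact hle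
  have e1 : |lam * (2 ^ (verts L).card * (o s0 : ℝ))| =
      2 ^ (verts L).card * |lam * (o s0 : ℝ)| := by
    rw [show lam * (2 ^ (verts L).card * (o s0 : ℝ)) =
      2 ^ (verts L).card * (lam * (o s0 : ℝ)) by ring, abs_mul]
    congr 1
    exact abs_of_pos (by positivity)
  rw [e1] at hle'
  have e2 : (2 : ℝ) ^ m * (1 / 2) ^ m = 1 := by
    rw [← mul_pow]; norm_num
  calc (2 : ℝ) ^ ((verts L).card + m) * |lam * (o s0 : ℝ)|
      = 2 ^ m * (2 ^ (verts L).card * |lam * (o s0 : ℝ)|) := by rw [pow_add]; ring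
    _ ≤ 2 ^ m * ((1 / 2) ^ m * l1 z) := mul_le_mul_of_nonneg_left hle' (by positivity)
    _ = l1 z := by rw [← mul_assoc, e2, one_mul]

end F

end MP8a95ee
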