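import Mathlib

/-!
# Part one: the combinatorial evaluation of the cocycle

The tuple attached to an ordered simplex `s` and a set `b` of positions has the entries
`{s l : l ∈ b} sym {s 0, ..., s (j-1)}`.
-/

set_option autoImplicit false

namespace MP8a95ee.PartOne

open Finset

/-- coboundary of a function on tuples -/
noncomputable def dl {X : Type*} {n : ℕ} (f : (Fin n → X) → ℝ) (T : Fin (n + 1) → X) : ℝ :=
  ∑ i : Fin (n + 1), (-1 : ℝ) ^ (i : ℕ) * f (fun k => T (i.succAbove k))

theorem dl_dl {X : Type*} {n : ℕ} (f : (Fin n → X) → ℝ) (T : Fin (n + 2) → X) :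
    dl (dl f) T = 0 := by
  unfold dl
  simp only [Finset.mul_sum]
  rw [← Finset.sum_product' (Finset.univ : Finset (Fin (n + 2)))
    (Finset.univ : Finset (Fin (n + 1)))
    (fun i j => (-1 : ℝ) ^ (i : ℕ) * ((-1) ^ (j : ℕ) *
      f (fun k => T (i.succAbove (j.succAbove k)))))]
  refine Finset.sum_involution (fun p _ => (p.1.succAbove p.2, p.2.predAbove p.1)) ?_ ?_ ?_ ?_
  · rintro ⟨i, j⟩ _
    simp only [Fin.succAbove_succAbove_succAbove_predAbove]
    have h := Fin.neg_one_pow_succAbove_add_predAbove (R := ℝ) i j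
    rw [← mul_assoc, ← mul_assoc, ← pow_add, ← pow_add, h]
    ring
  · rintro ⟨i, j⟩ _ _ h
    exact Fin.succAbove_ne i j (Prod.ext_iff.1 h).1
  · intro _ _
    exact Finset.mem_univ _
  · rintro ⟨i, j⟩ _
    exact Prod.ext (Fin.succAbove_succAbove_predAbove _ _) (Fin.predAbove_predAbove_succAbove _ _)

/-- the first `m` positions -/
def pre (N m : ℕ) : Finset (Fin N) := Finset.univ.filter fun i => (i : ℕ) < m

theorem mem_pre {N m : ℕ} (i : Fin N) : i ∈ pre N m ↔ (i : ℕ) < m := by simp [pre]

variable {V : Type} [DecidableEq V]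

theorem image_perm {N : ℕ} (σ : Equiv.Perm (Fin N)) (s : Fin N → V) (b P P' : Finset (Fin N))
    (h : ∀ l, σ l ∈ P' ↔ l ∈ P) :
    (symmDiff b P).image (s ∘ σ) = (symmDiff (b.map σ.toEmbedding) P').image s := by
  ext x
  simp only [Finset.mem_image, Finset.mem_symmDiff, Function.comp_apply, Finset.mem_map,
    Equiv.coe_toEmbedding]
  constructor
  · rintro ⟨l, hl, rfl⟩
    refine ⟨σ l, ?_, rfl⟩
    rw [h l]
    have : (∃ a ∈ b, σ a = σ l) ↔ l ∈ b :=
      ⟨fun ⟨a, ha, hal⟩ => σ.injective hal ▸ ha, fun hl => ⟨l, hl, rfl⟩⟩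
    rw [this]
    exact hl
  · rintro ⟨l, hl, rfl⟩
    refine ⟨σ.symm l, ?_, by simp⟩
    have h2 := h (σ.symm l)
    rw [Equiv.apply_symm_apply] at h2
    rw [← h2]
    have : (∃ a ∈ b, σ a = l) ↔ σ.symm l ∈ b :=
      ⟨fun ⟨a, ha, hal⟩ => by rw [← hal, Equiv.symm_apply_apply]; exact ha,
        fun hl => ⟨_, hl, Equiv.apply_symm_apply _ _⟩⟩
    rw [← this]
    exact hl

omit [DecidableEq V] in
/-- alternating functions and permutations -/
theorem alt_perm {N : ℕ} (o : (Fin N → V) → ℝ)
    (halt : ∀ (s : Fin N → V) (i j : Fin N), i ≠ j → o (s ∘ Equiv.swap i j) = - o s)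
    (σ : Equiv.Perm (Fin N)) : ∀ s, o (s ∘ σ) = ((Equiv.Perm.sign σ : ℤ) : ℝ) * o s := by
  induction σ using Equiv.Perm.swap_induction_on with
  | one => intro s; simp
  | swap_mul σ x y hxy ih =>
    intro s
    have h1 : s ∘ ((Equiv.swap x y * σ : Equiv.Perm (Fin N))) = (s ∘ Equiv.swap x y) ∘ σ := by
      funext i; simp
    rw [h1, ih, halt _ _ _ hxy, Equiv.Perm.sign_mul, Equiv.Perm.sign_swap hxy]
    push_cast
    ring

theorem card_symmDiff_singleton {N : ℕ} (b : Finset (Fin N)) (i : Fin N) :
    (-1 : ℝ) ^ (symmDiff b {i}).card = - (-1) ^ b.card := by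
  by_cases h : i ∈ b
  · have h1 : symmDiff b {i} = b.erase i := by
      ext x
      simp only [Finset.mem_symmDiff, Finset.mem_singleton, Finset.mem_erase]
      constructor
      · rintro (⟨h2, h3⟩ | ⟨h2, h3⟩)
        · exact ⟨h3, h2⟩
        · subst h2; exact absurd h h3
      · rintro ⟨h2, h3⟩
        exact Or.inl ⟨h3, h2⟩
    have h2 : b.card = (b.erase i).card + 1 := (Finset.card_erase_add_one h).symm
    rw [h1, h2, pow_succ]
    ring
  · have h1 : symmDiff b {i} = insert i b := by
      ext x
      simp only [Finset.mem_symmDiff, Finset.mem_singleton, Finset.mem_insert]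
      constructor
      · rintro (⟨h2, h3⟩ | ⟨h2, h3⟩)
        · exact Or.inr h2
        · exact Or.inl h2
      · rintro (h2 | h2)
        · subst h2; exact Or.inr ⟨rfl, h⟩
        · refine Or.inl ⟨h2, ?_⟩
          rintro rfl
          exact h h2
    rw [h1, Finset.card_insert_of_notMem h, pow_succ]
    ring

omit [DecidableEq V] in
/-- a function which does not depend on the last vertex pairs to zero with a cycle -/
theorem sum_drop [Fintype V] {n : ℕ} (o u : (Fin (n + 1) → V) → ℝ)
    (hu : ∀ s x, u (Function.update s (Fin.last n) x) = u s)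
    (hcyc : ∀ s, ∑ x, o (Function.update s (Fin.last n) x) = 0) : ∑ s, o s * u s = 0 := by
  rw [← (Fin.snocEquiv (fun _ => V)).sum_comp, Fintype.sum_prod_type, Finset.sum_comm]
  refine Finset.sum_eq_zero fun t _ => ?_
  by_cases hV : Nonempty V
  · obtain ⟨x0⟩ := hV
    have h1 : ∀ x : V, (Fin.snocEquiv (fun _ => V)) (x, t) =
        Function.update (Fin.snoc t x0 : Fin (n + 1) → V) (Fin.last n) x := by
      intro x
      rw [Fin.update_snoc_last]
      rfl
    simp only [h1, hu]
    rw [← Finset.sum_mul, hcyc, zero_mul]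
  · rw [not_nonempty_iff] at hV
    simp

/-- the value of `f` on the cycle `ζ` -/
noncomputable def zv [Fintype V] {n : ℕ} (o : (Fin (n + 1) → V) → ℝ)
    (f : (Fin (n + 1) → Finset V) → ℝ) : ℝ :=
  ∑ s, o s * ∑ b ∈ (Finset.univ.erase (Fin.last n)).powerset, (-1 : ℝ) ^ b.card *
    f (fun k => insert (s (Fin.last n)) ((symmDiff b (pre (n + 1) k)).image s))

theorem local_sum [Fintype V] {n : ℕ} (o : (Fin (n + 1) → V) → ℝ)
    (halt : ∀ (s : Fin (n + 1) → V) (i j : Fin (n + 1)), i ≠ j → o (s ∘ Equiv.swap i j) = - o s)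
    (hcyc : ∀ s, ∑ x, o (Function.update s (Fin.last n) x) = 0)
    (f : (Fin (n + 1) → Finset V) → ℝ) :
    ∑ s, o s * ∑ b : Finset (Fin (n + 1)), (-1 : ℝ) ^ b.card *
      dl f (fun j : Fin (n + 2) => (symmDiff b (pre (n + 1) j)).image s) =
      2 * (-1) ^ n * zv o f := by
  -- the contribution of the face `i`
  set g : Fin (n + 2) → (Fin (n + 1) → V) → ℝ := fun i s =>
    ∑ b : Finset (Fin (n + 1)), (-1 : ℝ) ^ b.card *
      f (fun k => (symmDiff b (pre (n + 1) (i.succAbove k : Fin (n + 2)))).image s) with hg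
  have h0 : ∑ s, o s * ∑ b : Finset (Fin (n + 1)), (-1 : ℝ) ^ b.card *
      dl f (fun j : Fin (n + 2) => (symmDiff b (pre (n + 1) j)).image s) =
      ∑ i : Fin (n + 2), (-1 : ℝ) ^ (i : ℕ) * ∑ s, o s * g i s := by
    simp only [hg, dl, Finset.mul_sum]
    conv_rhs => rw [Finset.sum_comm]
    refine Finset.sum_congr rfl fun s _ => ?_
    rw [Finset.sum_comm]
    exact Finset.sum_congr rfl fun i _ => Finset.sum_congr rfl fun b _ => by ring
  -- middle faces
  have hmid : ∀ i : Fin (n + 2), i ≠ 0 → i ≠ Fin.last (n + 1) → ∑ s, o s * g i s = 0 := by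
    intro i hi0 hil
    have hi1 : 0 < (i : ℕ) := Nat.pos_of_ne_zero fun h => hi0 (Fin.ext h)
    have hi2 : (i : ℕ) < n + 1 := by
      have h1 := i.2
      have h2 : (i : ℕ) ≠ n + 1 := fun h => hil (Fin.ext h)
      omega
    set p : Fin (n + 1) := ⟨(i : ℕ) - 1, by omega⟩ with hp
    set q : Fin (n + 1) := ⟨(i : ℕ), hi2⟩ with hq
    have hpq : p ≠ q := by
      intro h
      have := congrArg Fin.val h
      simp only [hp, hq] at this
      omega
    set σ := Equiv.swap p q with hσ
    have hgs : ∀ s, g i (s ∘ σ) = g i s := by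
      intro s
      simp only [hg]
      rw [← (Equiv.finsetCongr σ).sum_comp fun b => (-1 : ℝ) ^ b.card *
        f (fun k => (symmDiff b (pre (n + 1) (i.succAbove k : Fin (n + 2)))).image s)]
      refine Finset.sum_congr rfl fun b _ => ?_
      simp only [Equiv.finsetCongr_apply, Finset.card_map]
      congr 2
      funext k
      refine image_perm σ s b _ _ fun l => ?_
      rw [mem_pre, mem_pre]
      have hk : ((i.succAbove k : Fin (n + 2)) : ℕ) ≠ (i : ℕ) := fun h =>
        Fin.succAbove_ne i k (Fin.ext h)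
      by_cases hlp : l = p
      · subst hlp
        rw [hσ, Equiv.swap_apply_left]
        simp only [hp, hq]
        omega
      by_cases hlq : l = q
      · subst hlq
        rw [hσ, Equiv.swap_apply_right]
        simp only [hp, hq]
        omega
      · rw [hσ, Equiv.swap_apply_of_ne_of_ne hlp hlq]
    have h1 : ∑ s, o s * g i s = ∑ s, o (s ∘ σ) * g i (s ∘ σ) :=
      ((Equiv.arrowCongr σ.symm (Equiv.refl V)).sum_comp fun s => o s * g i s).symm
    have h2 : ∑ s, o (s ∘ σ) * g i (s ∘ σ) = - ∑ s, o s * g i s := by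
      rw [← Finset.sum_neg_distrib]
      refine Finset.sum_congr rfl fun s _ => ?_
      rw [hgs, halt s p q hpq]
      ring
    linarith
  -- the rotation
  have hrot : ∑ s, o s * g 0 s = (-1) ^ (n + 1) * ∑ s, o s * g (Fin.last (n + 1)) s := by
    set σ : Equiv.Perm (Fin (n + 1)) := finRotate (n + 1) with hσ
    have hgs : ∀ s, g (Fin.last (n + 1)) (s ∘ σ) = - g 0 s := by
      intro s
      simp only [hg]
      have hinv : ∑ b : Finset (Fin (n + 1)), (-1 : ℝ) ^ b.card *
          f (fun k => (symmDiff b (pre (n + 1) ((0 : Fin (n + 2)).succAbove k : Fin (n + 2)))).image s)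
          = ∑ b : Finset (Fin (n + 1)), (-1 : ℝ) ^ (symmDiff b {0}).card *
          f (fun k => (symmDiff (symmDiff b {0})
            (pre (n + 1) ((0 : Fin (n + 2)).succAbove k : Fin (n + 2)))).image s) := by
        have hi : Function.Involutive fun b : Finset (Fin (n + 1)) => symmDiff b {0} := by
          intro b
          simp only [symmDiff_symmDiff_cancel_right]
        exact (Equiv.sum_comp hi.toPerm fun b => (-1 : ℝ) ^ b.card *
          f (fun k => (symmDiff b (pre (n + 1) ((0 : Fin (n + 2)).succAbove k : Fin (n + 2)))).image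
            s)).symm
      rw [hinv, ← Finset.sum_neg_distrib]
      rw [← (Equiv.finsetCongr σ).sum_comp fun b => - ((-1 : ℝ) ^ (symmDiff b {0}).card *
          f (fun k => (symmDiff (symmDiff b {0})
            (pre (n + 1) ((0 : Fin (n + 2)).succAbove k : Fin (n + 2)))).image s))]
      refine Finset.sum_congr rfl fun b _ => ?_
      rw [card_symmDiff_singleton]
      simp only [Equiv.finsetCongr_apply, Finset.card_map]
      rw [neg_mul, neg_neg]
      congr 2
      funext k
      rw [symmDiff_assoc]
      refine image_perm σ s b _ _ fun l => ?_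
      rw [mem_pre]
      simp only [Finset.mem_symmDiff, Finset.mem_singleton, mem_pre, Fin.succAbove_zero,
        Fin.val_succ, Fin.succAbove_last, Fin.val_castSucc]
      have hk := k.2
      have hl := l.2
      by_cases hll : l = Fin.last n
      · subst hll
        rw [hσ, finRotate_last]
        simp
        omega
      · have hl2 : (l : ℕ) < n := by
          have : (l : ℕ) ≠ n := fun h => hll (Fin.ext h)
          omega
        have h3 : (σ l : ℕ) = l + 1 := by
          rw [hσ, coe_finRotate_of_ne_last hll]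
        have h4 : σ l ≠ 0 := by
          intro h
          have := congrArg Fin.val h
          rw [h3] at this
          simp at this
        simp only [h4, h3, not_false_eq_true, and_true, false_and, false_or]
        omega
    have hs : ∀ s, o (s ∘ σ) = (-1) ^ n * o s := by
      intro s
      rw [alt_perm o halt σ s, hσ, sign_finRotate, Nat.add_sub_cancel]
      push_cast
      rfl
    have h1 : ∑ s, o s * g (Fin.last (n + 1)) s =
        ∑ s, o (s ∘ σ) * g (Fin.last (n + 1)) (s ∘ σ) :=
      ((Equiv.arrowCongr σ.symm (Equiv.refl V)).sum_comp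
        fun s => o s * g (Fin.last (n + 1)) s).symm
    have hpp : (-1 : ℝ) ^ n * (-1 : ℝ) ^ n = 1 := by
      rw [← mul_pow]; simp
    rw [h1, Finset.mul_sum]
    refine Finset.sum_congr rfl fun s _ => ?_
    rw [hgs, hs, pow_succ]
    calc o s * g 0 s = ((-1 : ℝ) ^ n * (-1 : ℝ) ^ n) * (o s * g 0 s) := by rw [hpp, one_mul]
      _ = _ := by ring
  -- the last face
  have hlast : ∑ s, o s * g (Fin.last (n + 1)) s = - zv o f := by
    have hsplit : ∀ s, g (Fin.last (n + 1)) s =
        (∑ b ∈ (Finset.univ.erase (Fin.last n)).powerset, (-1 : ℝ) ^ b.card *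
          f (fun k => (symmDiff b (pre (n + 1) k)).image s)) -
        ∑ b ∈ (Finset.univ.erase (Fin.last n)).powerset, (-1 : ℝ) ^ b.card *
          f (fun k => insert (s (Fin.last n)) ((symmDiff b (pre (n + 1) k)).image s)) := by
      intro s
      simp only [hg]
      have hu : (Finset.univ : Finset (Finset (Fin (n + 1)))) =
          (insert (Fin.last n) (Finset.univ.erase (Fin.last n))).powerset := by
        rw [Finset.insert_erase (Finset.mem_univ _), Finset.powerset_univ]
      rw [hu, Finset.sum_powerset_insert (Finset.notMem_erase _ _)]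
      simp only [Fin.succAbove_last, Fin.val_castSucc]
      rw [sub_eq_add_neg, ← Finset.sum_neg_distrib]
      congr 1
      refine Finset.sum_congr rfl fun b hb => ?_
      have hbl : Fin.last n ∉ b := fun h =>
        Finset.notMem_erase _ _ (Finset.mem_powerset.1 hb h)
      rw [Finset.card_insert_of_notMem hbl, pow_succ]
      have : (fun k : Fin (n + 1) => (symmDiff (insert (Fin.last n) b) (pre (n + 1) k)).image s) =
          fun k : Fin (n + 1) => insert (s (Fin.last n)) ((symmDiff b (pre (n + 1) k)).image s) := by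
        funext k
        rw [← Finset.image_insert]
        congr 1
        ext l
        simp only [Finset.mem_symmDiff, Finset.mem_insert, mem_pre]
        by_cases hl : l = Fin.last n
        · subst hl
          have hk := k.2
          have : ¬ ((Fin.last n : Fin (n + 1)) : ℕ) < (k : ℕ) := by
            simp only [Fin.val_last]
            omega
          tauto
        · tauto
      rw [this]
      ring
    simp only [hsplit, mul_sub, Finset.sum_sub_distrib]
    rw [sum_drop o (fun s => ∑ b ∈ (Finset.univ.erase (Fin.last n)).powerset, (-1 : ℝ) ^ b.card *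
          f (fun k => (symmDiff b (pre (n + 1) k)).image s)) ?_ hcyc]
    · simp [zv]
    · intro s x
      refine Finset.sum_congr rfl fun b hb => ?_
      congr 2
      funext k
      refine Finset.image_congr fun l hl => ?_
      have hll : l ≠ Fin.last n := by
        rintro rfl
        have hk := k.2
        have h1 : ¬ ((Fin.last n : Fin (n + 1)) : ℕ) < (k : ℕ) := by
          simp only [Fin.val_last]
          omega
        have hbl : Fin.last n ∉ b := fun h =>
          Finset.notMem_erase _ _ (Finset.mem_powerset.1 hb h)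
        simp only [Finset.coe_symmDiff, Set.mem_symmDiff, Finset.mem_coe, mem_pre] at hl
        tauto
      rw [Function.update_of_ne hll]
  rw [h0, Fin.sum_univ_succ, Fin.sum_univ_castSucc]
  have hz : ∑ i : Fin n, (-1 : ℝ) ^ ((Fin.succ (Fin.castSucc i) : Fin (n + 2)) : ℕ) *
      ∑ s, o s * g (Fin.succ (Fin.castSucc i)) s = 0 := by
    refine Finset.sum_eq_zero fun i _ => ?_
    rw [hmid _ (Fin.succ_ne_zero _) ?_, mul_zero]
    intro h
    have h1 := congrArg Fin.val h
    have h2 := i.2
    simp only [Fin.val_succ, Fin.val_castSucc, Fin.val_last] at h1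
    omega
  rw [hz, hrot]
  have h5 : (Fin.succ (Fin.last n) : Fin (n + 2)) = Fin.last (n + 1) := rfl
  rw [h5, hlast]
  rw [Fin.val_last, pow_succ]
  simp only [Fin.val_zero, pow_zero, one_mul]
  ring

end MP8a95ee.PartOne
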