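import Pool.Agent.Work.MP_8a95ee_gt.RACG3
import Pool.Agent.Work.MP_8a95ee_gt.Setup
import Pool.Agent.Work.MP_8a95ee_gt.PartOneA

/-!
# Part one: the cocycle of a function on tuples, and its evaluation
-/

set_option autoImplicit false

namespace MP8a95ee.PartOne

open Finset RACG

variable {V : Type} [Fintype V] [DecidableEq V] (G : SimpleGraph V)

/-- the sign character -/
noncomputable def sgn : W G →* ℤˣ :=
  RACG.lift G (fun _ => (-1 : ℤˣ)) (fun _ => by simp) (fun _ _ _ => rfl)

omit [Fintype V] [DecidableEq V] in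
theorem sgn_gen (a : V) : sgn G (gen G a) = -1 := RACG.lift_gen G _ _ _ a

/-- the cochain -/
noncomputable def FF {N : ℕ} (f : (Fin N → Finset V) → ℝ) (v : Fin (N + 1) → W G) : ℝ :=
  ∑ᶠ x : W G, ((sgn G x : ℤ) : ℝ) * dl f (fun i => fl G x (v i))

omit [DecidableEq V] in
theorem FF_eq {N : ℕ} (f : (Fin N → Finset V) → ℝ) (v : Fin (N + 1) → W G) (A : Finset (W G))
    (hA : ∀ x, x ∉ A → dl f (fun i => fl G x (v i)) = 0) :
    FF G f v = ∑ x ∈ A, ((sgn G x : ℤ) : ℝ) * dl f (fun i => fl G x (v i)) := by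
  unfold FF
  refine finsum_eq_sum_of_support_subset _ fun x hx => ?_
  by_contra h
  have h2 := hA x (by simpa using h)
  exact hx (by
    show ((sgn G x : ℤ) : ℝ) * dl f (fun i => fl G x (v i)) = 0
    rw [h2, mul_zero])

omit [Fintype V] [DecidableEq V] in
theorem abs_sgn (x : W G) : |((sgn G x : ℤ) : ℝ)| = 1 := by
  rcases Int.units_eq_one_or (sgn G x) with h | h <;> rw [h] <;> simp

/-- the bounded cocycle -/
theorem cocycle_exists {N : ℕ} (f : (Fin N → Finset V) → ℝ) (C : ℕ)
    (hfin : ∀ v : Fin (N + 1) → W G, ∃ A : Finset (W G), A.card ≤ C ∧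
      ∀ x, x ∉ A → dl f (fun i => fl G x (v i)) = 0) :
    ∃ K : BCocycle (W G) (sgn G) N, ∀ v, K.F v = FF G f v := by
  classical
  refine ⟨⟨FF G f, C * ∑ T : Fin (N + 1) → Finset V, |dl f T|, ?_, ?_, ?_⟩, fun v => rfl⟩
  · intro v
    obtain ⟨A, hAC, hA⟩ := hfin v
    rw [FF_eq G f v A hA]
    refine (Finset.abs_sum_le_sum_abs _ _).trans ?_
    have h1 : ∀ x ∈ A, |((sgn G x : ℤ) : ℝ) * dl f (fun i => fl G x (v i))| ≤
        ∑ T : Fin (N + 1) → Finset V, |dl f T| := by
      intro x _
      rw [abs_mul, abs_sgn, one_mul]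
      exact Finset.single_le_sum (f := fun T : Fin (N + 1) → Finset V => |dl f T|)
        (fun T _ => abs_nonneg _) (Finset.mem_univ fun i => fl G x (v i))
    refine (Finset.sum_le_sum h1).trans ?_
    rw [Finset.sum_const, nsmul_eq_mul]
    refine mul_le_mul_of_nonneg_right ?_ (Finset.sum_nonneg fun T _ => abs_nonneg _)
    exact_mod_cast hAC
  · intro h v
    obtain ⟨A, -, hA⟩ := hfin v
    have h1 : ∀ x, x ∉ A.image (fun y => h * y) → dl f (fun i => fl G x (h * v i)) = 0 := by
      intro x hx
      have h2 : h⁻¹ * x ∉ A := fun h3 => hx (Finset.mem_image.2 ⟨_, h3, by group⟩)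
      have h3 := hA _ h2
      have h4 : (fun i => fl G x (h * v i)) = fun i => fl G (h⁻¹ * x) (v i) := by
        funext i
        rw [← fl_mul G h (h⁻¹ * x) (v i)]
        congr 1
        group
      rw [h4]
      exact h3
    rw [FF_eq G f _ _ h1, FF_eq G f v A hA,
      Finset.sum_image (fun x _ y _ hxy => mul_left_cancel hxy), Finset.mul_sum]
    refine Finset.sum_congr rfl fun x _ => ?_
    rw [map_mul]
    simp only [fl_mul]
    push_cast
    ring
  · intro v
    choose A hAC hA using fun i : Fin (N + 2) => hfin (fun k => v (i.succAbove k))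
    have h1 : ∀ i : Fin (N + 2), FF G f (fun k => v (i.succAbove k)) =
        ∑ x ∈ Finset.univ.biUnion A, ((sgn G x : ℤ) : ℝ) *
          dl f (fun k => fl G x (v (i.succAbove k))) := by
      intro i
      refine FF_eq G f _ _ fun x hx => hA i x fun h => hx ?_
      exact Finset.mem_biUnion.2 ⟨i, Finset.mem_univ _, h⟩
    simp only [h1, Finset.mul_sum]
    rw [Finset.sum_comm]
    refine Finset.sum_eq_zero fun x _ => ?_
    have h2 := dl_dl f (fun i : Fin (N + 2) => fl G x (v i))
    have h3 : ∑ i : Fin (N + 2), (-1 : ℝ) ^ (i : ℕ) * (((sgn G x : ℤ) : ℝ) *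
        dl f (fun k => fl G x (v (i.succAbove k)))) =
        ((sgn G x : ℤ) : ℝ) * dl (dl f) (fun i : Fin (N + 2) => fl G x (v i)) := by
      rw [dl, Finset.mul_sum]
      exact Finset.sum_congr rfl fun i _ => by ring
    rw [h3, h2, mul_zero]

/-! ### Products of commuting generators -/

section Res

variable {N : ℕ} (s : Fin N → V) (hs : ∀ i j, i ≠ j → G.Adj (s i) (s j))

omit [Fintype V] [DecidableEq V] in
include hs in
theorem gcomm (b : Finset (Fin N)) :
    (b : Set (Fin N)).Pairwise (Function.onFun Commute fun i => gen G (s i)) :=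
  fun i _ j _ hij => gen_comm G (hs i j hij)

/-- product of the generators of the letters at the positions in `b` -/
noncomputable def gw (b : Finset (Fin N)) : W G :=
  b.noncommProd (fun i => gen G (s i)) (gcomm G s hs b)

omit [Fintype V] [DecidableEq V] in
theorem gw_empty : gw G s hs ∅ = 1 := by simp [gw]

omit [Fintype V] [DecidableEq V] in
theorem gw_insert (b : Finset (Fin N)) (i : Fin N) (hi : i ∉ b) :
    gw G s hs (insert i b) = gw G s hs b * gen G (s i) := by
  unfold gw
  rw [Finset.noncommProd_insert_of_notMem' _ _ _ _ hi]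

omit [Fintype V] [DecidableEq V] in
theorem gw_mul_gen (b : Finset (Fin N)) (i : Fin N) :
    gw G s hs b * gen G (s i) = gw G s hs (symmDiff b {i}) := by
  by_cases hi : i ∈ b
  · have h1 : symmDiff b {i} = b.erase i := by
      ext x
      simp only [Finset.mem_symmDiff, Finset.mem_singleton, Finset.mem_erase]
      constructor
      · rintro (⟨h2, h3⟩ | ⟨h2, h3⟩)
        · exact ⟨h3, h2⟩
        · subst h2; exact absurd hi h3
      · rintro ⟨h2, h3⟩
        exact Or.inl ⟨h3, h2⟩
    rw [h1]
    have h2 := gw_insert G s hs (b.erase i) i (Finset.notMem_erase _ _)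
    rw [Finset.insert_erase hi] at h2
    rw [h2, mul_assoc, gen_mul_self, mul_one]
  · have h1 : symmDiff b {i} = insert i b := by
      ext x
      simp only [Finset.mem_symmDiff, Finset.mem_singleton, Finset.mem_insert]
      constructor
      · rintro (⟨h2, h3⟩ | ⟨h2, h3⟩)
        · exact Or.inr h2
        · exact Or.inl h2
      · rintro (h2 | h2)
        · subst h2; exact Or.inr ⟨rfl, hi⟩
        · refine Or.inl ⟨h2, ?_⟩
          rintro rfl
          exact hi h2
    rw [h1, gw_insert G s hs b i hi]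

omit [Fintype V] [DecidableEq V] in
theorem gw_mul (b c : Finset (Fin N)) :
    gw G s hs b * gw G s hs c = gw G s hs (symmDiff b c) := by
  induction c using Finset.induction_on with
  | empty =>
    rw [gw_empty, mul_one, ← Finset.bot_eq_empty, symmDiff_bot]
  | insert i c hi ih =>
    rw [gw_insert G s hs c i hi, ← mul_assoc, ih, gw_mul_gen, symmDiff_assoc]
    congr 2
    ext x
    simp only [Finset.mem_symmDiff, Finset.mem_singleton, Finset.mem_insert]
    by_cases h : x = i
    · subst h; tauto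
    · tauto

omit [Fintype V] [DecidableEq V] in
theorem gw_inv (b : Finset (Fin N)) : (gw G s hs b)⁻¹ = gw G s hs b := by
  apply inv_eq_of_mul_eq_one_left
  rw [gw_mul, symmDiff_self, Finset.bot_eq_empty, gw_empty]

omit [Fintype V] [DecidableEq V] in
theorem gw_single (i : Fin N) : gw G s hs {i} = gen G (s i) := by
  have h := gw_insert G s hs ∅ i (Finset.notMem_empty _)
  rw [gw_empty, one_mul] at h
  rw [← h]
  rfl

omit [Fintype V] [DecidableEq V] in
theorem gw_conj (b : Finset (Fin N)) (i : Fin N) :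
    gw G s hs b * gen G (s i) * (gw G s hs b)⁻¹ = gen G (s i) := by
  rw [gw_inv, ← gw_single G s hs i, gw_mul, gw_mul, symmDiff_comm b {i},
    symmDiff_symmDiff_cancel_right]

omit [Fintype V] [DecidableEq V] in
include hs in
theorem s_inj : Function.Injective s := by
  intro i j hij
  by_contra h
  have := hs i j h
  rw [hij] at this
  exact G.loopless.irrefl _ this

omit [Fintype V] [DecidableEq V] in
theorem gen_inj {a b : V} (h : gen G a = gen G b) : a = b :=
  label_unique G (p := 1) (q := 1) (by simpa using h)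

omit [Fintype V] [DecidableEq V] in
theorem S_gw (b : Finset (Fin N)) (t : W G) :
    RACG.S G (gw G s hs b) t = true ↔ ∃ i ∈ b, t = gen G (s i) := by
  classical
  induction b using Finset.induction_on with
  | empty => rw [gw_empty, S_one]; simp
  | insert i b hi ih =>
    rw [gw_insert G s hs b i hi, S_mul_gen, gw_conj]
    by_cases ht : t = gen G (s i)
    · have h1 : RACG.S G (gw G s hs b) t = false := by
        rw [← Bool.not_eq_true, ih]
        rintro ⟨j, hj, hjt⟩
        rw [ht] at hjt
        have := s_inj G s hs (gen_inj G hjt)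
        subst this
        exact hi hj
      rw [h1]
      simp [ht]
    · have h1 : decide (t = gen G (s i)) = false := by simp [ht]
      rw [h1, Bool.xor_false, ih]
      constructor
      · rintro ⟨j, hj, hjt⟩
        exact ⟨j, Finset.mem_insert_of_mem hj, hjt⟩
      · rintro ⟨j, hj, hjt⟩
        rcases Finset.mem_insert.1 hj with rfl | hj
        · exact absurd hjt ht
        · exact ⟨j, hj, hjt⟩

theorem fl_gw (b c : Finset (Fin N)) :
    fl G (gw G s hs b) (gw G s hs c) = (symmDiff b c).image s := by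
  ext a
  have h1 : fl G (gw G s hs b) (gw G s hs c) = fl G 1 (gw G s hs (symmDiff b c)) := by
    rw [← fl_mul G (gw G s hs b) 1, mul_one, gw_mul, symmDiff_symmDiff_cancel_left]
  rw [h1, mem_fl, one_mul, inv_one, mul_one, sep_one, S_gw, Finset.mem_image]
  constructor
  · rintro ⟨i, hi, h⟩
    exact ⟨i, hi, (gen_inj G h).symm⟩
  · rintro ⟨i, hi, h⟩
    exact ⟨i, hi, by rw [h]⟩

theorem gw_inj : Function.Injective (gw G s hs) := by
  intro b c h
  have h1 := fl_gw G s hs b c
  have h2 : fl G (gw G s hs b) (gw G s hs c) = ∅ := by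
    ext a
    rw [mem_fl, h]
    simp [not_sep_self]
  rw [h2] at h1
  have h3 := Finset.image_eq_empty.1 h1.symm
  rw [← Finset.bot_eq_empty] at h3
  exact symmDiff_eq_bot.1 h3

omit [Fintype V] [DecidableEq V] in
theorem sgn_gw (b : Finset (Fin N)) : sgn G (gw G s hs b) = (-1) ^ b.card := by
  induction b using Finset.induction_on with
  | empty => rw [gw_empty, map_one]; simp
  | insert i b hi ih =>
    rw [gw_insert G s hs b i hi, map_mul, ih, sgn_gen, Finset.card_insert_of_notMem hi, pow_succ]

omit [Fintype V] [DecidableEq V] in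
theorem partialProd_gw (j : Fin (N + 1)) :
    Fin.partialProd (fun i => gen G (s i)) j = gw G s hs (pre N j) := by
  induction j using Fin.induction with
  | zero =>
    rw [Fin.partialProd_zero]
    have : pre N ((0 : Fin (N + 1)) : ℕ) = ∅ := by
      ext i; simp [mem_pre]
    rw [this, gw_empty]
  | succ j ih =>
    rw [Fin.partialProd_succ, ih, gw_mul_gen]
    congr 1
    ext i
    simp only [Finset.mem_symmDiff, Finset.mem_singleton, mem_pre, Fin.val_succ,
      Fin.val_castSucc]
    rw [Fin.ext_iff]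
    omega

/-- a chamber is in the residue or one of its first letters separates it from the residue -/
theorem residue (x : W G) : (∃ b, x = gw G s hs b) ∨ ∃ a, ∀ c, a ∈ fl G x (gw G s hs c) := by
  obtain ⟨c₀, -, hc₀⟩ := Finset.exists_min_image (Finset.univ : Finset (Finset (Fin N)))
    (fun c => dist G x (gw G s hs c)) ⟨∅, Finset.mem_univ _⟩
  by_cases hx : x = gw G s hs c₀
  · exact Or.inl ⟨_, hx⟩
  right
  obtain ⟨a, ha, -⟩ := first_step G hx
  refine ⟨a, fun c => ?_⟩
  rw [mem_fl]
  by_contra hcon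
  set t := x * gen G a * x⁻¹ with ht
  have h1 : Sep G (gw G s hs c) (gw G s hs c₀) t := by
    have h2 := sep_trans_iff G x (gw G s hs c) (gw G s hs c₀) t
    tauto
  have h3 : ∃ i, t = gen G (s i) := by
    unfold RACG.Sep at h1
    by_cases h4 : RACG.S G (gw G s hs c) t = true
    · obtain ⟨i, -, hi⟩ := (S_gw G s hs c t).1 h4
      exact ⟨i, hi⟩
    · have h5 : RACG.S G (gw G s hs c₀) t = true := by
        rw [Bool.not_eq_true] at h4
        rw [h4] at h1
        cases h6 : RACG.S G (gw G s hs c₀) t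
        · exact absurd h6.symm h1
        · rfl
      obtain ⟨i, -, hi⟩ := (S_gw G s hs c₀ t).1 h5
      exact ⟨i, hi⟩
  obtain ⟨i, hi⟩ := h3
  have h4 := dist_lt_of_sep G ha
  rw [hi, ← gw_single G s hs i, gw_mul] at h4
  have h5 := hc₀ (symmDiff {i} c₀) (Finset.mem_univ _)
  omega

include hs in
theorem FF_partialProd (f : (Fin N → Finset V) → ℝ)
    (hf : ∀ T : Fin (N + 1) → Finset V, (∀ i, ∀ a ∈ T i, ∀ b ∈ T i, a ≠ b → G.Adj a b) →
      (∃ a, ∀ i, a ∈ T i) → dl f T = 0) :
    FF G f (Fin.partialProd fun i => gen G (s i)) = ∑ b : Finset (Fin N), (-1 : ℝ) ^ b.card *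
      dl f (fun j : Fin (N + 1) => (symmDiff b (pre N j)).image s) := by
  classical
  rw [FF_eq G f _ (Finset.univ.image (gw G s hs))]
  · rw [Finset.sum_image fun b _ c _ h => gw_inj G s hs h]
    refine Finset.sum_congr rfl fun b _ => ?_
    rw [sgn_gw]
    congr 1
    · push_cast; rfl
    · congr 1
      funext j
      rw [partialProd_gw G s hs j, fl_gw]
  · intro x hx
    rcases residue G s hs x with ⟨b, hb⟩ | ⟨a, ha⟩
    · exact absurd (Finset.mem_image.2 ⟨b, Finset.mem_univ _, hb.symm⟩) hx
    · refine hf _ (fun i a ha b hb hab => fl_adj G ha hb hab) ⟨a, fun j => ?_⟩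
      rw [partialProd_gw G s hs j]
      exact ha _

end Res

/-- the value of the cocycle on the fundamental cycle -/
theorem evaluation {n : ℕ} (o : (Fin (n + 1) → V) → ℝ)
    (halt : ∀ (s : Fin (n + 1) → V) (i j : Fin (n + 1)), i ≠ j → o (s ∘ Equiv.swap i j) = - o s)
    (hsupp : ∀ s, o s ≠ 0 → ∀ i j, i ≠ j → G.Adj (s i) (s j))
    (hcyc : ∀ s, ∑ x, o (Function.update s (Fin.last n) x) = 0)
    (f : (Fin (n + 1) → Finset V) → ℝ)
    (hf : ∀ T : Fin (n + 2) → Finset V, (∀ i, ∀ a ∈ T i, ∀ b ∈ T i, a ≠ b → G.Adj a b) →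
      (∃ a, ∀ i, a ∈ T i) → dl f T = 0) :
    ∑ s, o s * FF G f (Fin.partialProd fun i => gen G (s i)) = 2 * (-1) ^ n * zv o f := by
  rw [← local_sum o halt hcyc f]
  refine Finset.sum_congr rfl fun s _ => ?_
  by_cases h : o s = 0
  · rw [h, zero_mul, zero_mul]
  · rw [FF_partialProd G s (hsupp s h) f hf]

end MP8a95ee.PartOne
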