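import Mathlib

/-!
# Gromov's question for the real moment-angle manifolds of 2-truncated cubes: definitions

Simplicial complexes are finite sets of faces (finite subsets of the natural numbers, the empty
face included).  We work with the smallest class of complexes that contains the boundary complex
of the n-dimensional cross-polytope and is closed under subdivision of an edge; these are the
complexes dual to the 2-truncated cubes.  The real moment-angle complex `RZ L` is a
cubical subcomplex of the cube with one coordinate for each vertex of `L`.
-/

namespace MP8a95ee

/-! ### Real singular chains and their l1-norm -/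

/-- Singular `n`-simplices of `X`: continuous maps from the standard `n`-simplex to `X`. -/
abbrev SSimplex (X : Type) [TopologicalSpace X] (n : ℕ) : Type :=
  C(stdSimplex ℝ (Fin (n + 1)), X)

/-- Real singular `n`-chains of `X`: finite real linear combinations of singular simplices. -/
abbrev SChain (X : Type) [TopologicalSpace X] (n : ℕ) : Type :=
  SSimplex X n →₀ ℝ

/-- The `i`-th face of a singular simplex: its composition with the affine embedding of the
standard simplex onto the face opposite to the `i`-th vertex. -/
noncomputable def face {X : Type} [TopologicalSpace X] {n : ℕ} (σ : SSimplex X (n + 1))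
    (i : Fin (n + 2)) : SSimplex X n :=
  σ.comp ⟨stdSimplex.map i.succAbove, stdSimplex.continuous_map _⟩

/-- The boundary of a singular chain: the alternating sum of the faces. -/
noncomputable def bd {X : Type} [TopologicalSpace X] {n : ℕ} (c : SChain X (n + 1)) :
    SChain X n :=
  c.sum fun σ a => ∑ i : Fin (n + 2), Finsupp.single (face σ i) ((-1 : ℝ) ^ (i : ℕ) * a)

/-- The l1-norm of a singular chain: the sum of the absolute values of its coefficients. -/
noncomputable def l1 {X : Type} [TopologicalSpace X] {n : ℕ} (c : SChain X n) : ℝ :=
  c.sum fun _ a => |a|

/-! ### Simplicial complexes and edge subdivision -/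

/-- The vertices of a complex: the union of its faces. -/
def verts (L : Finset (Finset ℕ)) : Finset ℕ := L.biUnion id

/-- Subdivision of the edge `{u, v}` of `L` with the new vertex `w`: the faces are the faces of
`L` that do not contain the edge, and the sets `{w} ∪ τ` where `τ` does not contain the edge and
`τ ∪ {u, v}` is a face of `L`. -/
def subdiv (L : Finset (Finset ℕ)) (u v w : ℕ) : Finset (Finset ℕ) :=
  (L.filter fun σ => ¬ (u ∈ σ ∧ v ∈ σ)) ∪
  ((L.filter fun τ => ¬ (u ∈ τ ∧ v ∈ τ) ∧ insert u (insert v τ) ∈ L).image (insert w))

/-- The boundary complex of the `n`-dimensional cross-polytope: the vertices are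
`0, ..., 2 n - 1`, and a set of vertices is a face if it contains no pair `2 i, 2 i + 1`. -/
def cross (n : ℕ) : Finset (Finset ℕ) :=
  (Finset.range (2 * n)).powerset.filter fun σ => ∀ i ∈ Finset.range n, ¬ (2 * i ∈ σ ∧ 2 * i + 1 ∈ σ)

/-- The complexes obtained from the boundary complex of the `n`-dimensional cross-polytope by
finitely many edge subdivisions (the dual complexes of the `n`-dimensional 2-truncated cubes). -/
inductive TCDual (n : ℕ) : Finset (Finset ℕ) → Prop
  | base : TCDual n (cross n)
  | step (L : Finset (Finset ℕ)) (u v w : ℕ) (hL : TCDual n L) (huv : u ≠ v)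
      (he : ({u, v} : Finset ℕ) ∈ L) (hw : w ∉ verts L) : TCDual n (subdiv L u v w)

/-- The real moment-angle complex of `L`: the points `x` of the cube `[-1, 1] ^ V`, `V` the vertex
set of `L`, for which the set of all `i` with `|x i| < 1` is contained in a face of `L`.  Points of
the cube are written as functions on the natural numbers whose coordinates outside `V` equal `1`. -/
def RZ (L : Finset (Finset ℕ)) : Set (ℕ → ℝ) :=
  {x | (∀ i, |x i| ≤ 1) ∧ (∀ i, i ∉ verts L → x i = 1) ∧ ∃ σ ∈ L, ∀ i, |x i| < 1 → i ∈ σ}

/-- The Euler characteristic of `RZ L`, as the alternating sum of the numbers of cells of its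
cubical structure: for each face `σ` of `L` (the empty one included) there are `2 ^ (|V| - |σ|)`
cubes of dimension `|σ|`. -/
def eulerChar (L : Finset (Finset ℕ)) : ℤ :=
  ∑ σ ∈ L, (-1) ^ σ.card * 2 ^ ((verts L).card - σ.card)

end MP8a95ee
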