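import Pool.Agent.Work.MP_8a95ee_gt.Defs

/-!
# Definitions for the second theorem: cycles of real moment-angle complexes
-/

namespace MP8a95ee

/-- `L` is a finite flag complex: a finite set of numbers is a face if and only if all its subsets
`{x, y}` (including `x = y`) are faces. -/
def IsFlag (L : Finset (Finset ℕ)) : Prop :=
  ∀ σ : Finset ℕ, σ ∈ L ↔ ∀ x ∈ σ, ∀ y ∈ σ, ({x, y} : Finset ℕ) ∈ L

/-- `o` is an integral simplicial `(n - 1)`-cycle of `L`, written as an alternating function on
ordered `n`-tuples of vertices which vanishes unless the entries form a face, and whose boundary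
is zero: for every tuple `s` and every position `i`, the sum of `o` over all values of the `i`-th
entry is zero. -/
def IsSimplicialCycle (L : Finset (Finset ℕ)) (n : ℕ) (o : (Fin n → ℕ) → ℤ) : Prop :=
  (∀ (s : Fin n → ℕ) (i j : Fin n), i ≠ j → o (s ∘ Equiv.swap i j) = - o s) ∧
  (∀ s : Fin n → ℕ, o s ≠ 0 → Finset.univ.image s ∈ L) ∧
  (∀ (s : Fin n → ℕ) (i : Fin n), ∑ x ∈ verts L, o (Function.update s i x) = 0)

/-- The ordered tuple `(A 0, B 0, A 1, B 1, ..., A (m - 1), B (m - 1))`. -/
def pairTuple (m : ℕ) (A B : ℕ → ℕ) (i : Fin (2 * m)) : ℕ :=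
  if (i : ℕ) % 2 = 0 then A ((i : ℕ) / 2) else B ((i : ℕ) / 2)

/-- The corner of the cube `[-1, 1] ^ V` whose negative coordinates are those in `T`. -/
def cornerPt (T : Finset ℕ) : ℕ → ℝ := fun i => if i ∈ T then -1 else 1

/-- The set `T`, changed at the elements `s 0, ..., s (k - 1)` one after the other. -/
def flipSet (T : Finset ℕ) {n : ℕ} (s : Fin n → ℕ) (k : Fin (n + 1)) : Finset ℕ :=
  symmDiff T ((Finset.univ.filter fun j : Fin n => (j : ℕ) < (k : ℕ)).image s)

/-- The affine simplex whose vertices are the corner `T` and the corners reached from it by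
changing the signs of the coordinates `s 0, s 1, ...` one after the other. -/
def affPt (T : Finset ℕ) {n : ℕ} (s : Fin n → ℕ) (t : stdSimplex ℝ (Fin (n + 1))) : ℕ → ℝ :=
  fun i => ∑ k, t k * cornerPt (flipSet T s k) i

theorem continuous_affPt (T : Finset ℕ) {n : ℕ} (s : Fin n → ℕ) : Continuous (affPt T s) := by
  unfold affPt
  refine continuous_pi fun i => continuous_finsetSum _ fun k _ => ?_
  exact ((continuous_apply k).comp continuous_subtype_val).mul continuous_const

open Classical in
/-- The singular simplex `affPt T s` of `RZ L`, as a chain (zero if it is not contained in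
`RZ L`). -/
noncomputable def affChain (L : Finset (Finset ℕ)) (T : Finset ℕ) {n : ℕ} (s : Fin n → ℕ) :
    SChain (RZ L) n :=
  if h : ∀ t, affPt T s t ∈ RZ L then
    Finsupp.single ⟨fun t => ⟨affPt T s t, h t⟩, (continuous_affPt T s).subtype_mk _⟩ 1
  else 0

/-- The chain `Z(o)` of `RZ L` attached to `o`: the sum over all corners `T` of the cube and all
ordered `n`-tuples `s` of `(-1) ^ |T| * o s` times the affine simplex starting at `T` in the
directions `s 0, s 1, ...`.  For each face `σ` with `n` elements and each corner `T` the affine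
simplices with directions `σ` form the standard triangulation of the cube with corner `T` and
directions `σ`, and each cube is counted once for each of its `2 ^ n` corners. -/
noncomputable def momentCycle (L : Finset (Finset ℕ)) (n : ℕ) (o : (Fin n → ℕ) → ℤ) :
    SChain (RZ L) n :=
  ∑ T ∈ (verts L).powerset, ∑ s ∈ Fintype.piFinset (fun _ : Fin n => verts L),
    ((-1 : ℝ) ^ T.card * (o s : ℝ)) • affChain L T s

/-- The image of a singular chain under a continuous map. -/
noncomputable def push {X Y : Type} [TopologicalSpace X] [TopologicalSpace Y] (f : C(X, Y))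
    {n : ℕ} (c : SChain X n) : SChain Y n :=
  c.mapDomain fun σ => f.comp σ

end MP8a95ee
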