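import Mathlib

/-!
# Right-angled Coxeter groups: walls, sides, convexity

`G` is a graph on `V`; the group `W G` has generators `gen G a` (`a : V`) of order two, which
commute along the edges of `G`.
-/

namespace MP8a95ee.RACG

open scoped Classical

noncomputable section

variable {V : Type} (G : SimpleGraph V)

/-- the relations of the right-angled Coxeter group -/
def rels : Set (FreeGroup V) :=
  {x | (∃ a, x = FreeGroup.of a * FreeGroup.of a) ∨
    ∃ a b, G.Adj a b ∧ x = FreeGroup.of a * FreeGroup.of b * (FreeGroup.of a * FreeGroup.of b)}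

/-- the right-angled Coxeter group of the graph `G` -/
abbrev W : Type := PresentedGroup (rels G)

/-- the generators -/
def gen (a : V) : W G := PresentedGroup.of a

theorem gen_mul_self (a : V) : gen G a * gen G a = 1 := by
  have h : (PresentedGroup.mk (rels G)) (FreeGroup.of a * FreeGroup.of a) = 1 :=
    (PresentedGroup.mk_eq_one_iff).2 (Subgroup.subset_normalClosure (Or.inl ⟨a, rfl⟩))
  simpa [gen, PresentedGroup.of] using h

theorem gen_inv (a : V) : (gen G a)⁻¹ = gen G a :=
  inv_eq_of_mul_eq_one_left (gen_mul_self G a)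

theorem gen_comm {a b : V} (h : G.Adj a b) : gen G a * gen G b = gen G b * gen G a := by
  have h1 : (PresentedGroup.mk (rels G))
      (FreeGroup.of a * FreeGroup.of b * (FreeGroup.of a * FreeGroup.of b)) = 1 :=
    (PresentedGroup.mk_eq_one_iff).2 (Subgroup.subset_normalClosure (Or.inr ⟨a, b, h, rfl⟩))
  have h2 : gen G a * gen G b * (gen G a * gen G b) = 1 := by
    simpa [gen, PresentedGroup.of] using h1
  have h3 := inv_eq_of_mul_eq_one_left h2
  rw [mul_inv_rev, gen_inv, gen_inv] at h3
  exact h3.symm

/-- the universal property -/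
def lift {H : Type*} [Group H] (f : V → H) (h1 : ∀ a, f a * f a = 1)
    (h2 : ∀ a b, G.Adj a b → f a * f b = f b * f a) : W G →* H :=
  PresentedGroup.toGroup (f := f) (by
    rintro r (⟨a, rfl⟩ | ⟨a, b, hab, rfl⟩)
    · simp [h1]
    · simp only [map_mul, FreeGroup.lift_apply_of]
      rw [mul_assoc (f a), ← mul_assoc (f b), ← h2 a b hab, mul_assoc (f a) (f b), h1, mul_one, h1])

theorem lift_gen {H : Type*} [Group H] (f : V → H) (h1 : ∀ a, f a * f a = 1)
    (h2 : ∀ a b, G.Adj a b → f a * f b = f b * f a) (a : V) :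
    lift G f h1 h2 (gen G a) = f a := by
  unfold lift gen
  exact PresentedGroup.toGroup.of _

theorem gen_induction {p : W G → Prop} (h1 : p 1) (h2 : ∀ x a, p x → p (x * gen G a)) (x : W G) :
    p x := by
  have hx : x ∈ Subgroup.closure (Set.range (PresentedGroup.of : V → W G)) := by
    rw [PresentedGroup.closure_range_of]; trivial
  induction hx using Subgroup.closure_induction_right with
  | one => exact h1
  | mul_right x hx y hy ih =>
    obtain ⟨a, rfl⟩ := hy
    exact h2 _ a ih
  | mul_inv_cancel x hx y hy ih =>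
    obtain ⟨a, rfl⟩ := hy
    have h := h2 _ a ih
    rw [← gen_inv] at h
    exact h

/-! ### The side function -/

/-- the action of a generator on pairs (group element, sign) -/
def actGen (a : V) : Equiv.Perm (W G × Bool) where
  toFun q := (gen G a * q.1 * gen G a, xor q.2 (decide (q.1 = gen G a)))
  invFun q := (gen G a * q.1 * gen G a, xor q.2 (decide (q.1 = gen G a)))
  left_inv q := by
    obtain ⟨t, e⟩ := q
    have h1 : gen G a * (gen G a * t * gen G a) * gen G a = t := by
      rw [mul_assoc (gen G a) t, ← mul_assoc, gen_mul_self, one_mul, mul_assoc, gen_mul_self,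
        mul_one]
    have h2 : (gen G a * t * gen G a = gen G a) ↔ (t = gen G a) := by
      constructor
      · intro h
        have h3 : gen G a * (gen G a * t * gen G a) * gen G a =
          gen G a * gen G a * gen G a := by rw [h]
        rwa [h1, gen_mul_self, one_mul] at h3
      · rintro rfl
        rw [gen_mul_self, one_mul]
    simp only [h1, h2, Prod.mk.injEq, true_and]
    cases e <;> cases (decide (t = gen G a)) <;> rfl
  right_inv q := by
    obtain ⟨t, e⟩ := q
    have h1 : gen G a * (gen G a * t * gen G a) * gen G a = t := by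
      rw [mul_assoc (gen G a) t, ← mul_assoc, gen_mul_self, one_mul, mul_assoc, gen_mul_self,
        mul_one]
    have h2 : (gen G a * t * gen G a = gen G a) ↔ (t = gen G a) := by
      constructor
      · intro h
        have h3 : gen G a * (gen G a * t * gen G a) * gen G a =
          gen G a * gen G a * gen G a := by rw [h]
        rwa [h1, gen_mul_self, one_mul] at h3
      · rintro rfl
        rw [gen_mul_self, one_mul]
    simp only [h1, h2, Prod.mk.injEq, true_and]
    cases e <;> cases (decide (t = gen G a)) <;> rfl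

theorem actGen_apply (a : V) (t : W G) (e : Bool) :
    actGen G a (t, e) = (gen G a * t * gen G a, xor e (decide (t = gen G a))) := rfl

theorem actGen_self (a : V) : actGen G a * actGen G a = 1 := by
  ext1 q
  exact (actGen G a).left_inv q

theorem conj_eq_iff {a b : V} (h : G.Adj a b) (t : W G) :
    gen G a * t * gen G a = gen G b ↔ t = gen G b := by
  have hab := gen_comm G h
  constructor
  · intro h1
    have h2 : gen G a * (gen G a * t * gen G a) * gen G a = gen G a * gen G b * gen G a := by
      rw [h1]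
    rw [hab, mul_assoc (gen G b), gen_mul_self, mul_one, mul_assoc (gen G a) t, ← mul_assoc,
      gen_mul_self, one_mul, mul_assoc, gen_mul_self, mul_one] at h2
    exact h2
  · rintro rfl
    rw [hab, mul_assoc, gen_mul_self, mul_one]

theorem actGen_comm (a b : V) (h : G.Adj a b) :
    actGen G a * actGen G b = actGen G b * actGen G a := by
  ext1 q
  obtain ⟨t, e⟩ := q
  rw [Equiv.Perm.mul_apply, Equiv.Perm.mul_apply, actGen_apply, actGen_apply, actGen_apply,
    actGen_apply]
  have hab := gen_comm G h
  refine Prod.ext ?_ ?_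
  · change gen G a * (gen G b * t * gen G b) * gen G a =
      gen G b * (gen G a * t * gen G a) * gen G b
    have h1 : gen G a * (gen G b * t * gen G b) * gen G a =
        (gen G a * gen G b) * t * (gen G b * gen G a) := by simp only [mul_assoc]
    have h2 : gen G b * (gen G a * t * gen G a) * gen G b =
        (gen G b * gen G a) * t * (gen G a * gen G b) := by simp only [mul_assoc]
    rw [h1, h2, hab]
  · change xor (xor e (decide (t = gen G b))) (decide (gen G b * t * gen G b = gen G a)) =
      xor (xor e (decide (t = gen G a))) (decide (gen G a * t * gen G a = gen G b))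
    rw [decide_eq_decide.2 (conj_eq_iff G h t), decide_eq_decide.2 (conj_eq_iff G h.symm t)]
    cases e <;> cases (decide (t = gen G a)) <;> cases (decide (t = gen G b)) <;> rfl

/-- the action on pairs -/
def act : W G →* Equiv.Perm (W G × Bool) :=
  lift G (actGen G) (actGen_self G) (actGen_comm G)

theorem act_gen (a : V) : act G (gen G a) = actGen G a := lift_gen _ _ _ _ a

/-- `S x t` is true if the wall of the reflection `t` separates `1` from `x` -/
def S (x t : W G) : Bool := (act G x⁻¹ (t, false)).2

theorem act_apply (x t : W G) (e : Bool) :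
    act G x⁻¹ (t, e) = (x⁻¹ * t * x, xor e (S G x t)) := by
  have key : ∀ x : W G, ∃ s : W G → Bool, ∀ t e, act G x⁻¹ (t, e) = (x⁻¹ * t * x, xor e (s t)) := by
    intro x
    induction x using gen_induction with
    | h1 => exact ⟨fun _ => false, fun t e => by simp⟩
    | h2 x a ih =>
      obtain ⟨s, hs⟩ := ih
      refine ⟨fun t => xor (s t) (decide (x⁻¹ * t * x = gen G a)), fun t e => ?_⟩
      rw [mul_inv_rev, map_mul, Equiv.Perm.mul_apply, hs, gen_inv, act_gen, actGen_apply]
      refine Prod.ext ?_ ?_
      · simp only [mul_assoc]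
      · simp only [Bool.xor_assoc]
  obtain ⟨s, hs⟩ := key x
  have h1 : S G x t = s t := by
    unfold S
    rw [hs]
    simp
  rw [hs, h1]

theorem S_one (t : W G) : S G 1 t = false := by
  simp [S]

theorem S_mul_gen (x t : W G) (a : V) :
    S G (x * gen G a) t = xor (S G x t) (decide (t = x * gen G a * x⁻¹)) := by
  have h : S G (x * gen G a) t = (act G (x * gen G a)⁻¹ (t, false)).2 := rfl
  rw [h, mul_inv_rev, map_mul, Equiv.Perm.mul_apply, act_apply G x t false, gen_inv, act_gen,
    actGen_apply]
  have h2 : (x⁻¹ * t * x = gen G a) ↔ (t = x * gen G a * x⁻¹) := by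
    constructor
    · intro h; rw [← h]; group
    · rintro rfl; group
  simp only [Bool.false_xor, decide_eq_decide.2 h2]

theorem S_gen (a : V) (t : W G) : S G (gen G a) t = decide (t = gen G a) := by
  have := S_mul_gen G 1 t a
  simpa [S_one] using this

theorem S_mul (g x t : W G) :
    S G (g * x) (g * t * g⁻¹) = xor (S G g (g * t * g⁻¹)) (S G x t) := by
  induction x using gen_induction with
  | h1 => simp [S_one]
  | h2 x a ih =>
    rw [← mul_assoc, S_mul_gen, ih, S_mul_gen]
    have h2 : (g * t * g⁻¹ = g * x * gen G a * (g * x)⁻¹) ↔ (t = x * gen G a * x⁻¹) := by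
      constructor
      · intro h
        have h3 : t = g⁻¹ * (g * t * g⁻¹) * g := by group
        rw [h3, h]; group
      · rintro rfl; group
    rw [decide_eq_decide.2 h2, Bool.xor_assoc]

/-- the wall of the reflection `t` separates `x` from `y` -/
def Sep (x y t : W G) : Prop := S G x t ≠ S G y t

theorem sep_comm {x y t : W G} : Sep G x y t ↔ Sep G y x t := ne_comm

theorem not_sep_self (x t : W G) : ¬ Sep G x x t := fun h => h rfl

theorem sep_trans_iff (x y z t : W G) : Sep G x z t ↔ ¬ (Sep G x y t ↔ Sep G y z t) := by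
  unfold Sep
  cases S G x t <;> cases S G y t <;> cases S G z t <;> decide

theorem sep_one (x t : W G) : Sep G 1 x t ↔ S G x t = true := by
  unfold Sep
  rw [S_one]
  cases S G x t <;> decide

theorem sep_gen (x t : W G) (a : V) : Sep G x (x * gen G a) t ↔ t = x * gen G a * x⁻¹ := by
  unfold Sep
  rw [S_mul_gen]
  by_cases h : t = x * gen G a * x⁻¹
  · simp only [h, decide_true]
    cases S G x (x * gen G a * x⁻¹) <;> decide
  · simp only [h, decide_false]
    cases S G x t <;> decide

theorem sep_mul (g x y t : W G) : Sep G (g * x) (g * y) (g * t * g⁻¹) ↔ Sep G x y t := by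
  unfold Sep
  rw [S_mul, S_mul G g y]
  cases S G g (g * t * g⁻¹) <;> cases S G x t <;> cases S G y t <;> decide

/-! ### Words, length, exchange -/

/-- the product of a word -/
def wd (ω : List V) : W G := (ω.map (gen G)).prod

theorem wd_nil : wd G [] = 1 := rfl

theorem wd_cons (a : V) (ω : List V) : wd G (a :: ω) = gen G a * wd G ω := by
  simp [wd]

theorem wd_append (ω ω' : List V) : wd G (ω ++ ω') = wd G ω * wd G ω' := by
  simp [wd]

theorem exists_wd (x : W G) : ∃ ω, wd G ω = x := by
  induction x using gen_induction with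
  | h1 => exact ⟨[], rfl⟩
  | h2 x a ih =>
    obtain ⟨ω, rfl⟩ := ih
    exact ⟨ω ++ [a], by rw [wd_append]; simp [wd]⟩

theorem exists_len (x : W G) : ∃ n, ∃ ω, wd G ω = x ∧ ω.length = n := by
  obtain ⟨ω, h⟩ := exists_wd G x
  exact ⟨_, ω, h, rfl⟩

/-- the word length -/
def len (x : W G) : ℕ := Nat.find (exists_len G x)

theorem len_le (ω : List V) : len G (wd G ω) ≤ ω.length :=
  Nat.find_min' _ ⟨ω, rfl, rfl⟩

theorem exists_reduced (x : W G) : ∃ ω, wd G ω = x ∧ ω.length = len G x :=
  Nat.find_spec (exists_len G x)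

theorem conj_invol {a : V} {t : W G} : gen G a * (gen G a * t * gen G a) * gen G a = t := by
  rw [mul_assoc (gen G a) t, ← mul_assoc, gen_mul_self, one_mul, mul_assoc, gen_mul_self,
    mul_one]

theorem sep_one_gen_mul (a : V) (w t : W G) (hne : t ≠ gen G a) (h : Sep G 1 (gen G a * w) t) :
    Sep G 1 w (gen G a * t * gen G a) := by
  have h1 : ¬ Sep G 1 (gen G a) t := by
    intro h2
    have := (sep_gen G 1 t a).1 (by simpa using h2)
    exact hne (by simpa using this)
  have h2 : Sep G (gen G a) (gen G a * w) t := by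
    have := (sep_trans_iff G 1 (gen G a) (gen G a * w) t).1 h
    tauto
  have h3 := (sep_mul G (gen G a) 1 w (gen G a * t * gen G a)).1
  rw [gen_inv, conj_invol, mul_one] at h3
  exact h3 h2

/-- strong exchange -/
theorem exchange (ω : List V) : ∀ t, Sep G 1 (wd G ω) t →
    ∃ ω' : List V, ω'.length + 1 = ω.length ∧ wd G ω' = t * wd G ω := by
  induction ω with
  | nil => intro t h; exact absurd h (not_sep_self G _ _)
  | cons a ω ih =>
    intro t h
    by_cases hta : t = gen G a
    · refine ⟨ω, rfl, ?_⟩
      rw [hta, wd_cons, ← mul_assoc, gen_mul_self, one_mul]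
    · rw [wd_cons] at h
      obtain ⟨ω', hl, hw⟩ := ih _ (sep_one_gen_mul G a _ t hta h)
      refine ⟨a :: ω', by simp [hl], ?_⟩
      rw [wd_cons, hw, wd_cons]
      rw [← mul_assoc, ← mul_assoc, ← mul_assoc, ← mul_assoc, gen_mul_self, one_mul]

theorem len_lt_of_sep {x t : W G} (h : Sep G 1 x t) : len G (t * x) < len G x := by
  obtain ⟨ω, rfl, hl⟩ := exists_reduced G x
  obtain ⟨ω', hl', hw⟩ := exchange G ω t h
  have := len_le G ω'
  rw [hw] at this
  omega

theorem wd_reverse (ω : List V) : wd G ω.reverse = (wd G ω)⁻¹ := by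
  induction ω with
  | nil => simp [wd]
  | cons a ω ih =>
    rw [List.reverse_cons, wd_append, ih, wd_cons G a ω, mul_inv_rev, gen_inv]
    simp [wd]

theorem len_inv_le (x : W G) : len G x⁻¹ ≤ len G x := by
  obtain ⟨ω, rfl, hl⟩ := exists_reduced G x
  rw [← wd_reverse, ← hl]
  exact (len_le G _).trans (by simp)

theorem len_inv (x : W G) : len G x⁻¹ = len G x := by
  refine le_antisymm (len_inv_le G x) ?_
  have := len_inv_le G x⁻¹
  rwa [inv_inv] at this

/-- distance of two chambers -/
def dist (x y : W G) : ℕ := len G (x⁻¹ * y)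

theorem dist_comm (x y : W G) : dist G x y = dist G y x := by
  unfold dist
  rw [← len_inv]
  congr 1
  group

theorem len_eq_zero {x : W G} (h : len G x = 0) : x = 1 := by
  obtain ⟨ω, rfl, hl⟩ := exists_reduced G x
  rw [h] at hl
  rw [List.length_eq_zero_iff.1 hl, wd_nil]

theorem dist_eq_zero {x y : W G} (h : dist G x y = 0) : x = y := by
  have := len_eq_zero G h
  exact (inv_mul_eq_one.1 this)

theorem dist_mul (g x y : W G) : dist G (g * x) (g * y) = dist G x y := by
  unfold dist
  congr 1
  group

theorem dist_lt_of_sep {x y t : W G} (h : Sep G x y t) : dist G x (t * y) < dist G x y := by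
  have h1 := (sep_mul G x⁻¹ x y t).2 h
  rw [inv_mul_cancel] at h1
  have h2 := len_lt_of_sep G h1
  unfold dist
  have h3 : x⁻¹ * t * x⁻¹⁻¹ * (x⁻¹ * y) = x⁻¹ * (t * y) := by group
  rwa [h3] at h2

/-- the first step of a geodesic -/
theorem first_step {x y : W G} (h : x ≠ y) :
    ∃ a, Sep G x y (x * gen G a * x⁻¹) ∧ dist G (x * gen G a) y < dist G x y := by
  obtain ⟨ω, hω, hl⟩ := exists_reduced G (x⁻¹ * y)
  cases ω with
  | nil =>
    exfalso
    apply h
    rw [wd_nil] at hω
    exact (inv_mul_eq_one.1 hω.symm)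
  | cons a ω =>
    rw [wd_cons] at hω
    have hlt : dist G (x * gen G a) y < dist G x y := by
      have h1 : (x * gen G a)⁻¹ * y = wd G ω := by
        rw [mul_inv_rev, mul_assoc, ← hω, gen_inv, ← mul_assoc, gen_mul_self, one_mul]
      have h2 := len_le G ω
      unfold dist
      rw [h1, ← hl]
      simp only [List.length_cons]
      omega
    refine ⟨a, ?_, hlt⟩
    by_contra hsep
    have h1 : Sep G (x * gen G a) y (x * gen G a * x⁻¹) := by
      have h3 := sep_trans_iff G (x * gen G a) x y (x * gen G a * x⁻¹)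
      have h4 := (sep_comm G).1 ((sep_gen G x (x * gen G a * x⁻¹) a).2 rfl)
      tauto
    have h2 := dist_lt_of_sep G ((sep_comm G).1 h1)
    have h5 : x * gen G a * x⁻¹ * (x * gen G a) = x := by
      have : x * gen G a * x⁻¹ * (x * gen G a) = x * (gen G a * gen G a) := by group
      rw [this, gen_mul_self, mul_one]
    rw [h5, dist_comm, dist_comm G y] at h2
    omega

theorem sep_first {x y t : W G} {a : V} (ha : Sep G x y (x * gen G a * x⁻¹)) :
    Sep G (x * gen G a) y t ↔ Sep G x y t ∧ t ≠ x * gen G a * x⁻¹ := by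
  have h1 := sep_gen G x t a
  have h2 := sep_trans_iff G x (x * gen G a) y t
  by_cases ht : t = x * gen G a * x⁻¹
  · subst ht
    tauto
  · tauto

/-- a separating wall is crossed somewhere; between `x` and the crossing only walls that separate
`x` from `y` are crossed -/
theorem cross {x y t : W G} (h : Sep G x y t) : ∃ p a, t = p * gen G a * p⁻¹ ∧
    ∀ u, Sep G x p u → Sep G x y u ∧ u ≠ t := by
  obtain ⟨n, hn⟩ : ∃ n, dist G x y = n := ⟨_, rfl⟩
  induction n using Nat.strong_induction_on generalizing x with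
  | _ n ih =>
    have hxy : x ≠ y := by
      rintro rfl
      exact not_sep_self G _ _ h
    obtain ⟨a, ha, hlt⟩ := first_step G hxy
    by_cases ht : t = x * gen G a * x⁻¹
    · exact ⟨x, a, ht, fun u hu => absurd hu (not_sep_self G _ _)⟩
    · obtain ⟨p, b, hp, hu⟩ := ih _ (hn ▸ hlt) ((sep_first G ha).2 ⟨h, ht⟩) rfl
      refine ⟨p, b, hp, fun u hup => ?_⟩
      by_cases hua : u = x * gen G a * x⁻¹
      · rw [hua]
        exact ⟨ha, fun h' => ht h'.symm⟩
      · have h1 : Sep G (x * gen G a) p u := by
          have h2 := sep_gen G x u a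
          have h3 := sep_trans_iff G x (x * gen G a) p u
          tauto
        have h2 := hu u h1
        exact ⟨((sep_first G ha).1 h2.1).1, h2.2⟩

/-! ### First letters are pairwise adjacent -/

/-- alternating words -/
def alt (a b : V) : ℕ → W G
  | 0 => 1
  | n + 1 => gen G a * alt b a n

theorem alt_succ (a b : V) (n : ℕ) :
    alt G a b (n + 1) = alt G a b n * gen G (if Even n then a else b) := by
  induction n generalizing a b with
  | zero => simp [alt]
  | succ n ih =>
    rw [alt, ih b a, alt, mul_assoc]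
    by_cases h : Even n
    · have : ¬ Even (n + 1) := by rw [Nat.even_add_one]; exact not_not.2 h
      simp [h, this]
    · have : Even (n + 1) := by rw [Nat.even_add_one]; exact h
      simp [h, this]

theorem mem_closure_alt (a b : V) {d : W G} (h : d ∈ Subgroup.closure {gen G a, gen G b}) :
    ∃ n, d = alt G a b n ∨ d = alt G b a n := by
  have key : ∀ x, x ∈ ({gen G a, gen G b} : Set (W G)) → ∀ y,
      (∃ n, y = alt G a b n ∨ y = alt G b a n) → ∃ n, x * y = alt G a b n ∨ x * y = alt G b a n := by
    rintro x (rfl | rfl) y ⟨n, rfl | rfl⟩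
    · cases n with
      | zero => exact ⟨1, Or.inl rfl⟩
      | succ n => exact ⟨n, Or.inr (by rw [alt, ← mul_assoc, gen_mul_self, one_mul])⟩
    · exact ⟨n + 1, Or.inl rfl⟩
    · exact ⟨n + 1, Or.inr rfl⟩
    · cases n with
      | zero => exact ⟨1, Or.inr rfl⟩
      | succ n => exact ⟨n, Or.inl (by rw [alt, ← mul_assoc, gen_mul_self, one_mul])⟩
  induction h using Subgroup.closure_induction_left with
  | one => exact ⟨0, Or.inl rfl⟩
  | mul_left x hx y hy ih => exact key x hx y ih
  | inv_mul_cancel x hx y hy ih =>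
    have hx' : x⁻¹ = x := by
      rcases hx with rfl | rfl <;> exact gen_inv G _
    rw [hx']
    exact key x hx y ih

/-- the reflections of the line -/
def flip (k : ℤ) : Equiv.Perm ℤ where
  toFun n := k - n
  invFun n := k - n
  left_inv n := by simp
  right_inv n := by simp

theorem flip_flip (k : ℤ) : flip k * flip k = 1 := by
  ext n
  change k - (k - n) = n
  omega

/-- the action on the line for two non-adjacent generators -/
def lineAct (a b : V) (hab : ¬ G.Adj a b) : W G →* Equiv.Perm ℤ :=
  lift G (fun c => if c = a then flip (-1) else if c = b then flip 1 else 1)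
    (fun c => by
      split_ifs
      · exact flip_flip _
      · exact flip_flip _
      · rfl)
    (fun c d hcd => by
      have hne : c ≠ d := hcd.ne
      by_cases h1 : c = a
      · by_cases h2 : d = b
        · subst h1 h2
          exact absurd hcd hab
        · have h3 : d ≠ a := fun h => hne (h1.trans h.symm)
          simp [h2, h3]
      · by_cases h2 : c = b
        · by_cases h3 : d = a
          · subst h2 h3
            exact absurd hcd.symm hab
          · have h4 : d ≠ b := fun h => hne (h2.trans h.symm)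
            simp [h3, h4]
        · simp [h1, h2])

theorem lineAct_a (a b : V) (hab : ¬ G.Adj a b) (n : ℤ) :
    lineAct G a b hab (gen G a) n = -1 - n := by
  unfold lineAct
  rw [lift_gen]
  simp [flip]

theorem lineAct_b (a b : V) (hne : a ≠ b) (hab : ¬ G.Adj a b) (n : ℤ) :
    lineAct G a b hab (gen G b) n = 1 - n := by
  unfold lineAct
  rw [lift_gen]
  simp [flip, hne.symm]

theorem lineAct_alt (a b : V) (hne : a ≠ b) (hab : ¬ G.Adj a b) (n : ℕ) :
    lineAct G a b hab (alt G a b n) 0 = -n ∧ lineAct G a b hab (alt G b a n) 0 = n := by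
  induction n with
  | zero => simp [alt]
  | succ n ih =>
    rw [alt, alt, map_mul, map_mul, Equiv.Perm.mul_apply, Equiv.Perm.mul_apply, ih.1, ih.2,
      lineAct_a, lineAct_b G a b hne]
    push_cast
    constructor <;> ring

theorem S_alt (a b : V) (hne : a ≠ b) (hab : ¬ G.Adj a b) (n : ℕ) :
    S G (alt G a b n) (gen G b) = false := by
  induction n with
  | zero => simp [alt, S_one]
  | succ n ih =>
    rw [alt_succ, S_mul_gen, ih]
    have h : ¬ gen G b =
        alt G a b n * gen G (if Even n then a else b) * (alt G a b n)⁻¹ := by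
      intro h
      have h1 : gen G b * alt G a b n = alt G a b (n + 1) := by
        rw [h, alt_succ]
        group
      have h2 := congrArg (fun x => lineAct G a b hab x 0) h1
      simp only [map_mul, Equiv.Perm.mul_apply] at h2
      rw [(lineAct_alt G a b hne hab n).1, (lineAct_alt G a b hne hab (n + 1)).1,
        lineAct_b G a b hne] at h2
      push_cast at h2
      omega
    simp [h]

theorem adj_of_sep_one {a b : V} {w : W G} (ha : Sep G 1 w (gen G a)) (hb : Sep G 1 w (gen G b))
    (hne : a ≠ b) : G.Adj a b := by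
  by_contra hab
  have hex : ∃ n, ∃ d ∈ Subgroup.closure {gen G a, gen G b}, dist G d w = n :=
    ⟨_, 1, one_mem _, rfl⟩
  obtain ⟨d, hd, hdn⟩ := Nat.find_spec hex
  have hmin : ∀ t ∈ ({gen G a, gen G b} : Set (W G)), ¬ Sep G d w t := by
    intro t ht hs
    have h1 := dist_lt_of_sep G ((sep_comm G).1 hs)
    rw [dist_comm G w, dist_comm G w, hdn] at h1
    exact Nat.find_min hex h1 ⟨t * d, mul_mem (Subgroup.subset_closure ht) hd, rfl⟩
  have ha1 := hmin (gen G a) (by simp)
  have hb1 := hmin (gen G b) (by simp)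
  have ha2 : Sep G 1 d (gen G a) := by
    have := sep_trans_iff G 1 d w (gen G a)
    tauto
  have hb2 : Sep G 1 d (gen G b) := by
    have := sep_trans_iff G 1 d w (gen G b)
    tauto
  rw [sep_one] at ha2 hb2
  obtain ⟨n, rfl | rfl⟩ := mem_closure_alt G a b hd
  · rw [S_alt G a b hne hab] at hb2
    exact absurd hb2 (by decide)
  · rw [S_alt G b a hne.symm (fun h => hab h.symm)] at ha2
    exact absurd ha2 (by decide)

/-- the first letters are pairwise adjacent -/
theorem adj_of_sep {a b : V} {x y : W G} (ha : Sep G x y (x * gen G a * x⁻¹))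
    (hb : Sep G x y (x * gen G b * x⁻¹)) (hne : a ≠ b) : G.Adj a b := by
  have key : ∀ c, Sep G x y (x * gen G c * x⁻¹) → Sep G 1 (x⁻¹ * y) (gen G c) := by
    intro c hc
    have h := (sep_mul G x⁻¹ x y (x * gen G c * x⁻¹)).2 hc
    rw [inv_mul_cancel] at h
    have h3 : x⁻¹ * (x * gen G c * x⁻¹) * x⁻¹⁻¹ = gen G c := by group
    rwa [h3] at h
  exact adj_of_sep_one G (key a ha) (key b hb) hne

/-! ### Labels -/

/-- the abelianization -/
def lab : W G →* (V → ℤˣ) :=
  lift G (fun c => Pi.mulSingle c (-1)) (fun c => by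
    rw [← Pi.mulSingle_mul]
    simp) (fun c d _ => mul_comm _ _)

theorem label_unique {p q : W G} {a b : V} (h : p * gen G a * p⁻¹ = q * gen G b * q⁻¹) : a = b := by
  have h1 := congrArg (lab G) h
  simp only [map_mul, map_inv] at h1
  rw [mul_comm (lab G p), mul_comm (lab G q), mul_inv_cancel_right, mul_inv_cancel_right] at h1
  unfold lab at h1
  rw [lift_gen, lift_gen] at h1
  have h2 := congrFun h1 a
  rw [Pi.mulSingle_eq_same] at h2
  by_contra hne
  rw [Pi.mulSingle_eq_of_ne hne] at h2
  exact absurd h2 (by decide)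

/-! ### Chambers at the same wall -/

theorem conj_comm {x : W G} {a c : V} (h : G.Adj c a) :
    (x * gen G c) * gen G a * (x * gen G c)⁻¹ = x * gen G a * x⁻¹ := by
  have h1 : (x * gen G c) * gen G a * (x * gen G c)⁻¹ =
      x * (gen G c * gen G a) * (gen G c)⁻¹ * x⁻¹ := by group
  rw [h1, gen_comm G h]
  group

theorem centralizer {x y : W G} {a : V} (h : x * gen G a * x⁻¹ = y * gen G a * y⁻¹)
    (hs : ¬ Sep G x y (x * gen G a * x⁻¹)) {t : W G} (ht : Sep G x y t) :
    (∃ q c, t = q * gen G c * q⁻¹ ∧ G.Adj c a) ∧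
      t * (x * gen G a * x⁻¹) = (x * gen G a * x⁻¹) * t := by
  obtain ⟨n, hn⟩ : ∃ n, dist G x y = n := ⟨_, rfl⟩
  induction n using Nat.strong_induction_on generalizing x with
  | _ n ih =>
    have hxy : x ≠ y := by
      rintro rfl
      exact not_sep_self G _ _ ht
    obtain ⟨c, hc, hlt⟩ := first_step G hxy
    have hca : c ≠ a := by
      rintro rfl
      exact hs hc
    have hadj : G.Adj c a := by
      have h1 : Sep G y (y * gen G a) (x * gen G a * x⁻¹) := (sep_gen G _ _ _).2 h
      have h2 : ¬ Sep G y (y * gen G a) (x * gen G c * x⁻¹) := by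
        intro h'
        have := (sep_gen G _ _ _).1 h'
        rw [← h] at this
        rw [this] at hc
        exact hs hc
      have h3 : Sep G x (y * gen G a) (x * gen G a * x⁻¹) := by
        have := sep_trans_iff G x y (y * gen G a) (x * gen G a * x⁻¹)
        tauto
      have h4 : Sep G x (y * gen G a) (x * gen G c * x⁻¹) := by
        have := sep_trans_iff G x y (y * gen G a) (x * gen G c * x⁻¹)
        tauto
      exact adj_of_sep G h4 h3 hca
    have hcc := conj_comm G (x := x) hadj
    by_cases htc : t = x * gen G c * x⁻¹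
    · refine ⟨⟨x, c, htc, hadj⟩, ?_⟩
      rw [htc]
      have e1 : x * gen G c * x⁻¹ * (x * gen G a * x⁻¹) = x * (gen G c * gen G a) * x⁻¹ := by group
      have e2 : x * gen G a * x⁻¹ * (x * gen G c * x⁻¹) = x * (gen G a * gen G c) * x⁻¹ := by group
      rw [e1, e2, gen_comm G hadj]
    · have h1 := ih _ (hn ▸ hlt) (x := x * gen G c) (by rw [hcc]; exact h)
        (by rw [hcc]; intro h'; exact hs ((sep_first G hc).1 h').1)
        ((sep_first G hc).2 ⟨ht, htc⟩) rfl
      rw [hcc] at h1
      exact h1

/-- walls with four nonempty sectors -/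
theorem four {x₁ x₂ y₁ y₂ t u : W G} (htu : t ≠ u) (hx : ¬ Sep G x₁ x₂ u) (hxt : Sep G x₁ x₂ t)
    (hy : ¬ Sep G y₁ y₂ u) (hyt : Sep G y₁ y₂ t) (hxy : Sep G x₁ y₁ u) :
    t * u = u * t ∧ ∃ p a q b, t = p * gen G a * p⁻¹ ∧ u = q * gen G b * q⁻¹ ∧ G.Adj b a := by
  obtain ⟨p, a, hp, hp'⟩ := cross G hxt
  obtain ⟨q, a', hq, hq'⟩ := cross G hyt
  have haa : a = a' := label_unique G (hp.symm.trans hq)
  subst haa
  have hpu : ¬ Sep G x₁ p u := fun h => hx (hp' u h).1
  have hqu : ¬ Sep G y₁ q u := fun h => hy (hq' u h).1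
  have hpq : Sep G p q u := by
    have h1 := sep_trans_iff G x₁ p y₁ u
    have h2 := sep_trans_iff G p q y₁ u
    have h3 := sep_comm G (x := y₁) (y := q) (t := u)
    tauto
  obtain ⟨q', hq1, hq2, hq3⟩ : ∃ q', t = q' * gen G a * q'⁻¹ ∧ ¬ Sep G p q' t ∧ Sep G p q' u := by
    by_cases hs : Sep G p q t
    · refine ⟨q * gen G a, ?_, ?_, ?_⟩
      · rw [hq]
        have : q * gen G a * gen G a * (q * gen G a)⁻¹ = q * gen G a * (gen G a * (gen G a)⁻¹) * q⁻¹ := by
          group
        rw [this]; group
      · have h1 := sep_trans_iff G p q (q * gen G a) t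
        have h2 := (sep_gen G q t a).2 hq
        tauto
      · have h1 := sep_trans_iff G p q (q * gen G a) u
        have h2 : ¬ Sep G q (q * gen G a) u := by
          rw [sep_gen, ← hq]
          exact fun h => htu h.symm
        tauto
    · exact ⟨q, hq, hs, hpq⟩
  have h1 := centralizer G (x := p) (y := q') (a := a) (hp.symm.trans hq1) (by rw [← hp]; exact hq2)
    hq3
  rw [← hp] at h1
  obtain ⟨⟨r, c, hr, hca⟩, hcomm⟩ := h1
  exact ⟨hcomm.symm, p, a, r, c, hp, hr, hca⟩

/-- walls whose labels are equal or not adjacent do not cross -/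
theorem no_cross {x₁ x₂ y₁ y₂ p q : W G} {a b : V} (hab : ¬ G.Adj a b)
    (htu : p * gen G a * p⁻¹ ≠ q * gen G b * q⁻¹)
    (hx : ¬ Sep G x₁ x₂ (q * gen G b * q⁻¹)) (hxt : Sep G x₁ x₂ (p * gen G a * p⁻¹))
    (hy : ¬ Sep G y₁ y₂ (q * gen G b * q⁻¹)) (hyt : Sep G y₁ y₂ (p * gen G a * p⁻¹)) :
    ¬ Sep G x₁ y₁ (q * gen G b * q⁻¹) := by
  intro hxy
  obtain ⟨-, p', a', q', b', h1, h2, h3⟩ := four G htu hx hxt hy hyt hxy
  have ha := label_unique G h1
  have hb := label_unique G h2
  subst ha hb
  exact hab h3.symm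

/-- if far sides (seen from `x`) of non-crossing walls meet then they are nested -/
theorem nested {x z p q : W G} {a b : V} (hab : ¬ G.Adj a b)
    (h1 : Sep G x z (p * gen G a * p⁻¹)) (h2 : Sep G x z (q * gen G b * q⁻¹)) :
    (∀ z, Sep G x z (p * gen G a * p⁻¹) → Sep G x z (q * gen G b * q⁻¹)) ∨
    (∀ z, Sep G x z (q * gen G b * q⁻¹) → Sep G x z (p * gen G a * p⁻¹)) := by
  by_contra hcon
  push Not at hcon
  obtain ⟨⟨z₁, h3, h4⟩, ⟨z₂, h5, h6⟩⟩ := hcon
  have htu : p * gen G a * p⁻¹ ≠ q * gen G b * q⁻¹ := by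
    intro h
    rw [h] at h3
    exact h4 h3
  refine no_cross G hab htu (x₁ := x) (x₂ := z₁) (y₁ := z₂) (y₂ := z) h4 h3 ?_ ?_ h5
  · have := sep_trans_iff G x z₂ z (q * gen G b * q⁻¹)
    tauto
  · have := sep_trans_iff G x z₂ z (p * gen G a * p⁻¹)
    tauto

/-- hull lemma: if some wall separates `x` from all `v i`, then a wall at `x` does -/
theorem hull {ι : Type*} [Nonempty ι] {x t : W G} {v : ι → W G} (h : ∀ i, Sep G x (v i) t) :
    ∃ a, ∀ i, Sep G x (v i) (x * gen G a * x⁻¹) := by
  have hex : ∃ n, ∃ y, Sep G x y t ∧ dist G x y = n :=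
    ⟨_, v (Classical.arbitrary ι), h _, rfl⟩
  obtain ⟨y, hy, hyn⟩ := Nat.find_spec hex
  have hxy : x ≠ y := by
    rintro rfl
    exact not_sep_self G _ _ hy
  obtain ⟨a, ha, hlt⟩ := first_step G hxy
  refine ⟨a, fun i => ?_⟩
  by_contra hi
  have hne : t ≠ x * gen G a * x⁻¹ := by
    intro h'
    exact hi (h' ▸ h i)
  have hu : Sep G x (x * gen G a) (x * gen G a * x⁻¹) := (sep_gen G _ _ _).2 rfl
  have ht : ¬ Sep G x (x * gen G a) t := fun h' => hne ((sep_gen G _ _ _).1 h')
  have hf := four G hne (x₁ := x) (x₂ := v i) (y₁ := x * gen G a) (y₂ := y) hi (h i)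
    (by
      have := sep_trans_iff G x (x * gen G a) y (x * gen G a * x⁻¹)
      tauto)
    (by
      have := sep_trans_iff G x (x * gen G a) y t
      tauto) hu
  have hcomm := hf.1
  have h1 := sep_mul G (x * gen G a * x⁻¹) (x * gen G a) y t
  have e1 : x * gen G a * x⁻¹ * (x * gen G a) = x := by
    have : x * gen G a * x⁻¹ * (x * gen G a) = x * (gen G a * gen G a) := by group
    rw [this, gen_mul_self, mul_one]
  have e2 : x * gen G a * x⁻¹ * t * (x * gen G a * x⁻¹)⁻¹ = t := by
    rw [← hcomm]
    group
  rw [e1, e2] at h1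
  have h2 : Sep G x (x * gen G a * x⁻¹ * y) t := by
    rw [h1]
    have := sep_trans_iff G x (x * gen G a) y t
    tauto
  have h3 := dist_lt_of_sep G ha
  rw [hyn] at h3
  exact Nat.find_min hex h3 ⟨_, h2, rfl⟩

end

end MP8a95ee.RACG
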