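import Pool.Agent.Work.MP_8a95ee_gt.RACG

/-!
# Two chambers that see the same first letters
-/

namespace MP8a95ee.RACG

open scoped Classical

noncomputable section

variable {V : Type} (G : SimpleGraph V) {ι : Type*}

/-- `x` has crossed (seen from `o`) a wall with label `a` and splitting `I` of the points `v` -/
def Crossed (o : W G) (v : ι → W G) (x : W G) (a : V) (I : Set ι) : Prop :=
  ∃ p, Sep G o x (p * gen G a * p⁻¹) ∧ ∀ i, Sep G o (v i) (p * gen G a * p⁻¹) ↔ i ∈ I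

/-- there is a wall with label `a` and splitting `I` of the points `v` which `x` has not crossed
(seen from `o`) -/
def Uncrossed (o : W G) (v : ι → W G) (x : W G) (a : V) (I : Set ι) : Prop :=
  ∃ p, ¬ Sep G o x (p * gen G a * p⁻¹) ∧ ∀ i, Sep G o (v i) (p * gen G a * p⁻¹) ↔ i ∈ I

theorem opposite {o x y : W G} {v : ι → W G}
    (hc : ∀ a I, Crossed G o v x a I ↔ Crossed G o v y a I)
    (hu : ∀ a I, Uncrossed G o v x a I ↔ Uncrossed G o v y a I) {p : W G} {a : V}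
    (h : Sep G x y (p * gen G a * p⁻¹)) :
    ∃ q, ∀ i, Sep G x (v i) (q * gen G a * q⁻¹) ↔ ¬ Sep G x (v i) (p * gen G a * p⁻¹) := by
  by_cases ho : Sep G o x (p * gen G a * p⁻¹)
  · have h1 : Uncrossed G o v y a {i | Sep G o (v i) (p * gen G a * p⁻¹)} := by
      refine ⟨p, ?_, fun i => Iff.rfl⟩
      have := sep_trans_iff G o x y (p * gen G a * p⁻¹)
      tauto
    obtain ⟨q, hq1, hq2⟩ := (hu a _).2 h1
    refine ⟨q, fun i => ?_⟩
    have h2 := hq2 i
    rw [Set.mem_ofPred_eq] at h2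
    have h3 := sep_trans_iff G o x (v i) (p * gen G a * p⁻¹)
    have h4 := sep_trans_iff G o x (v i) (q * gen G a * q⁻¹)
    tauto
  · have h1 : Crossed G o v y a {i | Sep G o (v i) (p * gen G a * p⁻¹)} := by
      refine ⟨p, ?_, fun i => Iff.rfl⟩
      have := sep_trans_iff G o x y (p * gen G a * p⁻¹)
      tauto
    obtain ⟨q, hq1, hq2⟩ := (hc a _).2 h1
    refine ⟨q, fun i => ?_⟩
    have h2 := hq2 i
    rw [Set.mem_ofPred_eq] at h2
    have h3 := sep_trans_iff G o x (v i) (p * gen G a * p⁻¹)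
    have h4 := sep_trans_iff G o x (v i) (q * gen G a * q⁻¹)
    tauto

/-- if `A` is a set of labels and all other labels of walls separating `x` and `y` are adjacent to
all elements of `A`, then one can start a geodesic with a letter of `A` -/
theorem exists_first_mem {A : Set V} {x y p : W G} {a : V} (ha : a ∈ A)
    (h : Sep G x y (p * gen G a * p⁻¹))
    (hA : ∀ c ∉ A, ∀ q, Sep G x y (q * gen G c * q⁻¹) → ∀ b ∈ A, G.Adj c b) :
    ∃ b ∈ A, Sep G x y (x * gen G b * x⁻¹) := by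
  obtain ⟨n, hn⟩ : ∃ n, dist G x y = n := ⟨_, rfl⟩
  induction n using Nat.strong_induction_on generalizing x with
  | _ n ih =>
    have hxy : x ≠ y := by
      rintro rfl
      exact not_sep_self G _ _ h
    obtain ⟨c, hc, hlt⟩ := first_step G hxy
    by_cases hcA : c ∈ A
    · exact ⟨c, hcA, hc⟩
    · have hne : p * gen G a * p⁻¹ ≠ x * gen G c * x⁻¹ := by
        intro h'
        have := label_unique G h'
        subst this
        exact hcA ha
      obtain ⟨b, hb, hs⟩ := ih _ (hn ▸ hlt) (x := x * gen G c) ((sep_first G hc).2 ⟨h, hne⟩)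
        (fun d hd q hq => hA d hd q ((sep_first G hc).1 hq).1) rfl
      rw [conj_comm G (hA c hcA x hc b hb)] at hs
      exact ⟨b, hb, ((sep_first G hc).1 hs).1⟩

/-- The main claim. -/
theorem claim [Nonempty ι] {o x y : W G} {v : ι → W G} (hxy : x ≠ y)
    (hT : ∀ i a, Sep G x (v i) (x * gen G a * x⁻¹) ↔ Sep G y (v i) (y * gen G a * y⁻¹))
    (hK : ¬ ∃ a, ∀ i, Sep G x (v i) (x * gen G a * x⁻¹))
    (hc : ∀ a I, Crossed G o v x a I ↔ Crossed G o v y a I)
    (hu : ∀ a I, Uncrossed G o v x a I ↔ Uncrossed G o v y a I) :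
    ∃ (P Q : Set V) (I : Set ι), P.Nonempty ∧ Q.Nonempty ∧ I.Nonempty ∧ Iᶜ.Nonempty ∧
      (∀ i ∈ I, (∀ a ∈ P, Sep G x (v i) (x * gen G a * x⁻¹)) ∧
        (∀ a ∈ Q, ¬ Sep G x (v i) (x * gen G a * x⁻¹)) ∧
        ∀ a, Sep G x (v i) (x * gen G a * x⁻¹) → a ∉ P →
          (∀ b ∈ P, G.Adj a b) ∧ ∀ b ∈ Q, G.Adj a b) ∧
      (∀ i ∉ I, (∀ a ∈ Q, Sep G x (v i) (x * gen G a * x⁻¹)) ∧
        (∀ a ∈ P, ¬ Sep G x (v i) (x * gen G a * x⁻¹)) ∧
        ∀ a, Sep G x (v i) (x * gen G a * x⁻¹) → a ∉ Q →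
          (∀ b ∈ P, G.Adj a b) ∧ ∀ b ∈ Q, G.Adj a b) := by
  -- step 1
  have s1 : ∀ t, Sep G x y t → (∃ i, Sep G x (v i) t) ∧ ∃ i, ¬ Sep G x (v i) t := by
    intro t ht
    constructor
    · by_contra hcon
      push Not at hcon
      have h1 : ∀ i, Sep G y (v i) t := by
        intro i
        have h2 := hcon i
        have h3 := sep_trans_iff G x y (v i) t
        tauto
      obtain ⟨a, ha⟩ := hull G h1
      exact hK ⟨a, fun i => (hT i a).2 (ha i)⟩
    · by_contra hcon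
      push Not at hcon
      exact hK (hull G hcon)
  -- step 2
  have s2a : ∀ p q a b, ¬ G.Adj a b → Sep G x y (p * gen G a * p⁻¹) →
      Sep G x y (q * gen G b * q⁻¹) →
      (∀ z, Sep G x z (p * gen G a * p⁻¹) → Sep G x z (q * gen G b * q⁻¹)) →
      ∀ i, Sep G x (v i) (q * gen G b * q⁻¹) → Sep G x (v i) (p * gen G a * p⁻¹) := by
    intro p q a b hab hp hq hsub i hi
    by_contra hi'
    obtain ⟨r, hr⟩ := opposite G hc hu hp
    rcases nested G (a := a) (b := b) hab ((hr i).2 hi') hi with h | h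
    · obtain ⟨j, hj⟩ := (s1 _ hq).2
      apply hj
      by_cases hj' : Sep G x (v j) (p * gen G a * p⁻¹)
      · exact hsub _ hj'
      · exact h _ ((hr j).2 hj')
    · obtain ⟨j, hj⟩ := (s1 _ hp).1
      exact (hr j).1 (h _ (hsub _ hj)) hj
  have s2 : ∀ p q a b, ¬ G.Adj a b → Sep G x y (p * gen G a * p⁻¹) →
      Sep G x y (q * gen G b * q⁻¹) →
      ∀ i, Sep G x (v i) (p * gen G a * p⁻¹) ↔ Sep G x (v i) (q * gen G b * q⁻¹) := by
    intro p q a b hab hp hq i
    rcases nested G hab hp hq with h | h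
    · exact ⟨fun hi => h _ hi, s2a p q a b hab hp hq h i⟩
    · exact ⟨s2a q p b a (fun h' => hab h'.symm) hq hp h i, fun hi => h _ hi⟩
  -- step 3
  obtain ⟨a₀, ha₀, -⟩ := first_step G hxy
  set I : Set ι := {i | Sep G x (v i) (x * gen G a₀ * x⁻¹)} with hI
  set A : Set V := {a | ∃ p, Sep G x y (p * gen G a * p⁻¹) ∧
    ∀ i, Sep G x (v i) (p * gen G a * p⁻¹) ↔ i ∈ I} with hA
  have ha₀A : a₀ ∈ A := ⟨x, ha₀, fun i => Iff.rfl⟩
  have sA1 : ∀ a ∈ A, ∀ p, Sep G x y (p * gen G a * p⁻¹) →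
      ∀ i, Sep G x (v i) (p * gen G a * p⁻¹) ↔ i ∈ I := by
    rintro a ⟨q, hq1, hq2⟩ p hp i
    rw [s2 p q a a (fun h => h.ne rfl) hp hq1 i]
    exact hq2 i
  have sA2 : ∀ c ∉ A, ∀ q, Sep G x y (q * gen G c * q⁻¹) → ∀ b ∈ A, G.Adj c b := by
    rintro c hc' q hq b ⟨p, hp1, hp2⟩
    by_contra hcb
    exact hc' ⟨q, hq, fun i => (s2 q p c b hcb hq hp1 i).trans (hp2 i)⟩
  -- step 4
  set P : Set V := {a | a ∈ A ∧ Sep G x y (x * gen G a * x⁻¹)} with hP
  set Q : Set V := {a | a ∈ A ∧ Sep G x y (y * gen G a * y⁻¹)} with hQ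
  have hPn : P.Nonempty := ⟨a₀, ha₀A, ha₀⟩
  have hQn : Q.Nonempty := by
    obtain ⟨b, hb1, hb2⟩ := exists_first_mem G (x := y) (y := x) ha₀A ((sep_comm G).1 ha₀)
      (fun c hc' q hq => sA2 c hc' q ((sep_comm G).1 hq))
    exact ⟨b, hb1, (sep_comm G).1 hb2⟩
  have hPT : ∀ a ∈ P, ∀ i, Sep G x (v i) (x * gen G a * x⁻¹) ↔ i ∈ I := fun a ha i =>
    sA1 a ha.1 x ha.2 i
  have hQT : ∀ a ∈ Q, ∀ i, Sep G x (v i) (x * gen G a * x⁻¹) ↔ i ∉ I := by
    intro a ha i
    have h1 := sA1 a ha.1 y ha.2 i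
    have h2 := sep_trans_iff G x y (v i) (y * gen G a * y⁻¹)
    have h3 := ha.2
    rw [hT i a]
    tauto
  -- the other letters
  have hother : ∀ i s, Sep G x (v i) (x * gen G s * x⁻¹) → s ∉ P → s ∉ Q →
      (∀ b ∈ P, G.Adj s b) ∧ ∀ b ∈ Q, G.Adj s b := by
    intro i s hs hsP hsQ
    have hs' := (hT i s).1 hs
    by_cases hw : x * gen G s * x⁻¹ = y * gen G s * y⁻¹
    · have hn : ¬ Sep G x y (x * gen G s * x⁻¹) := by
        have h1 := sep_trans_iff G x y (v i) (x * gen G s * x⁻¹)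
        rw [← hw] at hs'
        tauto
      have key : ∀ p b, Sep G x y (p * gen G b * p⁻¹) → G.Adj s b := by
        intro p b hb
        obtain ⟨⟨q, c, h1, h2⟩, -⟩ := centralizer G hw hn hb
        have := label_unique G h1
        subst this
        exact h2.symm
      exact ⟨fun b hb => key _ b hb.2, fun b hb => key _ b hb.2⟩
    · have hsA : s ∉ A ∧ ∃ p, Sep G x y (p * gen G s * p⁻¹) := by
        by_cases h1 : Sep G x y (x * gen G s * x⁻¹)
        · exact ⟨fun h => hsP ⟨h, h1⟩, x, h1⟩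
        by_cases h2 : Sep G x y (y * gen G s * y⁻¹)
        · exact ⟨fun h => hsQ ⟨h, h2⟩, y, h2⟩
        exfalso
        -- sectors: x, xs on one side of wall(y,s)
        have h3 : Sep G x (x * gen G s) (x * gen G s * x⁻¹) := (sep_gen G _ _ _).2 rfl
        have h4 : ¬ Sep G x (x * gen G s) (y * gen G s * y⁻¹) := fun h =>
          hw ((sep_gen G _ _ _).1 h).symm
        have h5 : Sep G y (y * gen G s) (y * gen G s * y⁻¹) := (sep_gen G _ _ _).2 rfl
        have h6 : ¬ Sep G y (y * gen G s) (x * gen G s * x⁻¹) := fun h =>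
          hw ((sep_gen G _ _ _).1 h)
        refine no_cross G (a := s) (b := s) (fun h => h.ne rfl) hw (x₁ := x) (x₂ := x * gen G s)
          (y₁ := y * gen G s) (y₂ := v i) h4 h3 ?_ ?_ ?_
        · have e1 := sep_trans_iff G y (y * gen G s) (v i) (y * gen G s * y⁻¹)
          tauto
        · have e1 := sep_trans_iff G y (y * gen G s) (v i) (x * gen G s * x⁻¹)
          have e2 := sep_trans_iff G x y (v i) (x * gen G s * x⁻¹)
          tauto
        · have e1 := sep_trans_iff G x y (y * gen G s) (y * gen G s * y⁻¹)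
          tauto
      obtain ⟨hsA, p, hp⟩ := hsA
      exact ⟨fun b hb => sA2 s hsA p hp b hb.1, fun b hb => sA2 s hsA p hp b hb.1⟩
  refine ⟨P, Q, I, hPn, hQn, ?_, ?_, ?_, ?_⟩
  · obtain ⟨i, hi⟩ := (s1 _ ha₀).1
    exact ⟨i, hi⟩
  · obtain ⟨i, hi⟩ := (s1 _ ha₀).2
    exact ⟨i, hi⟩
  · intro i hi
    refine ⟨fun a ha => (hPT a ha i).2 hi, fun a ha h => (hQT a ha i).1 h hi, ?_⟩
    intro a ha haP
    refine hother i a ha haP ?_
    intro haQ
    exact (hQT a haQ i).1 ha hi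
  · intro i hi
    refine ⟨fun a ha => (hQT a ha i).2 hi, fun a ha h => hi ((hPT a ha i).1 h), ?_⟩
    intro a ha haQ
    refine hother i a ha ?_ haQ
    intro haP
    exact hi ((hPT a haP i).1 ha)

end

end MP8a95ee.RACG
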