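import Pool.Agent.Work.MP_8a95ee_gt.RACG2

/-!
# Finiteness and the uniform bound
-/

namespace MP8a95ee.RACG

open scoped Classical

noncomputable section

variable {V : Type} [Fintype V] (G : SimpleGraph V)

/-- the first letters of `x⁻¹ y` -/
def fl (x y : W G) : Finset V :=
  Finset.univ.filter fun a => Sep G x y (x * gen G a * x⁻¹)

theorem mem_fl {x y : W G} {a : V} : a ∈ fl G x y ↔ Sep G x y (x * gen G a * x⁻¹) := by
  simp [fl]

theorem fl_adj {x y : W G} {a b : V} (ha : a ∈ fl G x y) (hb : b ∈ fl G x y) (hab : a ≠ b) :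
    G.Adj a b :=
  adj_of_sep G ((mem_fl G).1 ha) ((mem_fl G).1 hb) hab

theorem fl_nonempty {x y : W G} (h : x ≠ y) : (fl G x y).Nonempty := by
  obtain ⟨a, ha, -⟩ := first_step G h
  exact ⟨a, (mem_fl G).2 ha⟩

theorem fl_self (x : W G) : fl G x x = ∅ := by
  ext a
  simp [mem_fl, not_sep_self]

theorem fl_mul (g x y : W G) : fl G (g * x) (g * y) = fl G x y := by
  ext a
  rw [mem_fl, mem_fl]
  have h := sep_mul G g x y (x * gen G a * x⁻¹)
  have e : g * (x * gen G a * x⁻¹) * g⁻¹ = g * x * gen G a * (g * x)⁻¹ := by group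
  rw [e] at h
  exact h

/-- the entries have a common vertex -/
def InK {m : ℕ} (T : Fin m → Finset V) : Prop := ∃ a, ∀ i, a ∈ T i

/-- the entries are `P ∪ τ` or `Q ∪ τ`, where all elements of `τ` are adjacent to all elements of
`P ∪ Q` -/
def InF {m : ℕ} (T : Fin m → Finset V) : Prop :=
  ∃ P Q : Finset V, P.Nonempty ∧ Q.Nonempty ∧ Disjoint P Q ∧
    ∀ i, ∃ τ : Finset V, (∀ a ∈ τ, (∀ b ∈ P, G.Adj a b) ∧ ∀ b ∈ Q, G.Adj a b) ∧
      (T i = P ∪ τ ∨ T i = Q ∪ τ)

omit [Fintype V] in
theorem finite_S (x : W G) : {t | S G x t = true}.Finite := by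
  induction x using gen_induction with
  | h1 => simp [S_one]
  | h2 x a ih =>
    refine (ih.union (Set.finite_singleton (x * gen G a * x⁻¹))).subset ?_
    intro t ht
    rw [Set.mem_ofPred_eq, S_mul_gen] at ht
    by_cases h : t = x * gen G a * x⁻¹
    · exact Or.inr h
    · left
      simpa [h] using ht

omit [Fintype V] in
theorem finite_sep (x y : W G) : {t | Sep G x y t}.Finite := by
  refine ((finite_S G x).union (finite_S G y)).subset ?_
  intro t ht
  have ht' : S G x t ≠ S G y t := ht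
  by_cases h : S G x t = true
  · exact Or.inl h
  · right
    rw [Set.mem_ofPred_eq]
    cases hy : S G y t
    · cases hx : S G x t
      · rw [hx, hy] at ht'
        exact absurd rfl ht'
      · exact absurd hx h
    · rfl

omit [Fintype V] in
theorem eq_of_sep {x y : W G} (h : ∀ t, ¬ Sep G x y t) : x = y := by
  by_contra hne
  obtain ⟨a, ha, -⟩ := first_step G hne
  exact h _ ha

/-- the chambers at which the first letters towards the points `v` have no common element form a
finite set -/
theorem finite_hull {n : ℕ} (v : Fin (n + 1) → W G) :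
    {x | ¬ InK (fun i => fl G x (v i))}.Finite := by
  have hN : (⋃ i, {t | Sep G (v 0) (v i) t}).Finite :=
    Set.finite_iUnion fun i => finite_sep G _ _
  refine Set.Finite.of_finite_image (f := fun x => {t | Sep G (v 0) x t})
    (hN.finite_subsets.subset ?_) ?_
  · rintro _ ⟨x, hx, rfl⟩ t ht
    rw [Set.mem_iUnion]
    by_contra hcon
    push Not at hcon
    apply hx
    have h1 : ∀ i, Sep G x (v i) t := by
      intro i
      have h2 : ¬ Sep G (v 0) (v i) t := hcon i
      have h3 : Sep G (v 0) x t := ht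
      have h4 := sep_trans_iff G (v 0) x (v i) t
      tauto
    obtain ⟨a, ha⟩ := hull G h1
    exact ⟨a, fun i => (mem_fl G).2 (ha i)⟩
  · intro x _ y _ hxy
    refine eq_of_sep G fun t ht => ?_
    have h1 : Sep G (v 0) x t ↔ Sep G (v 0) y t := by
      have := Set.ext_iff.1 hxy t
      exact this
    have h2 := sep_trans_iff G (v 0) x y t
    tauto

/-- the finite type of configurations -/
abbrev Cfg (V : Type) (n : ℕ) : Type :=
  (Fin (n + 1) → Finset V) × (V → Set (Fin (n + 1)) → Prop) × (V → Set (Fin (n + 1)) → Prop)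

/-- the configuration at a chamber -/
def cfg {n : ℕ} (v : Fin (n + 1) → W G) (x : W G) : Cfg V n :=
  (fun i => fl G x (v i), fun a I => Crossed G (v 0) v x a I,
    fun a I => Uncrossed G (v 0) v x a I)

theorem cfg_inj {n : ℕ} (v : Fin (n + 1) → W G) {x y : W G} (hxy : x ≠ y)
    (hK : ¬ InK (fun i => fl G x (v i))) (h : cfg G v x = cfg G v y) :
    InF G (fun i => fl G x (v i)) := by
  have h1 : ∀ i, fl G x (v i) = fl G y (v i) := fun i => congrFun (congrArg Prod.fst h) i
  have h2 : ∀ a I, Crossed G (v 0) v x a I ↔ Crossed G (v 0) v y a I := fun a I =>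
    iff_of_eq (congrFun (congrFun (congrArg (fun c : Cfg V n => c.2.1) h) a) I)
  have h3 : ∀ a I, Uncrossed G (v 0) v x a I ↔ Uncrossed G (v 0) v y a I := fun a I =>
    iff_of_eq (congrFun (congrFun (congrArg (fun c : Cfg V n => c.2.2) h) a) I)
  obtain ⟨P, Q, I, hP, hQ, ⟨i₀, hi₀⟩, ⟨j₀, hj₀⟩, hI, hI'⟩ := claim G hxy
    (fun i a => by
      have := Finset.ext_iff.1 (h1 i) a
      rwa [mem_fl, mem_fl] at this)
    (fun ⟨a, ha⟩ => hK ⟨a, fun i => (mem_fl G).2 (ha i)⟩) h2 h3
  refine ⟨P.toFinset, Q.toFinset, ?_, ?_, ?_, ?_⟩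
  · simpa using hP
  · simpa using hQ
  · rw [Finset.disjoint_left]
    intro a ha hb
    rw [Set.mem_toFinset] at ha hb
    exact (hI i₀ hi₀).2.1 a hb ((hI i₀ hi₀).1 a ha)
  · intro i
    by_cases hi : i ∈ I
    · obtain ⟨a1, a2, a3⟩ := hI i hi
      refine ⟨fl G x (v i) \ P.toFinset, ?_, Or.inl ?_⟩
      · intro a ha
        rw [Finset.mem_sdiff, mem_fl, Set.mem_toFinset] at ha
        obtain ⟨b1, b2⟩ := a3 a ha.1 ha.2
        exact ⟨fun b hb => b1 b (Set.mem_toFinset.1 hb), fun b hb => b2 b (Set.mem_toFinset.1 hb)⟩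
      · ext a
        simp only [Finset.mem_union, Finset.mem_sdiff, Set.mem_toFinset]
        constructor
        · intro h'
          by_cases haP : a ∈ P
          · exact Or.inl haP
          · exact Or.inr ⟨h', haP⟩
        · rintro (h' | h')
          · exact (mem_fl G).2 (a1 a h')
          · exact h'.1
    · obtain ⟨a1, a2, a3⟩ := hI' i hi
      refine ⟨fl G x (v i) \ Q.toFinset, ?_, Or.inr ?_⟩
      · intro a ha
        rw [Finset.mem_sdiff, mem_fl, Set.mem_toFinset] at ha
        obtain ⟨b1, b2⟩ := a3 a ha.1 ha.2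
        exact ⟨fun b hb => b1 b (Set.mem_toFinset.1 hb), fun b hb => b2 b (Set.mem_toFinset.1 hb)⟩
      · ext a
        simp only [Finset.mem_union, Finset.mem_sdiff, Set.mem_toFinset]
        constructor
        · intro h'
          by_cases haQ : a ∈ Q
          · exact Or.inl haQ
          · exact Or.inr ⟨h', haQ⟩
        · rintro (h' | h')
          · exact (mem_fl G).2 (a1 a h')
          · exact h'.1

/-- the uniform bound -/
theorem bounded {n : ℕ} (v : Fin (n + 1) → W G) :
    {x | ¬ InK (fun i => fl G x (v i)) ∧ ¬ InF G (fun i => fl G x (v i))}.ncard ≤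
      Nat.card (Cfg V n) := by
  have hinj : Set.InjOn (cfg G v)
      {x | ¬ InK (fun i => fl G x (v i)) ∧ ¬ InF G (fun i => fl G x (v i))} := by
    intro x hx y _ hxy
    by_contra hne
    exact hx.2 (cfg_inj G v hne hx.1 hxy)
  have h1 := hinj.ncard_image
  rw [← h1, ← Set.ncard_univ]
  exact Set.ncard_le_ncard (Set.subset_univ _) Set.finite_univ

end

end MP8a95ee.RACG
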