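import Pool.Agent.Work.MP_8a95ee_gt.Setup

/-!
Stub: all lemma statements (items). Do NOT import this file in a final proof.
-/

namespace MP8a95ee

/-! ### A: combinatorics -/

theorem subdiv_comm (L : Finset (Finset ℕ)) (u v w : ℕ) : subdiv L u v w = subdiv L v u w := by
  sorry

theorem verts_mem_iff {L : Finset (Finset ℕ)} (hf : FlagC L) (x : ℕ) :
    x ∈ verts L ↔ ({x} : Finset ℕ) ∈ L := by
  sorry

theorem flagC_lk {L : Finset (Finset ℕ)} (hf : FlagC L) {τ : Finset ℕ} (hτ : τ ∈ L) :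
    FlagC (lk L τ) := by
  sorry

theorem flagC_cross (n : ℕ) : FlagC (cross n) ∧ ∀ σ ∈ cross n, σ.card ≤ n := by
  sorry

theorem flagC_subdiv {n : ℕ} {L : Finset (Finset ℕ)} {u v w : ℕ} (hf : FlagC L)
    (hd : ∀ σ ∈ L, σ.card ≤ n) (huv : u ≠ v) (he : ({u, v} : Finset ℕ) ∈ L) (hw : w ∉ verts L) :
    FlagC (subdiv L u v w) ∧ ∀ σ ∈ subdiv L u v w, σ.card ≤ n := by
  sorry

theorem orient_cross (n : ℕ) : ∃ o, IsOrient (cross n) n o := by
  sorry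

theorem orient_subdiv {n : ℕ} {L : Finset (Finset ℕ)} {u v w : ℕ} {o : (Fin n → ℕ) → ℤ}
    (hf : FlagC L) (hd : ∀ σ ∈ L, σ.card ≤ n) (huv : u ≠ v) (he : ({u, v} : Finset ℕ) ∈ L)
    (hw : w ∉ verts L) (ho : IsOrient L n o) : ∃ o', IsOrient (subdiv L u v w) n o' := by
  sorry

theorem kap_subdiv {K : Finset (Finset ℕ)} {u v w : ℕ} (hf : FlagC K) (huv : u ≠ v)
    (he : ({u, v} : Finset ℕ) ∈ K) (hw : w ∉ verts K) :
    kap (subdiv K u v w) = kap K - kap (lk K {u, v}) / 4 := by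
  sorry

theorem good_subdiv_same {K : Finset (Finset ℕ)} {j u v w : ℕ} {φ : ℕ → ℕ × ZMod 5}
    (hf : FlagC K) (hd : ∀ σ ∈ K, σ.card ≤ 2 * j) (huv : u ≠ v) (he : ({u, v} : Finset ℕ) ∈ K)
    (hw : w ∉ verts K) (hG : Good K j φ) :
    Good (subdiv K u v w) j (Function.update φ w (φ u)) := by
  sorry

theorem good_subdiv_new {K : Finset (Finset ℕ)} {j u v w : ℕ} {φ : ℕ → ℕ × ZMod 5}
    (hf : FlagC K) (huv : u ≠ v) (he : ({u, v} : Finset ℕ) ∈ K) (hw : w ∉ verts K)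
    (hG : Good (lk K {u, v}) j φ) : ∃ φ', Good (subdiv K u v w) (j + 1) φ' := by
  sorry

theorem lk_subdiv_far {L : Finset (Finset ℕ)} {u v w : ℕ} (hf : FlagC L) (huv : u ≠ v)
    (he : ({u, v} : Finset ℕ) ∈ L) (hw : w ∉ verts L) {τ : Finset ℕ} (hτ : τ ∈ L)
    (hfar : insert u (insert v τ) ∉ L) : lk (subdiv L u v w) τ = lk L τ := by
  sorry

theorem lk_subdiv_near {L : Finset (Finset ℕ)} {u v w : ℕ} (hf : FlagC L) (huv : u ≠ v)
    (he : ({u, v} : Finset ℕ) ∈ L) (hw : w ∉ verts L) {τ : Finset ℕ} (hu : u ∉ τ) (hv : v ∉ τ)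
    (hn : insert u (insert v τ) ∈ L) :
    lk (subdiv L u v w) τ = subdiv (lk L τ) u v w := by
  sorry

theorem lk_lk_edge {L : Finset (Finset ℕ)} {u v : ℕ} (hf : FlagC L) (huv : u ≠ v)
    {τ : Finset ℕ} (hu : u ∉ τ) (hv : v ∉ τ) (hn : insert u (insert v τ) ∈ L) :
    lk (lk L τ) {u, v} = lk L (insert u (insert v τ)) := by
  sorry

theorem lk_subdiv_one {L : Finset (Finset ℕ)} {u v w : ℕ} (hf : FlagC L) (huv : u ≠ v)
    (he : ({u, v} : Finset ℕ) ∈ L) (hw : w ∉ verts L) {τ : Finset ℕ} (hu : u ∈ τ) (hv : v ∉ τ)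
    (hn : insert v τ ∈ L) :
    kap (lk (subdiv L u v w) τ) = kap (lk L τ) ∧
    ∀ j φ, Good (lk L τ) j φ → Good (lk (subdiv L u v w) τ) j (Function.update φ w (φ v)) := by
  sorry

theorem kap_lk_new {L : Finset (Finset ℕ)} {u v w : ℕ} (hf : FlagC L) (huv : u ≠ v)
    (he : ({u, v} : Finset ℕ) ∈ L) (hw : w ∉ verts L) {τ : Finset ℕ} (hu : u ∉ τ) (hv : v ∉ τ)
    (hn : insert u (insert v τ) ∈ L) :
    kap (lk (subdiv L u v w) (insert w τ)) = 0 := by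
  sorry

theorem lk_subdiv_two {L : Finset (Finset ℕ)} {u v w : ℕ} (hf : FlagC L) (huv : u ≠ v)
    (he : ({u, v} : Finset ℕ) ∈ L) (hw : w ∉ verts L) {τ : Finset ℕ} (hu : u ∈ τ) (hv : v ∉ τ)
    (hn : insert v τ ∈ L) :
    lk (subdiv L u v w) (insert w τ) = lk L (insert v τ) := by
  sorry

theorem propP_cross (n : ℕ) : PropP n (cross n) := by
  sorry

theorem propP_subdiv {n : ℕ} {L : Finset (Finset ℕ)} {u v w : ℕ} (hf : FlagC L)
    (hd : ∀ σ ∈ L, σ.card ≤ n) (huv : u ≠ v) (he : ({u, v} : Finset ℕ) ∈ L) (hw : w ∉ verts L)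
    (hP : PropP n L) : PropP n (subdiv L u v w) := by
  sorry

theorem eulerChar_eq (L : Finset (Finset ℕ)) :
    (eulerChar L : ℚ) = 2 ^ (verts L).card * kap L := by
  sorry

/-! ### B: topology -/

section B

variable {X G ι : Type} [TopologicalSpace X] [Group G]

theorem exists_lift (D : FlatData X G ι) {A : Type} [TopologicalSpace A]
    [SimplyConnectedSpace A] [LocallyPathConnectedSpace A] (f : C(A, X)) (a₀ : A) (g₀ : G) :
    ∃ g : A → G, D.IsLift f g ∧ g a₀ = g₀ := by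
  sorry

theorem cochain_exists (D : FlatData X G ι) (s : ι → ℤˣ) (χ : G →* ℤˣ)
    (hs : ∀ i j x, x ∈ D.U i → x ∈ D.U j → s j * χ (D.tr i j) = s i) {n : ℕ}
    (K : BCocycle G χ n) :
    ∃ c : SSimplex X n → ℝ, (∀ σ, |c σ| ≤ K.C) ∧
      (∀ σ : SSimplex X (n + 1), ∑ i : Fin (n + 2), (-1 : ℝ) ^ (i : ℕ) * c (face σ i) = 0) ∧
      ∀ (σ : SSimplex X n) (g : stdSimplex ℝ (Fin (n + 1)) → G), D.IsLift σ g →
        c σ = (((s (D.idx (σ (vtx 0))) * χ (g (vtx 0)) : ℤˣ) : ℤ) : ℝ) *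
          K.F (fun i => g (vtx i)) := by
  sorry

theorem eval_eq_zero {n : ℕ} (c : SSimplex X n → ℝ) (C : ℝ) (hb : ∀ σ, |c σ| ≤ C)
    (hc : ∀ σ : SSimplex X (n + 1), ∑ i : Fin (n + 2), (-1 : ℝ) ^ (i : ℕ) * c (face σ i) = 0)
    (z : SChain X n) (h : ∀ ε > 0, ∃ b : SChain X (n + 1), l1 (z + bd b) < ε) :
    (z.sum fun σ a => a * c σ) = 0 := by
  sorry

theorem prodR_mul (r : ℕ → G) (σ : Finset ℕ) (hsq : ∀ i ∈ σ, r i * r i = 1)
    (hcomm : ∀ i ∈ σ, ∀ j ∈ σ, r i * r j = r j * r i) (A B : Finset ℕ) (hA : A ⊆ σ)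
    (hB : B ⊆ σ) : prodR r A * prodR r B = prodR r (symmDiff A B) := by
  sorry

theorem flatRZ_exists (L : Finset (Finset ℕ)) (r : ℕ → G)
    (hsq : ∀ i ∈ verts L, r i * r i = 1)
    (hcomm : ∀ σ ∈ L, ∀ i ∈ σ, ∀ j ∈ σ, r i * r j = r j * r i) :
    ∃ D : FlatData (RZ L) G (Finset ℕ), D.U = chartU L ∧ D.idx = negSet L ∧
      D.tr = fun T T' => prodR r (symmDiff T T') := by
  sorry

theorem isLift_aff (L : Finset (Finset ℕ)) (hf : FlagC L) (r : ℕ → G)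
    (hsq : ∀ i ∈ verts L, r i * r i = 1)
    (hcomm : ∀ σ ∈ L, ∀ i ∈ σ, ∀ j ∈ σ, r i * r j = r j * r i)
    (D : FlatData (RZ L) G (Finset ℕ)) (hU : D.U = chartU L) (hidx : D.idx = negSet L)
    (htr : D.tr = fun T T' => prodR r (symmDiff T T')) {n : ℕ}
    (c : Fin (n + 1) → Finset ℕ) (hc : Allowed L c) (a : SSimplex (RZ L) n)
    (ha : ∀ t, ((a t : RZ L) : ℕ → ℝ) = affMap c t) :
    D.IsLift a (fun t => prodR r (symmDiff (c 0) (negSet L (a t)))) ∧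
    ∀ k, negSet L (a (vtx k)) = c k := by
  sorry

end B

theorem exists_aff (L : Finset (Finset ℕ)) (hf : FlagC L) (n : ℕ) :
    ∃ a : (Fin (n + 1) → Finset ℕ) → SSimplex (RZ L) n, IsAff L a := by
  sorry

theorem allowed_flips (L : Finset (Finset ℕ)) (hf : FlagC L) {n : ℕ} (T : Finset ℕ)
    (hT : T ⊆ verts L) (s : Fin n → ℕ) (hs : Finset.univ.image s ∈ L) : Allowed L (flips T s) := by
  sorry

theorem bd_zchain (L : Finset (Finset ℕ)) (hf : FlagC L) {n : ℕ}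
    (a : (Fin (n + 1 + 1) → Finset ℕ) → SSimplex (RZ L) (n + 1)) (ha : IsAff L a)
    (o : (Fin (n + 1) → ℕ) → ℤ) (ho : IsOrient L (n + 1) o) :
    bd (zchain L a o) = 0 := by
  sorry

theorem topological (L : Finset (Finset ℕ)) (hf : FlagC L) {n : ℕ}
    (o : (Fin (n + 1) → ℕ) → ℤ) (ho : IsOrient L (n + 1) o) {G : Type} [Group G]
    (χ : G →* ℤˣ) (K : BCocycle G χ (n + 1)) (r : ℕ → G)
    (hsq : ∀ i ∈ verts L, r i * r i = 1)
    (hcomm : ∀ σ ∈ L, ∀ i ∈ σ, ∀ j ∈ σ, r i * r j = r j * r i)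
    (hχ : ∀ i ∈ verts L, χ (r i) = -1)
    (hvol : ∀ z : SChain (RZ L) (n + 1), bd z = 0 → ∀ ε > 0,
      ∃ b : SChain (RZ L) (n + 2), l1 (z + bd b) < ε) :
    ∑ s ∈ Fintype.piFinset (fun _ : Fin (n + 1) => verts L),
      (o s : ℝ) * K.F (Fin.partialProd fun i => r (s i)) = 0 := by
  sorry

/-! ### C: the pentagon -/

theorem exists_pentData : Nonempty PentData := by
  sorry

/-! ### D: the product cocycle and the evaluation -/

theorem cupF_cocycle (P : PentData) (m : ℕ) :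
    ∃ K : BCocycle (ℕ → P.G) (prodChi P m) (2 * m), K.F = cupF P m := by
  sorry

theorem refl_facts (P : PentData) (L : Finset (Finset ℕ)) (hf : FlagC L) (m : ℕ)
    (φ : ℕ → ℕ × ZMod 5) (hG : Good L m φ) :
    (∀ i, refl P φ i * refl P φ i = 1) ∧
    (∀ σ ∈ L, ∀ i ∈ σ, ∀ j ∈ σ, refl P φ i * refl P φ j = refl P φ j * refl P φ i) ∧
    (∀ i ∈ verts L, prodChi P m (refl P φ i) = -1) := by
  sorry

theorem evaluation (P : PentData) (L : Finset (Finset ℕ)) (hf : FlagC L) (m : ℕ)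
    (o : (Fin (2 * m) → ℕ) → ℤ) (ho : IsOrient L (2 * m) o)
    (φ : ℕ → ℕ × ZMod 5) (hG : Good L m φ) :
    ∑ s ∈ Fintype.piFinset (fun _ : Fin (2 * m) => verts L),
      (o s : ℝ) * cupF P m (Fin.partialProd fun i => refl P φ (s i)) ≠ 0 := by
  sorry

end MP8a95ee
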